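import Pool.Agent.K9h27.TP.Mom

/-!
First moment of the number of the times near which many points lie in heavy cells: conclusion.
-/

set_option autoImplicit false
set_option linter.unusedVariables false

namespace Pool.Agent.K9h27.TP

open H974 Finset H342P H984P H984N TH992.T Pool.Agent.Y985.ME Pool.Agent.Y995.HG

theorem HH_exp {C : ℝ} (hC : 0 < C) (hU : TwoUp C (1/4)) (A η : ℝ) (hA : 0 < A) (hη : 0 < η) :
    ∃ u : ℝ, 0 < u ∧ ∀ κ : ℝ, 0 < κ →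
    ∃ C1 : ℝ, 0 < C1 ∧ ∀ (D : Dm) (n : ℝ) (P k : ℕ), D.Shape κ n → 1 ≤ P → 1 ≤ k →
      4 * ((P * k : ℕ) : ℝ) ≤ n →
      E D.edges (fun F => (HH D F (P * k) k (u * (k : ℝ) ^ (7/4 : ℝ))
        (η * (P : ℝ) ^ 2 * (k : ℝ) ^ (7/4 : ℝ)) : ℝ)) ≤
        C1 * n ^ (7/4 : ℝ) * Real.exp (-(A * (P : ℝ) ^ 2)) := by
  classical
  obtain ⟨u', hu'0, hYY⟩ := YY_pr (C0 := 4 * (C + 1) * (1 + 8 * (1 + 1 / (1 - 1/4))))
    4 (by positivity) (2 * A) (η / 9) (by positivity) (by positivity)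
  obtain ⟨M, hM1, hM⟩ := Y994.MC.expY (a := 1/4)
    (C0 := 4 * (C + 1) * (1 + 8 * (1 + 1 / (1 - 1/4))))
    (by norm_num) (by norm_num) 4 (by positivity)
  refine ⟨9 * u', by positivity, fun κ hκ => ?_⟩
  obtain ⟨C2, hC2, hfm⟩ := s_fm κ hκ
  refine ⟨(8 * M + 9) / 2 * (C2 * 4), by positivity, fun D n P k hD hP hk hmn => ?_⟩
  obtain ⟨m, hm⟩ : ∃ m : ℕ, m = P * k := ⟨_, rfl⟩
  have hm1' : 1 ≤ m := by rw [hm]; exact Nat.mul_pos hP hk
  have hm0 : (0 : ℝ) < m := by exact_mod_cast hm1'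
  have hm1 : (1 : ℝ) ≤ m := by exact_mod_cast hm1'
  have hn0 : 0 < n := by rw [← hm] at hmn; linarith
  have hk0 : (0 : ℝ) < k := by exact_mod_cast hk
  have hk7 : 0 < (k : ℝ) ^ (7/4 : ℝ) := by positivity
  obtain ⟨S, hS⟩ : ∃ S : ℝ, S = ((6 * m : ℕ) : ℝ) ^ (7/4 : ℝ) := ⟨_, rfl⟩
  have hS0 : 0 < S := by rw [hS]; positivity
  obtain ⟨b, hb⟩ : ∃ b : ℝ, b = Real.exp (-(A * (P : ℝ) ^ 2)) := ⟨_, rfl⟩
  have hb0 : 0 < b := by rw [hb]; exact Real.exp_pos _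
  have hfam := xs_fam hC hU D
  have e2 : (2 - 1/4 : ℝ) = 7/4 := by norm_num
  obtain ⟨Aq, hAq⟩ : ∃ Aq : Vtx → Finset Edg → Prop, Aq = fun q F =>
    η * (P : ℝ) ^ 2 * (k : ℝ) ^ (7/4 : ℝ) ≤
      9 * GG D P k q (9 * u' * (k : ℝ) ^ (7/4 : ℝ) / 9) F := ⟨_, rfl⟩
  have hPr : ∀ q, Pr (fun _ : Edg => (1/2:ℝ)) D.edges (Aq q) ≤ 9 * b ^ 2 := by
    intro q
    have h1 := hYY _ _ _ hfam k P (q.1 * (4 * (P * k : ℕ) : ℤ) - 2 * (P * k : ℕ))
      (q.2 * (4 * (P * k : ℕ) : ℤ) - 2 * (P * k : ℕ)) hk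
    have e3 : 9 * Real.exp (-(2 * A * (P : ℝ) ^ 2)) = 9 * b ^ 2 := by
      rw [hb, ← Real.exp_nat_mul]
      congr 2
      push_cast
      ring
    rw [e3] at h1
    refine le_trans ?_ h1
    unfold Pr
    refine Ex_mono two_ok fun F _ => ind_mono fun hF => ?_
    rw [hAq] at hF
    have hF' : η * (P : ℝ) ^ 2 * (k : ℝ) ^ (7/4 : ℝ) ≤
      9 * GG D P k q (9 * u' * (k : ℝ) ^ (7/4 : ℝ) / 9) F := hF
    have e4 : GG D P k q (9 * u' * (k : ℝ) ^ (7/4 : ℝ) / 9) F = (k : ℝ) ^ (7/4 : ℝ) *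
        YY (xs D) k (8 * P) (q.1 * (4 * (P * k : ℕ) : ℤ) - 2 * (P * k : ℕ))
          (q.2 * (4 * (P * k : ℕ) : ℤ) - 2 * (P * k : ℕ)) u' F := by
      unfold GG YY
      rw [mul_sum]
      refine sum_congr rfl fun i _ => ?_
      unfold Yb
      rw [e2]
      have e5 : ∀ x : ℝ, ind (9 * u' * (k : ℝ) ^ (7/4 : ℝ) / 9 ≤ x) =
          ind (u' ≤ x / (k : ℝ) ^ (7/4 : ℝ)) := by
        intro x
        refine ind_congr ?_
        rw [le_div_iff₀ hk7]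
        have : 9 * u' * (k : ℝ) ^ (7/4 : ℝ) / 9 = u' * (k : ℝ) ^ (7/4 : ℝ) := by ring
        rw [this]
      rw [e5]
      field_simp
    rw [e4] at hF'
    have h2 : (k : ℝ) ^ (7/4 : ℝ) * (η / 9 * (P : ℝ) ^ 2) ≤ (k : ℝ) ^ (7/4 : ℝ) *
        YY (xs D) k (8 * P) (q.1 * (4 * (P * k : ℕ) : ℤ) - 2 * (P * k : ℕ))
          (q.2 * (4 * (P * k : ℕ) : ℤ) - 2 * (P * k : ℕ)) u' F := by
      linarith
    exact le_of_mul_le_mul_left h2 hk7
  have hY : ∀ q, E D.edges (fun F => Zq D m q F * ind (Aq q F)) ≤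
      S * ((8 * M + 9) / 2 * b) := by
    intro q
    have hZ : ∀ F, Zq D m q F = S * Yb (1/4) (xs D) (6 * m) (q.1 * (4 * m : ℤ) - m)
        (q.2 * (4 * m : ℤ) - m) F := by
      intro F
      unfold Yb Zq
      rw [e2, ← hS]
      field_simp
    have h1 := trunc2 two_ok (S := D.edges) (Z := fun F => Yb (1/4) (xs D) (6 * m)
      (q.1 * (4 * m : ℤ) - m) (q.2 * (4 * m : ℤ) - m) F) (fun F => Yb_nonneg hfam _ _ _ _)
      (M := M) (b := b)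
      (hM _ _ _ hfam (6 * m) _ _ (by omega)) hb0 (A := Aq q) (hPr q)
    have h2 : E D.edges (fun F => Zq D m q F * ind (Aq q F)) =
        E D.edges (fun F => S * (Yb (1/4) (xs D) (6 * m)
      (q.1 * (4 * m : ℤ) - m) (q.2 * (4 * m : ℤ) - m) F * ind (Aq q F))) := by
      refine Ex_congr fun F _ => ?_
      rw [hZ F, mul_assoc]
    rw [h2]
    show Ex _ _ _ ≤ _
    rw [Ex_mul_left]
    exact mul_le_mul_of_nonneg_left h1 hS0.le
  have hW : (1 : ℤ) ≤ 4 * m := by omega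
  have h1 : E D.edges (fun F => (HH D F (P * k) k (9 * u' * (k : ℝ) ^ (7/4 : ℝ))
        (η * (P : ℝ) ^ 2 * (k : ℝ) ^ (7/4 : ℝ)) : ℝ)) ≤
      E D.edges (fun F => ∑ q ∈ Bks D (4 * m),
        ind (Tch D (4 * m) q F) * (Zq D m q F * ind (Aq q F))) := by
    refine Ex_mono two_ok fun F hF => ?_
    have := HH_det hD.ok hF hP hk (9 * u' * (k : ℝ) ^ (7/4 : ℝ))
        (η * (P : ℝ) ^ 2 * (k : ℝ) ^ (7/4 : ℝ))
    rw [hAq, hm]
    exact this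
  refine h1.trans ?_
  show Ex _ _ _ ≤ _
  rw [Ex_sum]
  have h2 : ∀ q ∈ Bks D (4 * m), Ex (fun _ : Edg => (1/2:ℝ)) D.edges
      (fun F => ind (Tch D (4 * m) q F) * (Zq D m q F * ind (Aq q F))) ≤
      H984N.P D.edges (Tch D (4 * m) q) * (S * ((8 * M + 9) / 2 * b)) := by
    intro q _
    have h3 := tch_mul hD.ok hW (q := q) (Y := fun F => Zq D m q F * ind (Aq q F))
      (fun F hF => by
        have e6 : Zq D m q F = Zq D m q (F ∩ Lam D (4 * m) q) := Zq_local hC hU hm1' hF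
        have e7 : ind (Aq q F) = ind (Aq q (F ∩ Lam D (4 * m) q)) := by
          rw [hAq]
          have := GG_local hC hU hP hk (q := q) (K := 9 * u' * (k : ℝ) ^ (7/4 : ℝ) / 9) hF
          rw [← hm] at this
          simp only
          rw [← this]
        show _ * _ = _ * _
        rw [← e6, ← e7])
    refine (le_of_eq h3).trans (mul_le_mul_of_nonneg_left (hY q) (Pr_nonneg two_ok _ _))
  refine (sum_le_sum h2).trans ?_
  rw [← sum_mul]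
  rw [← hm] at hmn
  have h4 := hfm D n n (4 * m : ℤ) hD hW (by push_cast; linarith) le_rfl
  have h5 : (Bks D (4 * m)).filter
      (fun q => ((D.bd (q.1 * (4 * m : ℤ), q.2 * (4 * m : ℤ)) : ℤ) : ℝ) ≤ n) = Bks D (4 * m) := by
    refine filter_true_of_mem fun q _ => ?_
    have h6 : 2 * D.bd (q.1 * (4 * m : ℤ), q.2 * (4 * m : ℤ)) ≤ D.r - D.l := by
      unfold Dm.bd
      simp only
      omega
    have h7 : ((2 * D.bd (q.1 * (4 * m : ℤ), q.2 * (4 * m : ℤ)) : ℤ) : ℝ) ≤ n :=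
      (by exact_mod_cast h6 : ((2 * D.bd (q.1 * (4 * m : ℤ), q.2 * (4 * m : ℤ)) : ℤ) : ℝ) ≤
        ((D.r - D.l : ℤ) : ℝ)).trans hD.w_le
    push_cast at h7
    linarith
  rw [h5] at h4
  have h6 : (n / n) ^ (3/4 : ℝ) = 1 := by
    rw [div_self hn0.ne', Real.one_rpow]
  rw [h6, mul_one] at h4
  have h7 : S * (n / ((4 * m : ℤ) : ℝ)) ^ (7/4 : ℝ) ≤ 4 * n ^ (7/4 : ℝ) := by
    rw [hS, ← Real.mul_rpow (by positivity) (by positivity)]
    have e : ((6 * m : ℕ) : ℝ) * (n / ((4 * m : ℤ) : ℝ)) = (3/2) * n := by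
      push_cast
      field_simp
      norm_num
    rw [e, Real.mul_rpow (by norm_num) hn0.le]
    refine mul_le_mul_of_nonneg_right ?_ (by positivity)
    calc (3/2 : ℝ) ^ (7/4 : ℝ) ≤ (3/2) ^ (2 : ℝ) :=
          Real.rpow_le_rpow_of_exponent_le (by norm_num) (by norm_num)
      _ ≤ 4 := by norm_num
  have hSP : (∑ q ∈ Bks D (4 * m), H984N.P D.edges (Tch D (4 * m) q)) *
      (S * ((8 * M + 9) / 2 * b)) ≤
      (C2 * (n / ((4 * m : ℤ) : ℝ)) ^ (7/4 : ℝ)) * (S * ((8 * M + 9) / 2 * b)) :=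
    mul_le_mul_of_nonneg_right h4 (by positivity)
  refine hSP.trans ?_
  calc (C2 * (n / ((4 * m : ℤ) : ℝ)) ^ (7/4 : ℝ)) * (S * ((8 * M + 9) / 2 * b)) =
        ((8 * M + 9) / 2 * C2 * b) * (S * (n / ((4 * m : ℤ) : ℝ)) ^ (7/4 : ℝ)) := by ring
    _ ≤ ((8 * M + 9) / 2 * C2 * b) * (4 * n ^ (7/4 : ℝ)) :=
        mul_le_mul_of_nonneg_left h7 (by positivity)
    _ = ((8 * M + 9) / 2 * (C2 * 4) * n ^ (7/4 : ℝ)) * b := by ring
    _ = _ := by rw [hb]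

end Pool.Agent.K9h27.TP
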