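import Pool.Agent.Y995.HG.LowG
import Pool.Agent.K9h27.TP.MomE

/-!
Passage to the limit: the time spent in heavy cells near the typical points of the curve.
-/

set_option autoImplicit false
set_option linter.unusedVariables false

namespace Pool.Agent.K9h27.TP

open H974 Finset H342P H984P H984N Pool.Agent.Y995.FS Pool.Agent.Y995.HG MeasureTheory Filter
  Topology

/-- smoothed measure of the times in heavy cells near `z` -/
noncomputable def Jh (w σ a : ℝ) (p : X) (z : ℂ) : ℝ :=
  ∫ s : unitInterval, tent (dist (p.1 s) z / w) * ramp (p.2 * Jo σ 0 1 p.1 (p.1 s) / a)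

/-- smoothed measure of the times near which the curve spends the time `b` in heavy cells -/
noncomputable def Go2 (w σ a b : ℝ) (p : X) : ℝ :=
  p.2 * ∫ t : unitInterval, ramp (p.2 * Jh w σ a p (p.1 t) / b)

theorem ji_cont (w σ a : ℝ) (p : X) (z : ℂ) : Continuous (fun s : unitInterval =>
    tent (dist (p.1 s) z / w) * ramp (p.2 * Jo σ 0 1 p.1 (p.1 s) / a)) :=
  (tent_cont.comp ((p.1.continuous.dist continuous_const).div_const _)).mul (in_cont σ a p)

theorem ji_nn (w σ a : ℝ) (p : X) (z : ℂ) (s : unitInterval) :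
    0 ≤ tent (dist (p.1 s) z / w) * ramp (p.2 * Jo σ 0 1 p.1 (p.1 s) / a) :=
  mul_nonneg (tent_nonneg _) (ramp_nonneg _)

theorem ji_le (w σ a : ℝ) (p : X) (z : ℂ) (s : unitInterval) :
    tent (dist (p.1 s) z / w) * ramp (p.2 * Jo σ 0 1 p.1 (p.1 s) / a) ≤ 1 :=
  mul_le_one₀ (tent_le _) (ramp_nonneg _) (ramp_le _)

theorem ji_int (w σ a : ℝ) (p : X) (z : ℂ) : Integrable (fun s : unitInterval =>
    tent (dist (p.1 s) z / w) * ramp (p.2 * Jo σ 0 1 p.1 (p.1 s) / a)) := by
  refine Integrable.of_bound (C := 1) (ji_cont w σ a p z).aestronglyMeasurable ?_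
  filter_upwards with u
  rw [Real.norm_eq_abs, abs_of_nonneg (ji_nn w σ a p z u)]
  exact ji_le w σ a p z u

theorem Jh_cont {Y : Type*} [TopologicalSpace Y] [FirstCountableTopology Y] (w σ a : ℝ)
    {Fp : Y → X} (hF : Continuous Fp) {Z : Y → ℂ} (hZ : Continuous Z) :
    Continuous (fun y => Jh w σ a (Fp y) (Z y)) := by
  unfold Jh
  refine continuous_of_dominated (bound := fun _ => 1) (fun y => (ji_int w σ a _ _).1) ?_ ?_ ?_
  · intro y
    filter_upwards with u
    rw [Real.norm_eq_abs, abs_of_nonneg (ji_nn w σ a _ _ u)]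
    exact ji_le w σ a _ _ u
  · exact integrable_const _
  · filter_upwards with s
    have h0 : Continuous (fun y : Y => (Fp y).1) := continuous_fst.comp hF
    have h1 : Continuous (fun y : Y => (Fp y).1 s) :=
      (ContinuousEvalConst.continuous_eval_const s).comp h0
    have h2 : Continuous (fun y : Y => Jo σ 0 1 (Fp y).1 ((Fp y).1 s)) := Jo_cont σ 0 1 h0 h1
    exact (tent_cont.comp ((h1.dist hZ).div_const _)).mul
      (ramp_cont.comp (((continuous_snd.comp hF).mul h2).div_const _))

theorem gi_cont (w σ a b : ℝ) (p : X) :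
    Continuous (fun t : unitInterval => ramp (p.2 * Jh w σ a p (p.1 t) / b)) := by
  have h1 : Continuous (fun t : unitInterval => Jh w σ a p (p.1 t)) :=
    Jh_cont w σ a (Fp := fun _ => p) continuous_const (Z := fun t => p.1 t) p.1.continuous
  exact ramp_cont.comp ((continuous_const.mul h1).div_const _)

theorem gi_int (w σ a b : ℝ) (p : X) :
    Integrable (fun t : unitInterval => ramp (p.2 * Jh w σ a p (p.1 t) / b)) := by
  refine Integrable.of_bound (C := 1) (gi_cont w σ a b p).aestronglyMeasurable ?_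
  filter_upwards with u
  rw [Real.norm_eq_abs, abs_of_nonneg (ramp_nonneg _)]
  exact ramp_le _

theorem Go2_cont (w σ a b : ℝ) : Continuous (Go2 w σ a b) := by
  unfold Go2
  refine continuous_snd.mul ?_
  refine continuous_of_dominated (bound := fun _ => 1) (fun y => (gi_int w σ a b y).1) ?_ ?_ ?_
  · intro y
    filter_upwards with u
    rw [Real.norm_eq_abs, abs_of_nonneg (ramp_nonneg _)]
    exact ramp_le _
  · exact integrable_const _
  · filter_upwards with t
    have h1 : Continuous (fun y : X => y.1 t) := by fun_prop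
    have h2 : Continuous (fun y : X => Jh w σ a y (y.1 t)) :=
      Jh_cont w σ a (Fp := fun y : X => y) continuous_id (Z := fun y : X => y.1 t) h1
    exact ramp_cont.comp ((continuous_snd.mul h2).div_const _)

theorem Jh_ge {w σ a : ℝ} (hw : 0 < w) (hσ : 0 < σ) (ha : 0 < a) {p : X} (hp : 0 ≤ p.2) (z : ℂ) :
    (volume {s : unitInterval | dist (p.1 s) z ≤ w ∧ 2 * a ≤ p.2 *
      (volume {u : unitInterval | dist (p.1 u) (p.1 s) ≤ σ}).toReal}).toReal ≤ Jh w σ a p z := by
  obtain ⟨V, hV⟩ : ∃ V : Set unitInterval,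
    V = {s | dist (p.1 s) z ≤ w ∧ 2 * a ≤ p.2 * Jo σ 0 1 p.1 (p.1 s)} := ⟨_, rfl⟩
  have hVm : MeasurableSet V := by
    rw [hV]
    have h1 : Continuous (fun t : unitInterval => Jo σ 0 1 p.1 (p.1 t)) :=
      Jo_cont σ 0 1 (F := fun _ => p.1) continuous_const (Z := fun t => p.1 t) p.1.continuous
    exact ((isClosed_le (p.1.continuous.dist continuous_const) continuous_const).inter
      (isClosed_le continuous_const (continuous_const.mul h1))).measurableSet
  have hsub : {s : unitInterval | dist (p.1 s) z ≤ w ∧ 2 * a ≤ p.2 *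
      (volume {u : unitInterval | dist (p.1 u) (p.1 s) ≤ σ}).toReal} ⊆ V := by
    intro t ht
    rw [hV]
    exact ⟨ht.1, le_trans ht.2 (mul_le_mul_of_nonneg_left (Jo_ge_vol hσ p.1 (p.1 t)) hp)⟩
  have h1 := ENNReal.toReal_mono (measure_ne_top _ _) (measure_mono (μ := volume) hsub)
  refine h1.trans ?_
  have h2 : (volume V).toReal = ∫ t : unitInterval, V.indicator (fun _ => (1:ℝ)) t := by
    rw [integral_indicator hVm]
    simp [Measure.real]
  rw [h2]
  unfold Jh
  refine integral_mono ((integrable_const (1:ℝ)).indicator hVm) (ji_int w σ a p z) ?_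
  intro t
  simp only
  by_cases ht : t ∈ V
  · rw [Set.indicator_of_mem ht]
    rw [hV] at ht
    rw [tent_one (by rw [div_le_one hw]; exact ht.1), ramp_one (by rw [le_div_iff₀ ha]; exact ht.2),
      mul_one]
  · rw [Set.indicator_of_notMem ht]
    exact ji_nn w σ a p z t

/-- lower bound for the functional -/
theorem Go2_ge {w σ a b : ℝ} (hw : 0 < w) (hσ : 0 < σ) (ha : 0 < a) (hb : 0 < b) {p : X}
    (hp : 0 ≤ p.2) :
    p.2 * (volume {t : unitInterval | 2 * b ≤ p.2 *
      (volume {s : unitInterval | dist (p.1 s) (p.1 t) ≤ w ∧ 2 * a ≤ p.2 *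
      (volume {u : unitInterval | dist (p.1 u) (p.1 s) ≤ σ}).toReal}).toReal}).toReal ≤
      Go2 w σ a b p := by
  unfold Go2
  refine mul_le_mul_of_nonneg_left ?_ hp
  obtain ⟨V, hV⟩ : ∃ V : Set unitInterval,
    V = {t | 2 * b ≤ p.2 * Jh w σ a p (p.1 t)} := ⟨_, rfl⟩
  have hVm : MeasurableSet V := by
    rw [hV]
    have h1 : Continuous (fun t : unitInterval => Jh w σ a p (p.1 t)) :=
      Jh_cont w σ a (Fp := fun _ => p) continuous_const (Z := fun t => p.1 t) p.1.continuous
    exact (isClosed_le continuous_const (continuous_const.mul h1)).measurableSet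
  have hsub : {t : unitInterval | 2 * b ≤ p.2 *
      (volume {s : unitInterval | dist (p.1 s) (p.1 t) ≤ w ∧ 2 * a ≤ p.2 *
      (volume {u : unitInterval | dist (p.1 u) (p.1 s) ≤ σ}).toReal}).toReal} ⊆ V := by
    intro t ht
    rw [hV]
    exact le_trans ht (mul_le_mul_of_nonneg_left (Jh_ge hw hσ ha hp (p.1 t)) hp)
  have h1 := ENNReal.toReal_mono (measure_ne_top _ _) (measure_mono (μ := volume) hsub)
  refine h1.trans ?_
  have h2 : (volume V).toReal = ∫ t : unitInterval, V.indicator (fun _ => (1:ℝ)) t := by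
    rw [integral_indicator hVm]
    simp [Measure.real]
  rw [h2]
  refine integral_mono ((integrable_const (1:ℝ)).indicator hVm) (gi_int w σ a b p) ?_
  intro t
  simp only
  by_cases ht : t ∈ V
  · rw [Set.indicator_of_mem ht, ramp_one]
    rw [hV] at ht
    rw [le_div_iff₀ hb]
    exact ht
  · rw [Set.indicator_of_notMem ht]
    exact ramp_nonneg _

theorem Jh_le {w σ a : ℝ} (hw : 0 < w) (ha : 0 < a) (p : X) (z : ℂ) :
    Jh w σ a p z ≤ (volume {s : unitInterval | dist (p.1 s) z ≤ 2 * w ∧
      a ≤ p.2 * Jo σ 0 1 p.1 (p.1 s)}).toReal := by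
  obtain ⟨V, hV⟩ : ∃ V : Set unitInterval,
    V = {s | dist (p.1 s) z ≤ 2 * w ∧ a ≤ p.2 * Jo σ 0 1 p.1 (p.1 s)} := ⟨_, rfl⟩
  have hVm : MeasurableSet V := by
    rw [hV]
    have h1 : Continuous (fun t : unitInterval => Jo σ 0 1 p.1 (p.1 t)) :=
      Jo_cont σ 0 1 (F := fun _ => p.1) continuous_const (Z := fun t => p.1 t) p.1.continuous
    exact ((isClosed_le (p.1.continuous.dist continuous_const) continuous_const).inter
      (isClosed_le continuous_const (continuous_const.mul h1))).measurableSet
  rw [← hV]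
  have h2 : (volume V).toReal = ∫ t : unitInterval, V.indicator (fun _ => (1:ℝ)) t := by
    rw [integral_indicator hVm]
    simp [Measure.real]
  rw [h2]
  unfold Jh
  refine integral_mono (ji_int w σ a p z) ((integrable_const (1:ℝ)).indicator hVm) ?_
  intro t
  simp only
  by_cases ht : t ∈ V
  · rw [Set.indicator_of_mem ht]
    exact ji_le w σ a p z t
  · rw [Set.indicator_of_notMem ht]
    rw [hV] at ht
    simp only [Set.mem_ofPred_eq, not_and_or, not_le] at ht
    rcases ht with ht | ht
    · rw [tent_zero (by rw [le_div_iff₀ hw]; exact ht.le), zero_mul]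
    · rw [ramp_zero (by rw [div_le_one ha]; exact ht.le), mul_zero]

open Classical in
/-- upper bound for the functional of piecewise linear curves -/
theorem Go2_le {w σ a b η : ℝ} (hw : 0 < w) (hσ : 0 < σ) (ha : 0 < a) (hb : 0 < b) {n : ℕ}
    {P : ℕ → ℂ} (hn : 0 < n)
    (hstep : ∀ k < n, dist (P k) (P (k + 1)) ≤ η) {T : ℝ} (hT : 0 ≤ T) :
    Go2 w σ a b (pl n P, T) ≤ T * ((((Finset.range n).filter (fun k => b ≤ T *
      ((((Finset.range n).filter (fun i => dist (P i) (P k) ≤ 2 * w + 2 * η ∧ a ≤ T *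
      ((((Finset.range n).filter (fun l => dist (P l) (P i) ≤ 2 * σ + 2 * η)).card : ℝ) / n))).card :
        ℝ) / n))).card : ℝ) / n) := by
  unfold Go2
  refine mul_le_mul_of_nonneg_left ?_ hT
  simp only
  obtain ⟨V, hV⟩ : ∃ V : Set unitInterval,
    V = {t | b ≤ T * Jh w σ a (pl n P, T) (pl n P t)} := ⟨_, rfl⟩
  have hVm : MeasurableSet V := by
    rw [hV]
    have h1 : Continuous (fun t : unitInterval => Jh w σ a (pl n P, T) (pl n P t)) :=
      Jh_cont w σ a (Fp := fun _ => (pl n P, T)) continuous_const (Z := fun t => pl n P t)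
        (pl n P).continuous
    exact (isClosed_le continuous_const (continuous_const.mul h1)).measurableSet
  have h1 : ∫ t : unitInterval, ramp (T * Jh w σ a (pl n P, T) (pl n P t) / b) ≤
      ∫ t : unitInterval, V.indicator (fun _ => (1:ℝ)) t := by
    refine integral_mono (gi_int w σ a b (pl n P, T)) ((integrable_const (1:ℝ)).indicator hVm) ?_
    intro t
    simp only
    by_cases ht : t ∈ V
    · rw [Set.indicator_of_mem ht]; exact ramp_le _
    · rw [Set.indicator_of_notMem ht, ramp_zero]
      rw [hV] at ht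
      simp only [Set.mem_ofPred_eq, not_le] at ht
      rw [div_le_one hb]
      exact ht.le
  refine h1.trans ?_
  have h2 : ∫ t : unitInterval, V.indicator (fun _ => (1:ℝ)) t = (volume V).toReal := by
    rw [integral_indicator hVm]
    simp [Measure.real]
  rw [h2]
  have hmem : ∀ u : unitInterval, (u : ℝ) < 1 → ∀ i : ℕ, (i : ℝ) ≤ u * n → i < n := by
    intro u hu i hi
    have hn' : (0 : ℝ) < n := by exact_mod_cast hn
    have : (i : ℝ) < n := by nlinarith
    exact_mod_cast this
  refine vol_cells hn (fun i hi => ?_) (fun t ht ht1 k hk1 hk2 => ?_)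
  · rw [mem_filter, mem_range] at hi
    omega
  · rw [mem_filter, mem_range]
    have hkn := hmem t ht1 k hk1
    refine ⟨hkn, ?_⟩
    rw [hV] at ht
    have ht' : b ≤ T * Jh w σ a (pl n P, T) (pl n P t) := ht
    refine ht'.trans (mul_le_mul_of_nonneg_left ?_ hT)
    refine (Jh_le hw ha (pl n P, T) (pl n P t)).trans ?_
    refine vol_cells hn (fun i hi => ?_) (fun u hu hu1 i hi1 hi2 => ?_)
    · rw [mem_filter, mem_range] at hi
      omega
    · rw [mem_filter, mem_range]
      have hin := hmem u hu1 i hi1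
      have h3 := pl_close hstep hin hi1 hi2
      have h4 := pl_close hstep hkn hk1 hk2
      have h5 : dist (pl n P u) (pl n P t) ≤ 2 * w := hu.1
      have h6 := dist_triangle (P i) (pl n P u) (P k)
      have h7 := dist_triangle (pl n P u) (pl n P t) (P k)
      have h8 : dist (P i) (pl n P u) ≤ η := by rw [dist_comm]; exact h3
      refine ⟨hin, by linarith, ?_⟩
      have h9 : a ≤ T * Jo σ 0 1 (pl n P) (pl n P u) := hu.2
      refine h9.trans (mul_le_mul_of_nonneg_left ?_ hT)
      refine (Jo_le hσ 0 1 (pl n P) (pl n P u)).trans ?_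
      refine vol_cells hn (fun i hi => ?_) (fun v hv hv1 l hl1 hl2 => ?_)
      · rw [mem_filter, mem_range] at hi
        omega
      · rw [mem_filter, mem_range]
        have hln := hmem v hv1 l hl1
        refine ⟨hln, ?_⟩
        have k3 := pl_close hstep hln hl1 hl2
        have k5 : dist (pl n P v) (pl n P u) ≤ 2 * σ := hv.2
        have k6 := dist_triangle (P l) (pl n P v) (P i)
        have k7 := dist_triangle (pl n P v) (pl n P u) (P i)
        have k8 : dist (P l) (pl n P v) ≤ η := by rw [dist_comm]; exact k3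
        linarith

end Pool.Agent.K9h27.TP
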