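import Pool.Agent.Y995.HG.LowP
import Pool.Agent.K9h27.TP.LimG

/-!
The time spent in heavy cells near typical points: bound for small meshes.
-/

set_option autoImplicit false
set_option linter.unusedVariables false

namespace Pool.Agent.K9h27.TP

open H974 Finset H342P H984P H984N Pool.Agent.Y995.FS Pool.Agent.Y995.HG MeasureTheory Filter
  Topology

theorem sd_of_pos {δ w : ℝ} (hδ : 0 < δ) {u v : St} {m : ℕ} (hm : 2 * w / δ + 3/2 ≤ m)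
    (h : dist (pos δ u) (pos δ v) ≤ 2 * w + 2 * (δ / 2)) : ((sd u.1 v.1 : ℤ) : ℝ) ≤ m := by
  have h4 := le_dist_pos hδ.le u v
  have h6 : ((sd u.1 v.1 : ℤ) : ℝ) - 1/2 ≤ 2 * w / δ + 1 := by
    have h7 : δ * (((sd u.1 v.1 : ℤ) : ℝ) - 1/2) ≤ δ * (2 * w / δ + 1) := by
      have e2 : δ * (2 * w / δ + 1) = 2 * w + 2 * (δ / 2) := by field_simp
      rw [e2]
      exact h4.trans h
    exact le_of_mul_le_mul_left h7 hδ
  linarith

theorem go2_mesh {R : Rect} {δ w σ a b b' K K2 : ℝ} (hδ : 0 < δ) (hw : 0 < w) (hσ : 0 < σ)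
    (ha : 0 < a) (hb : 0 < b) (hb' : 0 < b')
    {m k : ℕ} (hm : 2 * w / δ + 3/2 ≤ m) (hk : 2 * σ / δ + 3/2 ≤ k)
    (hK : K * δ ^ (7/4 : ℝ) ≤ a) (hK2 : K2 * δ ^ (7/4 : ℝ) ≤ b) {F : Finset Edg}
    (hbad : b' < Go2 w σ a b (R.curve δ F, R.time δ F)) :
    b' ≤ δ ^ (7/4 : ℝ) * (HH (R.dm δ) F m k K K2 : ℝ) := by
  classical
  have hδ7 : 0 < δ ^ (7/4 : ℝ) := Real.rpow_pos_of_pos hδ _
  obtain ⟨n, hn⟩ : ∃ n, n = (R.dm δ).len F := ⟨_, rfl⟩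
  obtain ⟨p, hp⟩ : ∃ p : ℕ → ℂ, p = fun k => pos δ ((R.dm δ).walk F k) := ⟨_, rfl⟩
  have hc : R.curve δ F = pl n p := by unfold Rect.curve; rw [hn, hp]
  have h10 : R.time δ F = δ ^ (7/4 : ℝ) * n := by unfold Rect.time; rw [hn]
  rw [hc, h10] at hbad
  have hstep : ∀ k < n, dist (p k) (p (k + 1)) ≤ δ / 2 := fun k _ => by
    have := pos_nxt hδ.le ((R.dm δ).cfg F) ((R.dm δ).walk F k)
    rw [hp]
    rwa [← walk_succ] at this
  rcases Nat.eq_zero_or_pos n with h0 | hn0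
  · rw [h0] at hbad
    unfold Go2 at hbad
    simp only [CharP.cast_eq_zero, mul_zero, zero_mul] at hbad
    linarith
  have hn' : (0 : ℝ) < n := by exact_mod_cast hn0
  have hT : 0 ≤ δ ^ (7/4 : ℝ) * n := by positivity
  have h1 := hbad.le.trans (Go2_le hw hσ ha hb hn0 hstep hT)
  have e : ∀ x : ℝ, δ ^ (7/4 : ℝ) * n * (x / n) = δ ^ (7/4 : ℝ) * x := by
    intro x
    field_simp
  rw [e] at h1
  refine h1.trans (mul_le_mul_of_nonneg_left ?_ hδ7.le)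
  unfold HH
  have hin : ∀ i < n, a ≤ δ ^ (7/4 : ℝ) * n *
      ((((Finset.range n).filter (fun l => dist (p l) (p i) ≤ 2 * σ + 2 * (δ / 2))).card : ℝ) / n) →
      K ≤ (((Finset.range ((R.dm δ).len F + 1)).filter (fun s =>
          ((sd ((R.dm δ).walk F s).1 ((R.dm δ).walk F i).1 : ℤ) : ℝ) ≤ k)).card : ℝ) := by
    intro i hi h
    rw [e] at h
    have h2 : δ ^ (7/4 : ℝ) * K ≤ δ ^ (7/4 : ℝ) *
        (((Finset.range n).filter (fun l => dist (p l) (p i) ≤ 2 * σ + 2 * (δ / 2))).card : ℝ) := by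
      rw [mul_comm]
      exact hK.trans h
    refine (le_of_mul_le_mul_left h2 hδ7).trans ?_
    have h3 : (Finset.range n).filter (fun l => dist (p l) (p i) ≤ 2 * σ + 2 * (δ / 2)) ⊆
        (Finset.range ((R.dm δ).len F + 1)).filter (fun s =>
          ((sd ((R.dm δ).walk F s).1 ((R.dm δ).walk F i).1 : ℤ) : ℝ) ≤ k) := by
      intro l hl
      rw [mem_filter, mem_range] at hl ⊢
      refine ⟨by omega, ?_⟩
      have h5 := hl.2
      rw [hp] at h5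
      exact sd_of_pos hδ hk h5
    exact_mod_cast card_le_card h3
  have hsub : (Finset.range n).filter (fun k => b ≤ δ ^ (7/4 : ℝ) * n *
      ((((Finset.range n).filter (fun i => dist (p i) (p k) ≤ 2 * w + 2 * (δ / 2) ∧
        a ≤ δ ^ (7/4 : ℝ) * n *
      ((((Finset.range n).filter (fun l => dist (p l) (p i) ≤ 2 * σ + 2 * (δ / 2))).card : ℝ) / n))).card :
        ℝ) / n)) ⊆
      (Finset.range ((R.dm δ).len F + 1)).filter (fun t => K2 ≤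
        (((Finset.range ((R.dm δ).len F + 1)).filter (fun s =>
          ((sd ((R.dm δ).walk F s).1 ((R.dm δ).walk F t).1 : ℤ) : ℝ) ≤ m ∧ K ≤
          (((Finset.range ((R.dm δ).len F + 1)).filter (fun i =>
          ((sd ((R.dm δ).walk F i).1 ((R.dm δ).walk F s).1 : ℤ) : ℝ) ≤ k)).card : ℝ))).card : ℝ)) := by
    intro j hj
    rw [mem_filter, mem_range, e] at hj
    rw [mem_filter, mem_range, ← hn]
    refine ⟨by omega, ?_⟩
    have h2 : δ ^ (7/4 : ℝ) * K2 ≤ δ ^ (7/4 : ℝ) * (((Finset.range n).filter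
        (fun i => dist (p i) (p j) ≤ 2 * w + 2 * (δ / 2) ∧ a ≤ δ ^ (7/4 : ℝ) * n *
      ((((Finset.range n).filter (fun l => dist (p l) (p i) ≤ 2 * σ + 2 * (δ / 2))).card : ℝ) / n))).card : ℝ) := by
      rw [mul_comm]
      exact hK2.trans hj.2
    refine (le_of_mul_le_mul_left h2 hδ7).trans ?_
    have h3 : (Finset.range n).filter
        (fun i => dist (p i) (p j) ≤ 2 * w + 2 * (δ / 2) ∧ a ≤ δ ^ (7/4 : ℝ) * n *
      ((((Finset.range n).filter (fun l => dist (p l) (p i) ≤ 2 * σ + 2 * (δ / 2))).card : ℝ) / n)) ⊆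
        (Finset.range (n + 1)).filter (fun s =>
          ((sd ((R.dm δ).walk F s).1 ((R.dm δ).walk F j).1 : ℤ) : ℝ) ≤ m ∧ K ≤
          (((Finset.range (n + 1)).filter (fun i =>
          ((sd ((R.dm δ).walk F i).1 ((R.dm δ).walk F s).1 : ℤ) : ℝ) ≤ k)).card : ℝ)) := by
      intro i hi
      rw [mem_filter, mem_range] at hi ⊢
      refine ⟨by omega, ?_, ?_⟩
      · have h5 := hi.2.1
        rw [hp] at h5
        exact sd_of_pos hδ hm h5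
      · have := hin i hi.1 hi.2.2
        rwa [← hn] at this
    exact_mod_cast card_le_card h3
  exact_mod_cast card_le_card hsub

theorem occ2_lat {C : ℝ} (hC : 0 < C) (hU : TwoUp C (1/4)) (A η : ℝ) (hA : 0 < A) (hη : 0 < η) :
    ∃ M : ℝ, 0 < M ∧ ∀ R : Rect, ∃ C1 w0 : ℝ, 0 < C1 ∧ 0 < w0 ∧ ∀ (σ b' : ℝ) (P : ℕ), 0 < σ →
      1 ≤ P → P * σ ≤ w0 → 0 < b' → ∃ δ1 : ℝ, 0 < δ1 ∧ ∀ δ : ℝ, 0 < δ → δ ≤ δ1 →
        R.prob δ (fun F => (R.curve δ F, R.time δ F) ∈ {p : X | b' < Go2 (P * σ) σ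
          (M * σ ^ (7/4 : ℝ)) (η * (P : ℝ) ^ 2 * σ ^ (7/4 : ℝ)) p}) ≤
          C1 / b' * Real.exp (-(A * (P : ℝ) ^ 2)) := by
  obtain ⟨u, hu0, hh⟩ := HH_exp hC hU A (η / 3 ^ (7/4 : ℝ)) hA (by positivity)
  refine ⟨u * 3 ^ (7/4 : ℝ), by positivity, fun R => ?_⟩
  obtain ⟨κ, S, δs, hκ, hS, hδs, -, hsh⟩ := R.shape
  obtain ⟨C1, hC1, h1⟩ := hh κ hκ
  refine ⟨C1 * S ^ (7/4 : ℝ), S / 12, by positivity, by positivity, ?_⟩
  intro σ b' P hσ hP hw0 hb'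
  refine ⟨min δs (σ / 3), lt_min hδs (by positivity), fun δ hδ hδ' => ?_⟩
  have hP0 : (1 : ℝ) ≤ P := by exact_mod_cast hP
  have hP00 : (0 : ℝ) < P := by linarith
  have hd1 : δ ≤ δs := hδ'.trans (min_le_left _ _)
  have hd2 : δ ≤ σ / 3 := hδ'.trans (min_le_right _ _)
  obtain ⟨k, hk⟩ : ∃ k : ℕ, k = ⌈2 * σ / δ⌉₊ + 2 := ⟨_, rfl⟩
  have hk2' : 2 * σ / δ + 2 ≤ k := by
    rw [hk]; push_cast
    have := Nat.le_ceil (2 * σ / δ)
    linarith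
  have hk1 : 2 * σ / δ + 3/2 ≤ k := by linarith
  have hk2 : (k : ℝ) ≤ 3 * σ / δ := by
    have h2 : (⌈2 * σ / δ⌉₊ : ℝ) < 2 * σ / δ + 1 := Nat.ceil_lt_add_one (by positivity)
    have h3 : 3 ≤ σ / δ := by rw [le_div_iff₀ hδ]; linarith
    have e1 : 2 * σ / δ = 2 * (σ / δ) := by ring
    have e2 : 3 * σ / δ = 3 * (σ / δ) := by ring
    rw [hk]; push_cast
    rw [e1] at h2 ⊢
    rw [e2]
    linarith
  have hk3 : 1 ≤ k := by omega
  have hk0 : (0 : ℝ) < k := by exact_mod_cast hk3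
  have hm1 : 2 * (P * σ) / δ + 3/2 ≤ ((P * k : ℕ) : ℝ) := by
    push_cast
    have e1 : 2 * (P * σ) / δ = P * (2 * σ / δ) := by ring
    rw [e1]
    have h2 : (P : ℝ) * (2 * σ / δ + 2) ≤ P * k := mul_le_mul_of_nonneg_left hk2' hP00.le
    linarith
  have hmn : 4 * ((P * k : ℕ) : ℝ) ≤ S / δ := by
    push_cast
    have h2 : (P : ℝ) * k ≤ P * (3 * σ / δ) := mul_le_mul_of_nonneg_left hk2 hP00.le
    have h3 : 4 * (P * (3 * σ / δ)) ≤ S / δ := by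
      have e1 : 4 * (P * (3 * σ / δ)) = 12 * (P * σ) / δ := by ring
      rw [e1]
      exact div_le_div_of_nonneg_right (by linarith) hδ.le
    linarith
  have hδ7 : 0 < δ ^ (7/4 : ℝ) := Real.rpow_pos_of_pos hδ _
  have hkd : (k : ℝ) ^ (7/4 : ℝ) * δ ^ (7/4 : ℝ) ≤ 3 ^ (7/4 : ℝ) * σ ^ (7/4 : ℝ) := by
    rw [← Real.mul_rpow hk0.le hδ.le, ← Real.mul_rpow (by norm_num) hσ.le]
    refine Real.rpow_le_rpow (by positivity) ?_ (by norm_num)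
    rwa [le_div_iff₀ hδ] at hk2
  have h2 := h1 (R.dm δ) (S / δ) P k (hsh δ hδ hd1) hP hk3 hmn
  have h3 : R.prob δ (fun F => (R.curve δ F, R.time δ F) ∈ {p : X | b' < Go2 (P * σ) σ
          (u * 3 ^ (7/4 : ℝ) * σ ^ (7/4 : ℝ)) (η * (P : ℝ) ^ 2 * σ ^ (7/4 : ℝ)) p}) ≤
      E (R.dm δ).edges (fun F => δ ^ (7/4 : ℝ) *
        (HH (R.dm δ) F (P * k) k (u * (k : ℝ) ^ (7/4 : ℝ))
          (η / 3 ^ (7/4 : ℝ) * (P : ℝ) ^ 2 * (k : ℝ) ^ (7/4 : ℝ)) : ℝ)) / b' := by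
    refine pr_le_ex two_ok hb' (fun F => by positivity) fun F hF hA' => ?_
    refine go2_mesh hδ (by positivity) hσ (by positivity) (by positivity) hb' hm1 hk1 ?_ ?_ hA'
    · have := mul_le_mul_of_nonneg_left hkd hu0.le
      linarith
    · have h5 := mul_le_mul_of_nonneg_left hkd
        (by positivity : (0:ℝ) ≤ η / 3 ^ (7/4 : ℝ) * (P : ℝ) ^ 2)
      have e1 : η / 3 ^ (7/4 : ℝ) * (P : ℝ) ^ 2 * (3 ^ (7/4 : ℝ) * σ ^ (7/4 : ℝ)) =
          η * (P : ℝ) ^ 2 * σ ^ (7/4 : ℝ) := by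
        field_simp
      rw [e1] at h5
      linarith
  refine h3.trans ?_
  have h4 : E (R.dm δ).edges (fun F => δ ^ (7/4 : ℝ) *
        (HH (R.dm δ) F (P * k) k (u * (k : ℝ) ^ (7/4 : ℝ))
          (η / 3 ^ (7/4 : ℝ) * (P : ℝ) ^ 2 * (k : ℝ) ^ (7/4 : ℝ)) : ℝ)) ≤
      C1 * S ^ (7/4 : ℝ) * Real.exp (-(A * (P : ℝ) ^ 2)) := by
    show Ex _ _ _ ≤ _
    rw [Ex_mul_left]
    refine (mul_le_mul_of_nonneg_left h2 hδ7.le).trans (le_of_eq ?_)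
    rw [Real.div_rpow hS.le hδ.le]
    field_simp
  calc E (R.dm δ).edges (fun F => δ ^ (7/4 : ℝ) *
        (HH (R.dm δ) F (P * k) k (u * (k : ℝ) ^ (7/4 : ℝ))
          (η / 3 ^ (7/4 : ℝ) * (P : ℝ) ^ 2 * (k : ℝ) ^ (7/4 : ℝ)) : ℝ)) / b' ≤
      C1 * S ^ (7/4 : ℝ) * Real.exp (-(A * (P : ℝ) ^ 2)) / b' :=
        div_le_div_of_nonneg_right h4 hb'.le
    _ = _ := by ring

end Pool.Agent.K9h27.TP
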