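import Pool.Agent.Y995.HG.LowBC
import Pool.Agent.K9h27.TP.LimP

/-!
The time spent in heavy cells near almost every point of the limit curves.
-/

set_option autoImplicit false
set_option linter.unusedVariables false

namespace Pool.Agent.K9h27.TP

open H974 Finset H342P H984P H984N Pool.Agent.Y995.FS Pool.Agent.Y995.HG MeasureTheory Filter
  Topology
open scoped ENNReal

/-- ratio of the scales -/
noncomputable def Pj (j : ℕ) : ℕ := 2 ^ (Nat.log 4 ⌊Real.log j⌋₊)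

/-- small scale -/
noncomputable def sj (j : ℕ) : ℝ := (1/2) ^ j / Pj j

theorem Pj_pos (j : ℕ) : 1 ≤ Pj j := Nat.one_le_two_pow

theorem sj_pos (j : ℕ) : 0 < sj j := by
  have : (0 : ℝ) < Pj j := by exact_mod_cast Pj_pos j
  unfold sj
  positivity

theorem Pj_sj (j : ℕ) : (Pj j : ℝ) * sj j = (1/2) ^ j := by
  have : (0 : ℝ) < Pj j := by exact_mod_cast Pj_pos j
  unfold sj
  field_simp

theorem Pj_sq {j : ℕ} (hj : 3 ≤ j) : ((Pj j : ℕ) : ℝ) ^ 2 ≤ Real.log j ∧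
    Real.log j ≤ 4 * ((Pj j : ℕ) : ℝ) ^ 2 := by
  have hj3 : (3 : ℝ) ≤ j := by exact_mod_cast hj
  have hlog : 1 ≤ Real.log j := by
    rw [Real.le_log_iff_exp_le (by linarith)]
    have := Real.exp_one_lt_d9
    linarith
  have h1 : 1 ≤ ⌊Real.log j⌋₊ := Nat.one_le_floor_iff _ |>.2 hlog
  have h2 : 4 ^ (Nat.log 4 ⌊Real.log j⌋₊) ≤ ⌊Real.log j⌋₊ := Nat.pow_log_le_self 4 (by omega)
  have h3 : ⌊Real.log j⌋₊ < 4 ^ (Nat.log 4 ⌊Real.log j⌋₊ + 1) :=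
    Nat.lt_pow_succ_log_self (by norm_num) _
  have e : ((Pj j : ℕ) : ℝ) ^ 2 = ((4 ^ (Nat.log 4 ⌊Real.log j⌋₊) : ℕ) : ℝ) := by
    unfold Pj
    push_cast
    rw [← pow_mul, mul_comm, pow_mul]
    norm_num
  rw [e]
  constructor
  · have h4 : ((4 ^ (Nat.log 4 ⌊Real.log j⌋₊) : ℕ) : ℝ) ≤ (⌊Real.log j⌋₊ : ℝ) := by
      exact_mod_cast h2
    exact h4.trans (Nat.floor_le (by linarith))
  · have h4 : (⌊Real.log j⌋₊ : ℝ) + 1 ≤ ((4 ^ (Nat.log 4 ⌊Real.log j⌋₊ + 1) : ℕ) : ℝ) := by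
      exact_mod_cast h3
    have h5 := Nat.lt_floor_add_one (Real.log j)
    rw [pow_succ] at h4
    push_cast at h4 ⊢
    linarith

theorem heavy_bound {A C1 : ℝ} (hA : 20 ≤ A) (hC : 0 < C1) {j : ℕ} (hj : 3 ≤ j) :
    C1 / (1 / (j : ℝ) ^ 3) * Real.exp (-(A * ((Pj j : ℕ) : ℝ) ^ 2)) ≤ C1 * (1 / (j : ℝ) ^ 2) := by
  have hj0 : (0 : ℝ) < j := by exact_mod_cast (by omega : 0 < j)
  obtain ⟨-, h1⟩ := Pj_sq hj
  have h2 : 0 ≤ ((Pj j : ℕ) : ℝ) ^ 2 := by positivity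
  have h3 : 5 * Real.log j ≤ A * ((Pj j : ℕ) : ℝ) ^ 2 := by nlinarith
  have h4 : Real.exp (-(A * ((Pj j : ℕ) : ℝ) ^ 2)) ≤ Real.exp (-(5 * Real.log j)) :=
    Real.exp_le_exp.mpr (by linarith)
  have e3 : Real.exp (-(5 * Real.log j)) = 1 / (j : ℝ) ^ 5 := by
    rw [Real.exp_neg, ← Real.log_rpow hj0, Real.exp_log (by positivity), one_div]
    congr 1
    exact_mod_cast Real.rpow_natCast (j : ℝ) 5
  rw [e3] at h4
  calc C1 / (1 / (j : ℝ) ^ 3) * Real.exp (-(A * ((Pj j : ℕ) : ℝ) ^ 2)) ≤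
        C1 / (1 / (j : ℝ) ^ 3) * (1 / (j : ℝ) ^ 5) := mul_le_mul_of_nonneg_left h4 (by positivity)
    _ = C1 * (1 / (j : ℝ) ^ 2) := by field_simp

/-- the set of the times in heavy cells near `z` -/
def HS (p : X) (M : ℝ) (j : ℕ) (z : ℂ) : Set unitInterval :=
  {s : unitInterval | dist (p.1 s) z ≤ (1/2) ^ j ∧ M * sj j ^ (7/4 : ℝ) ≤
    p.2 * (volume {u : unitInterval | dist (p.1 u) (p.1 s) ≤ sj j}).toReal}

theorem heavy_ae {C : ℝ} (hC : 0 < C) (hU : TwoUp C (1/4)) (η : ℝ) (hη : 0 < η) :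
    ∃ M : ℝ, 0 < M ∧ ∀ (R : Rect) (δ : ℕ → ℝ), (∀ i, 0 < δ i) → Tendsto δ atTop (𝓝 0) →
      ∀ μ : ProbabilityMeasure X, Tendsto (fun i => R.law (δ i)) atTop (𝓝 μ) →
      ∀ᵐ p ∂(μ : Measure X), 0 < p.2 → ∀ᵐ t : unitInterval, ∀ᶠ j : ℕ in atTop,
        p.2 * (volume (HS p M j (p.1 t))).toReal <
          η * ((Pj j : ℕ) : ℝ) ^ 2 * sj j ^ (7/4 : ℝ) := by
  obtain ⟨M, hM, hh⟩ := occ2_lat hC hU 20 (η / 2) (by norm_num) (by positivity)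
  refine ⟨2 * M, by positivity, fun R δ hδ hlim μ hμ => ?_⟩
  obtain ⟨C1, w0, hC1, hw0, h1⟩ := hh R
  have h0 : Tendsto (fun i : ℕ => ((1:ℝ)/2) ^ i) atTop (𝓝 0) :=
    tendsto_pow_atTop_nhds_zero_of_lt_one (by norm_num) (by norm_num)
  have hev := (h0.eventually (ge_mem_nhds hw0)).and (eventually_ge_atTop 3)
  rw [eventually_atTop] at hev
  obtain ⟨j1, hj1⟩ := hev
  obtain ⟨G, hG⟩ : ∃ G : ℕ → X → ℝ, G = fun j p => Go2 (((Pj j : ℕ) : ℝ) * sj j) (sj j)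
    (M * sj j ^ (7/4 : ℝ)) (η / 2 * ((Pj j : ℕ) : ℝ) ^ 2 * sj j ^ (7/4 : ℝ)) p := ⟨_, rfl⟩
  have h2 := bc2 R (B := fun j : ℕ => {p : X | 1 / (j : ℝ) ^ 3 < G j p})
    (fun j => isOpen_lt continuous_const (by rw [hG]; exact Go2_cont _ _ _ _)) (C1 := C1)
    (j1 := j1) hC1
    (fun j hj => by
      obtain ⟨g1, g2⟩ := hj1 j hj
      have hj0 : (0 : ℝ) < j := by exact_mod_cast (by omega : 0 < j)
      obtain ⟨δ1, hδ1, h3⟩ := h1 (sj j) (1 / (j : ℝ) ^ 3) (Pj j) (sj_pos j) (Pj_pos j)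
        (by rw [Pj_sj]; exact g1) (by positivity)
      refine ⟨δ1, hδ1, fun δ hδ hδ' => ?_⟩
      have h4 := (h3 δ hδ hδ').trans (heavy_bound le_rfl hC1 g2)
      rw [hG]
      exact h4) hδ hlim hμ
  filter_upwards [h2] with p hp hp2
  obtain ⟨V, hV⟩ : ∃ V : ℕ → Set unitInterval, V = fun j => {t : unitInterval |
    η * ((Pj j : ℕ) : ℝ) ^ 2 * sj j ^ (7/4 : ℝ) ≤
      p.2 * (volume (HS p (2 * M) j (p.1 t))).toReal} := ⟨_, rfl⟩
  have h1 := hp.and (eventually_ge_atTop 3)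
  rw [eventually_atTop] at h1
  obtain ⟨j2, hj2⟩ := h1
  have h2 : ∀ j : ℕ, volume (V (j + j2)) ≤
      ENNReal.ofReal (1 / p.2 * (1 / ((j + j2 : ℕ) : ℝ) ^ 3)) := by
    intro j
    obtain ⟨g1, g2⟩ := hj2 (j + j2) (by omega)
    have g0 : G (j + j2) p ≤ 1 / ((j + j2 : ℕ) : ℝ) ^ 3 := not_lt.mp g1
    rw [hG] at g0
    have hs0 : (0 : ℝ) < sj (j + j2) ^ (7/4 : ℝ) := Real.rpow_pos_of_pos (sj_pos _) _
    have hP0 : (0 : ℝ) < ((Pj (j + j2) : ℕ) : ℝ) := by exact_mod_cast Pj_pos _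
    have g3 := (Go2_ge (w := ((Pj (j + j2) : ℕ) : ℝ) * sj (j + j2)) (σ := sj (j + j2))
      (a := M * sj (j + j2) ^ (7/4 : ℝ))
      (b := η / 2 * ((Pj (j + j2) : ℕ) : ℝ) ^ 2 * sj (j + j2) ^ (7/4 : ℝ)) (p := p)
      (by have := sj_pos (j + j2); positivity) (sj_pos _) (by positivity) (by positivity)
      hp2.le).trans g0
    have e1 : {t : unitInterval | 2 * (η / 2 * ((Pj (j + j2) : ℕ) : ℝ) ^ 2 *
        sj (j + j2) ^ (7/4 : ℝ)) ≤ p.2 *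
      (volume {s : unitInterval | dist (p.1 s) (p.1 t) ≤ ((Pj (j + j2) : ℕ) : ℝ) * sj (j + j2) ∧
        2 * (M * sj (j + j2) ^ (7/4 : ℝ)) ≤ p.2 *
      (volume {u : unitInterval | dist (p.1 u) (p.1 s) ≤ sj (j + j2)}).toReal}).toReal} =
      V (j + j2) := by
      rw [hV]
      unfold HS
      simp only [Pj_sj]
      ext t
      simp only [Set.mem_ofPred_eq]
      have e2 : 2 * (η / 2 * ((Pj (j + j2) : ℕ) : ℝ) ^ 2 * sj (j + j2) ^ (7/4 : ℝ)) =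
          η * ((Pj (j + j2) : ℕ) : ℝ) ^ 2 * sj (j + j2) ^ (7/4 : ℝ) := by ring
      rw [e2, ← mul_assoc]
    rw [e1] at g3
    have g4 : (volume (V (j + j2))).toReal ≤ 1 / p.2 * (1 / ((j + j2 : ℕ) : ℝ) ^ 3) := by
      rw [one_div_mul_eq_div, le_div_iff₀ hp2, mul_comm]
      exact g3
    rw [← ENNReal.ofReal_toReal (measure_ne_top volume (V (j + j2)))]
    exact ENNReal.ofReal_le_ofReal g4
  have h3 : ∑' j : ℕ, volume (V (j + j2)) ≠ ⊤ := by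
    have h4 : Summable (fun j : ℕ => 1 / p.2 * (1 / ((j + j2 : ℕ) : ℝ) ^ 3)) := by
      have h5 : Summable (fun j : ℕ => 1 / (j : ℝ) ^ 3) :=
        Real.summable_one_div_nat_pow.mpr (by norm_num)
      exact ((summable_nat_add_iff j2).2 h5).mul_left (1 / p.2)
    refine ne_top_of_le_ne_top ?_ (ENNReal.tsum_le_tsum h2)
    rw [← ENNReal.ofReal_tsum_of_nonneg (fun j => by positivity) h4]
    exact ENNReal.ofReal_ne_top
  filter_upwards [ae_eventually_notMem h3] with t ht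
  rw [eventually_atTop] at ht ⊢
  obtain ⟨a, ha⟩ := ht
  refine ⟨a + j2, fun j hj => ?_⟩
  have h4 := ha (j - j2) (by omega)
  rw [Nat.sub_add_cancel (by omega), hV] at h4
  exact not_le.mp h4

end Pool.Agent.K9h27.TP
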