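import Pool.Agent.K9h27.TP.Cells

/-!
Near-uniform distribution at small scales implies that Lebesgue measure is a tangent measure.
-/

set_option autoImplicit false

namespace Pool.Agent.K9h27.TP

open Finset MeasureTheory Filter Topology

theorem Cl_vol (o : ℂ) {a : ℝ} (ha : 0 < a) (X Y : ℕ) :
    (volume : Measure ℂ).real (Cl o a X Y) = a ^ 2 := by
  have e : Cl o a X Y = Complex.measurableEquivRealProd ⁻¹'
      (Set.Ico (o.re + X * a) (o.re + (X + 1) * a) ×ˢ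
        Set.Ico (o.im + Y * a) (o.im + (Y + 1) * a)) := by
    ext z
    simp [Cl, Complex.measurableEquivRealProd]
  unfold Measure.real
  rw [e, Complex.volume_preserving_equiv_real_prod.measure_preimage
    (measurableSet_Ico.prod measurableSet_Ico).nullMeasurableSet, Measure.volume_eq_prod,
    Measure.prod_prod, Real.volume_Ico, Real.volume_Ico, ENNReal.toReal_mul,
    ENNReal.toReal_ofReal (by linarith), ENNReal.toReal_ofReal (by linarith)]
  ring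

theorem Cl_diam {o : ℂ} {a : ℝ} {X Y : ℕ} {x y : ℂ} (hx : x ∈ Cl o a X Y) (hy : y ∈ Cl o a X Y) :
    dist x y ≤ 2 * a := by
  obtain ⟨⟨h1, h2⟩, h3, h4⟩ := hx
  obtain ⟨⟨g1, g2⟩, g3, g4⟩ := hy
  rw [dist_eq_norm]
  have h5 := Complex.norm_le_abs_re_add_abs_im (x - y)
  rw [Complex.sub_re, Complex.sub_im] at h5
  have h6 : |x.re - y.re| ≤ a := by rw [abs_le]; constructor <;> linarith
  have h7 : |x.im - y.im| ≤ a := by rw [abs_le]; constructor <;> linarith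
  linarith

/-- one cell -/
theorem one_cell {ν : Measure ℂ} [IsFiniteMeasure ν] {o : ℂ} {a c ε ω Bd : ℝ} (ha : 0 < a)
    (hc : 0 < c) (hε : 0 < ε) (hε1 : ε ≤ 1) (hω : 0 ≤ ω) {X Y : ℕ} {ψ : ℂ → ℝ} (hψ : Continuous ψ)
    (hψc : HasCompactSupport ψ) (hB : ∀ x, |ψ x| ≤ Bd)
    (hosc : ∀ x ∈ Cl o a X Y, ∀ y ∈ Cl o a X Y, |ψ x - ψ y| ≤ ω)
    (h : |c * ν.real (Cl o a X Y) - a ^ 2| ≤ ε * a ^ 2) :
    |c * ∫ x in Cl o a X Y, ψ x ∂ν - ∫ x in Cl o a X Y, ψ x| ≤ (3 * ω + Bd * ε) * a ^ 2 := by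
  obtain ⟨x0, hx0⟩ : (Cl o a X Y).Nonempty := by
    refine ⟨⟨o.re + X * a, o.im + Y * a⟩, ?_⟩
    unfold Cl
    simp only [Set.mem_ofPred_eq]
    refine ⟨⟨le_rfl, by linarith⟩, le_rfl, by linarith⟩
  have key : ∀ m : Measure ℂ, m (Cl o a X Y) < ⊤ → IsFiniteMeasureOnCompacts m →
      |∫ x in Cl o a X Y, ψ x ∂m - ψ x0 * m.real (Cl o a X Y)| ≤ ω * m.real (Cl o a X Y) := by
    intro m hm _
    have h1 : ∫ x in Cl o a X Y, ψ x ∂m - ψ x0 * m.real (Cl o a X Y) =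
        ∫ x in Cl o a X Y, (ψ x - ψ x0) ∂m := by
      rw [integral_sub]
      · rw [setIntegral_const, smul_eq_mul, mul_comm]
      · exact (hψ.integrable_of_hasCompactSupport hψc).integrableOn
      · exact integrableOn_const hm.ne
    rw [h1, ← Real.norm_eq_abs]
    exact norm_setIntegral_le_of_norm_le_const hm fun x hx => hosc x hx x0 hx0
  have h1 := key ν (measure_lt_top _ _) inferInstance
  have hv : (volume : Measure ℂ) (Cl o a X Y) < ⊤ := by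
    have h2 := Cl_vol o ha X Y
    by_contra hcon
    rw [not_lt, top_le_iff] at hcon
    unfold Measure.real at h2
    rw [hcon, ENNReal.toReal_top] at h2
    have : 0 < a ^ 2 := by positivity
    linarith
  have h2 := key volume hv inferInstance
  rw [Cl_vol o ha] at h2
  have ha2 : 0 < a ^ 2 := by positivity
  have h3 := hB x0
  have hB0 : 0 ≤ Bd := (abs_nonneg _).trans h3
  have h4 : c * ν.real (Cl o a X Y) ≤ 2 * a ^ 2 := by
    have := (abs_le.1 h).2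
    nlinarith
  obtain ⟨I1, hI1⟩ : ∃ I1 : ℝ, I1 = ∫ x in Cl o a X Y, ψ x ∂ν := ⟨_, rfl⟩
  obtain ⟨I2, hI2⟩ : ∃ I2 : ℝ, I2 = ∫ x in Cl o a X Y, ψ x := ⟨_, rfl⟩
  rw [← hI1] at h1 ⊢
  rw [← hI2] at h2 ⊢
  obtain ⟨m, hm⟩ : ∃ m : ℝ, m = ν.real (Cl o a X Y) := ⟨_, rfl⟩
  rw [← hm] at h1 h4 h
  have h5 : |c * I1 - c * (ψ x0 * m)| ≤ ω * (2 * a ^ 2) := by
    rw [← mul_sub, abs_mul, abs_of_pos hc]
    calc c * |I1 - ψ x0 * m| ≤ c * (ω * m) := mul_le_mul_of_nonneg_left h1 hc.le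
      _ = ω * (c * m) := by ring
      _ ≤ _ := mul_le_mul_of_nonneg_left h4 hω
  have h6 : |c * (ψ x0 * m) - ψ x0 * a ^ 2| ≤ Bd * (ε * a ^ 2) := by
    have e1 : c * (ψ x0 * m) - ψ x0 * a ^ 2 = ψ x0 * (c * m - a ^ 2) := by ring
    rw [e1, abs_mul]
    exact mul_le_mul h3 h (abs_nonneg _) hB0
  rw [abs_le] at h2 h5 h6 ⊢
  constructor
  · linarith [h2.1, h2.2, h5.1, h5.2, h6.1, h6.2]
  · linarith [h2.1, h2.2, h5.1, h5.2, h6.1, h6.2]

/-- comparison of the integrals -/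
theorem compare {ν : Measure ℂ} [IsFiniteMeasure ν] {o z : ℂ} {a c ε ω Bd r ρ D : ℝ} {n : ℕ}
    (ha : 0 < a) (hc : 0 < c) (hε : 0 < ε) (hε1 : ε ≤ 1) (hω : 0 ≤ ω) (hρ : 0 < ρ) (hD : 0 ≤ D)
    (hDr : D * ρ ≤ r) (haρ : 2 * a ≤ ρ)
    (hcov : Metric.closedBall z r ⊆ (⋃ p ∈ range n ×ˢ range n, Cl o a p.1 p.2))
    (h : ∀ p ∈ range n ×ˢ range n, |c * ν.real (Cl o a p.1 p.2) - a ^ 2| ≤ ε * a ^ 2)
    {ψ : ℂ → ℝ} (hψ : Continuous ψ) (hψc : HasCompactSupport ψ) (hB : ∀ x, |ψ x| ≤ Bd)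
    (hsupp : ∀ x, x ∉ Metric.closedBall z (D * ρ) → ψ x = 0)
    (hosc : ∀ x y, dist x y ≤ 2 * a → |ψ x - ψ y| ≤ ω) :
    |c * ∫ x, ψ x ∂ν - ∫ x, ψ x| ≤
      (3 * ω + Bd * ε) * (Real.pi * ((D + 1) * ρ) ^ 2) := by
  classical
  have hB0 : 0 ≤ Bd := (abs_nonneg _).trans (hB 0)
  obtain ⟨G, hG⟩ : ∃ G : Finset (ℕ × ℕ), G = range n ×ˢ range n := ⟨_, rfl⟩
  rw [← hG] at hcov h
  obtain ⟨I, hI⟩ : ∃ I : Finset (ℕ × ℕ), I = G.filter (fun p =>
    (Cl o a p.1 p.2 ∩ Metric.closedBall z (D * ρ)).Nonempty) := ⟨_, rfl⟩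
  have hint : ∀ m : Measure ℂ, IsFiniteMeasureOnCompacts m →
      ∫ x, ψ x ∂m = ∑ p ∈ I, ∫ x in Cl o a p.1 p.2, ψ x ∂m := by
    intro m _
    have hi := hψ.integrable_of_hasCompactSupport (μ := m) hψc
    rw [← integral_biUnion_finset I (fun p _ => Cl_meas _ _ _ _)
      (fun p _ q _ hpq => Cl_disj o ha hpq) (fun p _ => hi.integrableOn)]
    symm
    refine setIntegral_eq_integral_of_forall_compl_eq_zero fun x hx => ?_
    by_contra hne
    refine hx ?_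
    have hxb : x ∈ Metric.closedBall z (D * ρ) := by
      by_contra hxb
      exact hne (hsupp x hxb)
    have hx1 := hcov (Metric.closedBall_subset_closedBall hDr hxb)
    rw [Set.mem_iUnion₂] at hx1 ⊢
    obtain ⟨p, hp, hxp⟩ := hx1
    refine ⟨p, ?_, hxp⟩
    rw [hI, mem_filter]
    exact ⟨hp, ⟨x, hxp, hxb⟩⟩
  rw [hint ν inferInstance, hint volume inferInstance, mul_sum, ← sum_sub_distrib]
  refine (abs_sum_le_sum_abs _ _).trans ?_
  have h1 : ∀ p ∈ I, |c * ∫ x in Cl o a p.1 p.2, ψ x ∂ν - ∫ x in Cl o a p.1 p.2, ψ x| ≤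
      (3 * ω + Bd * ε) * a ^ 2 := by
    intro p hp
    rw [hI, mem_filter] at hp
    exact one_cell ha hc hε hε1 hω hψ hψc hB (fun x hx y hy => hosc x y (Cl_diam hx hy))
      (h p hp.1)
  refine (sum_le_sum h1).trans ?_
  rw [sum_const, nsmul_eq_mul]
  have h2 : (I.card : ℝ) * a ^ 2 ≤ Real.pi * ((D + 1) * ρ) ^ 2 := by
    have h3 : (volume : Measure ℂ).real (⋃ p ∈ I, Cl o a p.1 p.2) = (I.card : ℝ) * a ^ 2 := by
      rw [measureReal_biUnion_finset (fun p _ q _ hpq => Cl_disj o ha hpq)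
        (fun p _ => Cl_meas _ _ _ _) (fun p _ => ?_)]
      · rw [sum_congr rfl fun p _ => Cl_vol o ha p.1 p.2, sum_const, nsmul_eq_mul]
      · intro hcon
        have h4 := Cl_vol o ha p.1 p.2
        unfold Measure.real at h4
        rw [hcon, ENNReal.toReal_top] at h4
        have : 0 < a ^ 2 := by positivity
        linarith
    have h5 : (⋃ p ∈ I, Cl o a p.1 p.2) ⊆ Metric.closedBall z ((D + 1) * ρ) := by
      intro x hx
      rw [Set.mem_iUnion₂] at hx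
      obtain ⟨p, hp, hxp⟩ := hx
      rw [hI, mem_filter] at hp
      obtain ⟨-, y, hy1, hy2⟩ := hp
      have h6 := Cl_diam hxp hy1
      rw [Metric.mem_closedBall] at hy2 ⊢
      have := dist_triangle x y z
      linarith
    rw [← h3]
    have h6 : (volume : Measure ℂ).real (Metric.closedBall z ((D + 1) * ρ)) =
        Real.pi * ((D + 1) * ρ) ^ 2 := by
      unfold Measure.real
      rw [Complex.volume_closedBall, ENNReal.toReal_mul, ENNReal.toReal_pow,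
        ENNReal.toReal_ofReal (by positivity)]
      simp only [ENNReal.coe_toReal, NNReal.coe_real_pi]
      ring
    rw [← h6]
    exact measureReal_mono h5 (by
      rw [Complex.volume_closedBall]
      exact ENNReal.mul_ne_top (ENNReal.pow_ne_top ENNReal.ofReal_ne_top) ENNReal.coe_ne_top)
  calc (I.card : ℝ) * ((3 * ω + Bd * ε) * a ^ 2) = (3 * ω + Bd * ε) * ((I.card : ℝ) * a ^ 2) := by
        ring
    _ ≤ _ := mul_le_mul_of_nonneg_left h2 (by positivity)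

end Pool.Agent.K9h27.TP
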