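import Pool.Agent.K9h27.TP.Cells

/-!
Near-uniform distribution at most points.
-/

set_option autoImplicit false

namespace Pool.Agent.K9h27.TP

open Finset MeasureTheory

/-- the boundary layer of a block -/
def Lay (R A : ℕ) : Finset (ℕ × ℕ) :=
  (range A ×ˢ range A).filter (fun i => ¬ ((R ≤ i.1 ∧ i.1 + R < A) ∧ R ≤ i.2 ∧ i.2 + R < A))

theorem Lay_card (R A : ℕ) : (Lay R A).card ≤ 4 * R * A := by
  classical
  have h1 : Lay R A ⊆ ((range R ∪ Ico (A - R) A) ×ˢ range A) ∪
      (range A ×ˢ (range R ∪ Ico (A - R) A)) := by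
    intro i hi
    unfold Lay at hi
    simp only [mem_filter, mem_product, mem_range, mem_union, mem_Ico] at hi ⊢
    omega
  refine (card_le_card h1).trans ((card_union_le _ _).trans ?_)
  rw [card_product, card_product, card_range]
  have h2 : (range R ∪ Ico (A - R) A).card ≤ 2 * R := by
    refine (card_union_le _ _).trans ?_
    rw [card_range, Nat.card_Ico]
    omega
  nlinarith

theorem Sm_add (g h : ℕ → ℕ → ℝ) (B X Y : ℕ) :
    Sm (fun x y => g x y + h x y) B X Y = Sm g B X Y + Sm h B X Y := by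
  unfold Sm
  rw [← sum_add_distrib]
  refine sum_congr rfl fun x _ => ?_
  rw [← sum_add_distrib]

theorem Sm_smul (c : ℝ) (g : ℕ → ℕ → ℝ) (B X Y : ℕ) :
    Sm (fun x y => c * g x y) B X Y = c * Sm g B X Y := by
  unfold Sm
  rw [mul_sum]
  refine sum_congr rfl fun x _ => ?_
  rw [mul_sum]

theorem Sm_nn {g : ℕ → ℕ → ℝ} (h : ∀ x y, 0 ≤ g x y) (B X Y : ℕ) : 0 ≤ Sm g B X Y :=
  sum_nonneg fun _ _ => sum_nonneg fun _ _ => h _ _

theorem Sm_total (g : ℕ → ℕ → ℝ) (n B : ℕ) :
    ∑ p ∈ range n ×ˢ range n, Sm g B p.1 p.2 = Sm g (n * B) 0 0 := by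
  rw [Sm_split, sum_product]
  refine sum_congr rfl fun i _ => sum_congr rfl fun j _ => ?_
  rw [zero_mul, zero_add, zero_add]

theorem Sm_sub_le {g : ℕ → ℕ → ℝ} (h : ∀ x y, 0 ≤ g x y) {A B X Y : ℕ} (I : Finset (ℕ × ℕ))
    (hI : I ⊆ range A ×ˢ range A) :
    ∑ i ∈ I, Sm g B (X * A + i.1) (Y * A + i.2) ≤ Sm g (A * B) X Y := by
  rw [Sm_split, ← sum_product (range A) (range A) (fun i => Sm g B (X * A + i.1) (Y * A + i.2))]
  exact sum_le_sum_of_subset_of_nonneg hI fun _ _ _ => Sm_nn h _ _ _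

theorem uniform {ν : Measure ℂ} [IsFiniteMeasure ν] {o : ℂ} {s q M θ κ1 κ η Cu ε : ℝ}
    {n A B R : ℕ} (hs : 0 < s) (hq : 0 < q) (hM : 0 ≤ M) (hθ : 0 < θ) (hκ1 : 0 < κ1)
    (hκ : 0 < κ) (hn : 1 ≤ n) (hA : 1 ≤ A) (hB : 1 ≤ B)
    (hε1 : θ / κ1 + κ * (A : ℝ) ^ 2 ≤ ε) (hε2 : 1 ≤ ε * R)
    {b e : ℕ → ℕ → ℝ} (hb : ∀ x y, 0 ≤ b x y ∧ b x y ≤ M) (he : ∀ x y, 0 ≤ e x y)
    (hbe : ∀ x y, q * ν.real (Cl o s x y) = b x y + e x y)
    (h1 : Sm e (n * (A * B)) 0 0 ≤ η * ((n : ℝ) * (A * B)) ^ 2)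
    (h2 : Sm b (n * (A * B)) 0 0 ≤ Cu * ((n : ℝ) * (A * B)) ^ 2)
    (h3 : ((NU b θ A B n).card : ℝ) ≤ θ * (n : ℝ) ^ 2) :
    ∃ Bad : Set ℂ, MeasurableSet Bad ∧
      q * ν.real Bad ≤ (M * θ + κ1 + η / κ + 4 * (R / A) * (Cu + θ) + 2 * η) *
        ((n : ℝ) * (A * B)) ^ 2 ∧
      ∀ z ∈ Cl o ((n : ℝ) * (A * B) * s) 0 0, z ∉ Bad → Good ε ν z (R * (B * s)) := by
  classical
  have hA0 : (0 : ℝ) < A := by exact_mod_cast hA
  have hB0 : (0 : ℝ) < B := by exact_mod_cast hB
  have hn0 : (0 : ℝ) < n := by exact_mod_cast hn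
  have hBs : 0 < (B : ℝ) * s := by positivity
  -- masses of blocks
  have hmB : ∀ X Y, q * ν.real (Cl o ((B : ℝ) * s) X Y) = Sm b B X Y + Sm e B X Y := by
    intro X Y
    rw [real_split ν o hs, ← Sm_smul, ← Sm_add]
    unfold Sm
    exact sum_congr rfl fun x _ => sum_congr rfl fun y _ => hbe x y
  have hmAB : ∀ X Y, q * ν.real (Cl o ((A : ℝ) * (B * s)) X Y) =
      Sm b (A * B) X Y + Sm e (A * B) X Y := by
    intro X Y
    rw [real_split ν o hBs, ← Sm_smul]
    have : Sm (fun x y => q * ν.real (Cl o ((B : ℝ) * s) x y)) A X Y =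
        Sm (fun x y => Sm b B x y + Sm e B x y) A X Y := by
      unfold Sm
      exact sum_congr rfl fun x _ => sum_congr rfl fun y _ => hmB x y
    rw [this, Sm_add]
    congr 1
    · rw [Sm_split]
      unfold Sm
      rw [sum_Ico_eq_sum_range]
      have e1 : (X + 1) * A - X * A = A := by rw [Nat.succ_mul]; omega
      have e2 : (Y + 1) * A - Y * A = A := by rw [Nat.succ_mul]; omega
      rw [e1]
      refine sum_congr rfl fun i _ => ?_
      rw [sum_Ico_eq_sum_range, e2]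
    · rw [Sm_split]
      unfold Sm
      rw [sum_Ico_eq_sum_range]
      have e1 : (X + 1) * A - X * A = A := by rw [Nat.succ_mul]; omega
      have e2 : (Y + 1) * A - Y * A = A := by rw [Nat.succ_mul]; omega
      rw [e1]
      refine sum_congr rfl fun i _ => ?_
      rw [sum_Ico_eq_sum_range, e2]
  have hSb : ∀ X Y, Sm b (A * B) X Y = av b (A * B) X Y * ((A : ℝ) * B) ^ 2 := by
    intro X Y
    unfold av
    push_cast
    field_simp
  have hSbB : ∀ X Y, Sm b B X Y = av b B X Y * (B : ℝ) ^ 2 := by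
    intro X Y
    unfold av
    field_simp
  obtain ⟨J, hJ⟩ : ∃ J : Finset (ℕ × ℕ), J = (range n ×ˢ range n).filter (fun X =>
    X ∈ NU b θ A B n ∨ av b (A * B) X.1 X.2 < κ1 ∨
      κ * Sm b (A * B) X.1 X.2 < Sm e (A * B) X.1 X.2) := ⟨_, rfl⟩
  obtain ⟨J', hJ'⟩ : ∃ J' : Finset (ℕ × ℕ), J' = (range n ×ˢ range n) \ J := ⟨_, rfl⟩
  refine ⟨(⋃ X ∈ J, Cl o ((A : ℝ) * (B * s)) X.1 X.2) ∪
    ⋃ X ∈ J', ⋃ i ∈ Lay R A, Cl o ((B : ℝ) * s) (X.1 * A + i.1) (X.2 * A + i.2), ?_, ?_, ?_⟩
  · refine MeasurableSet.union ?_ ?_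
    · exact Finset.measurableSet_biUnion _ fun _ _ => Cl_meas _ _ _ _
    · exact Finset.measurableSet_biUnion _ fun _ _ =>
        Finset.measurableSet_biUnion _ fun _ _ => Cl_meas _ _ _ _
  · have k1 : q * ν.real (⋃ X ∈ J, Cl o ((A : ℝ) * (B * s)) X.1 X.2) ≤
        (M * θ + κ1 + η / κ + η) * ((n : ℝ) * (A * B)) ^ 2 := by
      have l1 : q * ν.real (⋃ X ∈ J, Cl o ((A : ℝ) * (B * s)) X.1 X.2) ≤
          ∑ X ∈ J, (Sm b (A * B) X.1 X.2 + Sm e (A * B) X.1 X.2) := by
        rw [← sum_congr rfl fun X _ => hmAB X.1 X.2, ← mul_sum]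
        exact mul_le_mul_of_nonneg_left (measureReal_biUnion_finset_le _ _) hq.le
      have l2 : ∀ X ∈ J, Sm b (A * B) X.1 X.2 + Sm e (A * B) X.1 X.2 ≤
          (if X ∈ NU b θ A B n then M * ((A : ℝ) * B) ^ 2 else 0) + κ1 * ((A : ℝ) * B) ^ 2 +
            (1 / κ + 1) * Sm e (A * B) X.1 X.2 := by
        intro X hX
        have he0 := Sm_nn he (A * B) X.1 X.2
        have hke : (1 / κ + 1) * Sm e (A * B) X.1 X.2 =
          Sm e (A * B) X.1 X.2 / κ + Sm e (A * B) X.1 X.2 := by ring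
        rw [hke]
        have he1 : 0 ≤ Sm e (A * B) X.1 X.2 / κ := by positivity
        have hk0 : 0 ≤ κ1 * ((A : ℝ) * B) ^ 2 := by positivity
        rw [hJ, mem_filter] at hX
        obtain ⟨-, hX⟩ := hX
        rcases hX with hX | hX | hX
        · rw [if_pos hX]
          have := (sm_bd hb (A * B) X.1 X.2).2
          push_cast at this
          linarith
        · have l3 : 0 ≤ (if X ∈ NU b θ A B n then M * ((A : ℝ) * B) ^ 2 else 0) := by
            split_ifs
            · positivity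
            · exact le_refl _
          have l4 := mul_le_mul_of_nonneg_right hX.le
            (by positivity : (0:ℝ) ≤ ((A : ℝ) * B) ^ 2)
          rw [← hSb] at l4
          linarith
        · have l3 : 0 ≤ (if X ∈ NU b θ A B n then M * ((A : ℝ) * B) ^ 2 else 0) := by
            split_ifs
            · positivity
            · exact le_refl _
          have l4 : Sm b (A * B) X.1 X.2 ≤ Sm e (A * B) X.1 X.2 / κ := by
            rw [le_div_iff₀ hκ, mul_comm]
            exact hX.le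
          linarith
      have l3 : ∑ X ∈ J, (Sm b (A * B) X.1 X.2 + Sm e (A * B) X.1 X.2) ≤
          ∑ X ∈ range n ×ˢ range n,
            ((if X ∈ NU b θ A B n then M * ((A : ℝ) * B) ^ 2 else 0) + κ1 * ((A : ℝ) * B) ^ 2 +
            (1 / κ + 1) * Sm e (A * B) X.1 X.2) := by
        refine (sum_le_sum l2).trans ?_
        refine sum_le_sum_of_subset_of_nonneg ?_ fun X _ _ => ?_
        · rw [hJ]; exact filter_subset _ _
        · have he0 := Sm_nn he (A * B) X.1 X.2
          have : 0 ≤ (if X ∈ NU b θ A B n then M * ((A : ℝ) * B) ^ 2 else 0) := by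
            split_ifs
            · positivity
            · exact le_refl _
          positivity
      have l4 : ∑ X ∈ range n ×ˢ range n,
            ((if X ∈ NU b θ A B n then M * ((A : ℝ) * B) ^ 2 else 0) + κ1 * ((A : ℝ) * B) ^ 2 +
            (1 / κ + 1) * Sm e (A * B) X.1 X.2) =
          ((NU b θ A B n).card : ℝ) * (M * ((A : ℝ) * B) ^ 2) +
            (n : ℝ) ^ 2 * (κ1 * ((A : ℝ) * B) ^ 2) + (1 / κ + 1) * Sm e (n * (A * B)) 0 0 := by
        have m1 : ∑ X ∈ range n ×ˢ range n, (1 / κ + 1) * Sm e (A * B) X.1 X.2 =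
            (1 / κ + 1) * Sm e (n * (A * B)) 0 0 := by
          rw [← mul_sum, Sm_total]
        rw [sum_add_distrib, sum_add_distrib, m1, sum_const, card_product,
          card_range, nsmul_eq_mul]
        congr 2
        · rw [← sum_filter, sum_const, nsmul_eq_mul]
          congr 2
          rw [filter_mem_eq_inter]
          congr 1
          rw [inter_eq_right]
          unfold NU
          exact filter_subset _ _
        · push_cast
          ring
      refine l1.trans (l3.trans (l4.le.trans ?_))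
      have l5 := mul_le_mul_of_nonneg_right h3
        (by positivity : (0:ℝ) ≤ M * ((A : ℝ) * B) ^ 2)
      have l6 := mul_le_mul_of_nonneg_left h1 (by positivity : (0:ℝ) ≤ 1 / κ + 1)
      calc ((NU b θ A B n).card : ℝ) * (M * ((A : ℝ) * B) ^ 2) +
            (n : ℝ) ^ 2 * (κ1 * ((A : ℝ) * B) ^ 2) + (1 / κ + 1) * Sm e (n * (A * B)) 0 0 ≤
          θ * (n : ℝ) ^ 2 * (M * ((A : ℝ) * B) ^ 2) +
            (n : ℝ) ^ 2 * (κ1 * ((A : ℝ) * B) ^ 2) +
            (1 / κ + 1) * (η * ((n : ℝ) * (A * B)) ^ 2) := by linarith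
        _ = _ := by ring
    have k2 : q * ν.real (⋃ X ∈ J', ⋃ i ∈ Lay R A,
        Cl o ((B : ℝ) * s) (X.1 * A + i.1) (X.2 * A + i.2)) ≤
        (4 * (R / A) * (Cu + θ) + η) * ((n : ℝ) * (A * B)) ^ 2 := by
      have l1 : q * ν.real (⋃ X ∈ J', ⋃ i ∈ Lay R A,
          Cl o ((B : ℝ) * s) (X.1 * A + i.1) (X.2 * A + i.2)) ≤
          ∑ X ∈ J', ∑ i ∈ Lay R A, (Sm b B (X.1 * A + i.1) (X.2 * A + i.2) +
            Sm e B (X.1 * A + i.1) (X.2 * A + i.2)) := by
        have : ∑ X ∈ J', ∑ i ∈ Lay R A, (Sm b B (X.1 * A + i.1) (X.2 * A + i.2) +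
            Sm e B (X.1 * A + i.1) (X.2 * A + i.2)) =
            q * ∑ X ∈ J', ∑ i ∈ Lay R A,
              ν.real (Cl o ((B : ℝ) * s) (X.1 * A + i.1) (X.2 * A + i.2)) := by
          rw [mul_sum]
          refine sum_congr rfl fun X _ => ?_
          rw [mul_sum]
          exact sum_congr rfl fun i _ => (hmB _ _).symm
        rw [this]
        refine mul_le_mul_of_nonneg_left ?_ hq.le
        refine (measureReal_biUnion_finset_le _ _).trans ?_
        exact sum_le_sum fun X _ => measureReal_biUnion_finset_le _ _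
      have l2 : ∀ X ∈ J', ∑ i ∈ Lay R A, (Sm b B (X.1 * A + i.1) (X.2 * A + i.2) +
            Sm e B (X.1 * A + i.1) (X.2 * A + i.2)) ≤
          4 * R * A * ((B : ℝ) ^ 2 * (av b (A * B) X.1 X.2 + θ)) + Sm e (A * B) X.1 X.2 := by
        intro X hX
        rw [sum_add_distrib]
        refine add_le_add ?_ (Sm_sub_le he _ (by unfold Lay; exact filter_subset _ _))
        rw [hJ', mem_sdiff, hJ, mem_filter, not_and, not_or, not_or] at hX
        have hX2 := (hX.2 hX.1).1
        unfold NU at hX2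
        rw [mem_filter, not_and] at hX2
        have hX3 := hX2 hX.1
        push Not at hX3
        have l3 : ∀ i ∈ Lay R A, Sm b B (X.1 * A + i.1) (X.2 * A + i.2) ≤
            (B : ℝ) ^ 2 * (av b (A * B) X.1 X.2 + θ) := by
          intro i hi
          unfold Lay at hi
          rw [mem_filter, mem_product, mem_range, mem_range] at hi
          have l4 := hX3 i.1 hi.1.1 i.2 hi.1.2
          rw [abs_le] at l4
          rw [hSbB, mul_comm]
          exact mul_le_mul_of_nonneg_left (by linarith [l4.2]) (by positivity)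
        refine (sum_le_card_nsmul _ _ _ l3).trans ?_
        rw [nsmul_eq_mul]
        refine mul_le_mul_of_nonneg_right ?_ ?_
        · exact_mod_cast Lay_card R A
        · have := (av_bd hM hb (A * B) X.1 X.2).1
          positivity
      have l3 : ∑ X ∈ J', (4 * R * A * ((B : ℝ) ^ 2 * (av b (A * B) X.1 X.2 + θ)) +
          Sm e (A * B) X.1 X.2) ≤ ∑ X ∈ range n ×ˢ range n,
          (4 * R * A * ((B : ℝ) ^ 2 * (av b (A * B) X.1 X.2 + θ)) + Sm e (A * B) X.1 X.2) := by
        refine sum_le_sum_of_subset_of_nonneg ?_ fun X _ _ => ?_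
        · rw [hJ']; exact sdiff_subset
        · have h5 := (av_bd hM hb (A * B) X.1 X.2).1
          have h6 := Sm_nn he (A * B) X.1 X.2
          positivity
      have l4 : ∑ X ∈ range n ×ˢ range n,
          (4 * R * A * ((B : ℝ) ^ 2 * (av b (A * B) X.1 X.2 + θ)) + Sm e (A * B) X.1 X.2) =
          4 * (R / A) * (Sm b (n * (A * B)) 0 0 + θ * ((n : ℝ) * (A * B)) ^ 2) +
            Sm e (n * (A * B)) 0 0 := by
        rw [sum_add_distrib, Sm_total, ← Sm_total b]
        congr 1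
        have e1 : θ * ((n : ℝ) * (A * B)) ^ 2 =
            ∑ _X ∈ range n ×ˢ range n, θ * ((A : ℝ) * B) ^ 2 := by
          rw [sum_const, card_product, card_range, nsmul_eq_mul]
          push_cast
          ring
        rw [e1, ← sum_add_distrib, mul_sum]
        refine sum_congr rfl fun X _ => ?_
        rw [hSb]
        field_simp
      refine l1.trans ((sum_le_sum l2).trans (l3.trans (l4.le.trans ?_)))
      have l5 : 4 * ((R : ℝ) / A) * (Sm b (n * (A * B)) 0 0 + θ * ((n : ℝ) * (A * B)) ^ 2) ≤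
          4 * ((R : ℝ) / A) * (Cu * ((n : ℝ) * (A * B)) ^ 2 + θ * ((n : ℝ) * (A * B)) ^ 2) :=
        mul_le_mul_of_nonneg_left (by linarith) (by positivity)
      calc _ ≤ 4 * ((R : ℝ) / A) * (Cu * ((n : ℝ) * (A * B)) ^ 2 + θ * ((n : ℝ) * (A * B)) ^ 2) +
            η * ((n : ℝ) * (A * B)) ^ 2 := by linarith
        _ = _ := by ring
    have k3 := measureReal_union_le (μ := ν) (⋃ X ∈ J, Cl o ((A : ℝ) * (B * s)) X.1 X.2)
      (⋃ X ∈ J', ⋃ i ∈ Lay R A, Cl o ((B : ℝ) * s) (X.1 * A + i.1) (X.2 * A + i.2))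
    have k4 := mul_le_mul_of_nonneg_left k3 hq.le
    rw [mul_add] at k4
    refine k4.trans ((add_le_add k1 k2).trans (le_of_eq ?_))
    ring
  · intro z hz hzB
    rw [Set.mem_union, not_or] at hzB
    obtain ⟨hz1, hz2⟩ := hzB
    have e1 : (n : ℝ) * (A * B) * s = n * (A * (B * s)) := by ring
    rw [e1, Cl_split o (by positivity : (0:ℝ) < A * (B * s))] at hz
    simp only [zero_mul, zero_add, one_mul, Set.mem_iUnion, exists_prop, Nat.Ico_zero_eq_range]
      at hz
    obtain ⟨X, hX, hzX⟩ := hz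
    have hXJ : X ∉ J := fun h => hz1 (Set.mem_iUnion₂.2 ⟨X, h, hzX⟩)
    have hXJ' : X ∈ J' := by rw [hJ', mem_sdiff]; exact ⟨hX, hXJ⟩
    have hzX' := hzX
    rw [Cl_split o hBs] at hzX'
    simp only [Set.mem_iUnion, exists_prop, mem_product, mem_Ico] at hzX'
    obtain ⟨p, ⟨⟨hp1, hp2⟩, hp3, hp4⟩, hzp⟩ := hzX'
    obtain ⟨i, hi⟩ : ∃ i, p.1 = X.1 * A + i := ⟨p.1 - X.1 * A, by omega⟩
    obtain ⟨j, hj⟩ : ∃ j, p.2 = X.2 * A + j := ⟨p.2 - X.2 * A, by omega⟩
    have hiA : i < A := by rw [hi, Nat.succ_mul] at hp2; omega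
    have hjA : j < A := by rw [hj, Nat.succ_mul] at hp4; omega
    have hlay : (i, j) ∉ Lay R A := by
      intro h
      refine hz2 (Set.mem_iUnion₂.2 ⟨X, hXJ', Set.mem_iUnion₂.2 ⟨(i, j), h, ?_⟩⟩)
      simp only
      rw [← hi, ← hj]
      exact hzp
    unfold Lay at hlay
    rw [mem_filter, mem_product, mem_range, mem_range, not_and, not_not] at hlay
    obtain ⟨⟨hR1, hR2⟩, hR3, hR4⟩ := hlay ⟨hiA, hjA⟩
    simp only at hR1 hR2 hR3 hR4
    rw [hJ, mem_filter, not_and, not_or, not_or] at hXJ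
    obtain ⟨hN, hav, hexc⟩ := hXJ hX
    rw [not_lt] at hav hexc
    obtain ⟨g, hg⟩ : ∃ g, g = av b (A * B) X.1 X.2 := ⟨_, rfl⟩
    rw [← hg] at hav
    have hg0 : 0 < g := by linarith
    have hsub : ∀ i' j', Cl (o + ((X.1 * A * (B * s) : ℝ) : ℂ) +
        ((X.2 * A * (B * s) : ℝ) : ℂ) * Complex.I) (B * s) i' j' =
        Cl o (B * s) (X.1 * A + i') (X.2 * A + j') := by
      intro i' j'
      unfold Cl
      ext w
      simp only [Complex.add_re, Complex.add_im, Complex.mul_re, Complex.mul_im,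
        Complex.ofReal_re, Complex.ofReal_im, Complex.I_re, Complex.I_im, Set.mem_ofPred_eq]
      push_cast
      constructor
      · rintro ⟨⟨c1, c2⟩, c3, c4⟩
        refine ⟨⟨by linarith, by linarith⟩, by linarith, by linarith⟩
      · rintro ⟨⟨c1, c2⟩, c3, c4⟩
        refine ⟨⟨by linarith, by linarith⟩, by linarith, by linarith⟩
    refine ⟨o + ((X.1 * A * (B * s) : ℝ) : ℂ) + ((X.2 * A * (B * s) : ℝ) : ℂ) * Complex.I,
      B * s, q * s ^ 2 / g, A, hBs, ?_, by positivity, ?_, ?_⟩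
    · have := mul_le_mul_of_nonneg_right hε2 hBs.le
      linarith
    · -- the ball is contained in the block
      intro w hw
      rw [Metric.mem_closedBall, dist_eq_norm] at hw
      have hwr : |w.re - z.re| ≤ R * (B * s) := by
        have := Complex.abs_re_le_norm (w - z)
        rw [Complex.sub_re] at this
        linarith
      have hwi : |w.im - z.im| ≤ R * (B * s) := by
        have := Complex.abs_im_le_norm (w - z)
        rw [Complex.sub_im] at this
        linarith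
      rw [abs_le] at hwr hwi
      obtain ⟨⟨c1, c2⟩, c3, c4⟩ := hzp
      rw [hi] at c1 c2
      rw [hj] at c3 c4
      push_cast at c1 c2 c3 c4
      have hR1' : (R : ℝ) ≤ i := by exact_mod_cast hR1
      have hR2' : (i : ℝ) + R + 1 ≤ A := by exact_mod_cast hR2
      have hR3' : (R : ℝ) ≤ j := by exact_mod_cast hR3
      have hR4' : (j : ℝ) + R + 1 ≤ A := by exact_mod_cast hR4
      have d1 := mul_le_mul_of_nonneg_right hR1' hBs.le
      have d2 := mul_le_mul_of_nonneg_right hR2' hBs.le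
      have d3 := mul_le_mul_of_nonneg_right hR3' hBs.le
      have d4 := mul_le_mul_of_nonneg_right hR4' hBs.le
      have hwQ : w ∈ Cl o ((A : ℝ) * (B * s)) X.1 X.2 := by
        refine ⟨⟨?_, ?_⟩, ?_, ?_⟩
        · nlinarith
        · nlinarith
        · nlinarith
        · nlinarith
      rw [Cl_split o hBs] at hwQ
      simp only [Set.mem_iUnion, exists_prop, mem_product, mem_Ico] at hwQ
      obtain ⟨p', ⟨⟨hp1', hp2'⟩, hp3', hp4'⟩, hwp⟩ := hwQ
      rw [Set.mem_iUnion₂]
      refine ⟨(p'.1 - X.1 * A, p'.2 - X.2 * A), ?_, ?_⟩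
      · rw [mem_product, mem_range, mem_range]
        rw [Nat.succ_mul] at hp2' hp4'
        simp only
        omega
      · rw [hsub]
        simp only
        have f1 : X.1 * A + (p'.1 - X.1 * A) = p'.1 := by omega
        have f2 : X.2 * A + (p'.2 - X.2 * A) = p'.2 := by omega
        rw [f1, f2]
        exact hwp
    · intro p' hp'
      rw [mem_product, mem_range, mem_range] at hp'
      rw [hsub]
      unfold NU at hN
      rw [mem_filter, not_and] at hN
      have hN' := hN hX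
      push Not at hN'
      have f1 := hN' p'.1 hp'.1 p'.2 hp'.2
      rw [← hg, abs_le] at f1
      have f2 : q * s ^ 2 / g * ν.real (Cl o ((B : ℝ) * s) (X.1 * A + p'.1) (X.2 * A + p'.2)) =
          s ^ 2 / g * (av b B (X.1 * A + p'.1) (X.2 * A + p'.2) * (B : ℝ) ^ 2 +
            Sm e B (X.1 * A + p'.1) (X.2 * A + p'.2)) := by
        rw [← hSbB, ← hmB]
        ring
      have f3 : Sm e B (X.1 * A + p'.1) (X.2 * A + p'.2) ≤ Sm e (A * B) X.1 X.2 := by
        have := Sm_sub_le he (A := A) (B := B) (X := X.1) (Y := X.2) {p'} (by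
          intro y hy
          rw [mem_singleton] at hy
          rw [hy, mem_product, mem_range, mem_range]
          exact hp')
        rwa [sum_singleton] at this
      have f4 : Sm e (A * B) X.1 X.2 ≤ κ * (g * ((A : ℝ) * B) ^ 2) := by
        rw [hg, ← hSb]
        exact hexc
      have f5 := Sm_nn he B (X.1 * A + p'.1) (X.2 * A + p'.2)
      have hsg : 0 < s ^ 2 / g := by positivity
      have f6 : θ / g ≤ θ / κ1 := div_le_div_of_nonneg_left hθ.le hκ1 hav
      have f7 : s ^ 2 / g * (θ * (B : ℝ) ^ 2 + κ * (g * ((A : ℝ) * B) ^ 2)) ≤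
          ε * (B * s) ^ 2 := by
        have g1 : s ^ 2 / g * (θ * (B : ℝ) ^ 2 + κ * (g * ((A : ℝ) * B) ^ 2)) =
            (θ / g + κ * (A : ℝ) ^ 2) * (B * s) ^ 2 := by
          field_simp
        rw [g1]
        refine mul_le_mul_of_nonneg_right ?_ (by positivity)
        linarith
      have f8 : s ^ 2 / g * (g * (B : ℝ) ^ 2) = (B * s) ^ 2 := by field_simp
      rw [f2, abs_le]
      constructor
      · have g2 : s ^ 2 / g * (g * (B : ℝ) ^ 2 - θ * (B : ℝ) ^ 2) ≤
            s ^ 2 / g * (av b B (X.1 * A + p'.1) (X.2 * A + p'.2) * (B : ℝ) ^ 2 +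
            Sm e B (X.1 * A + p'.1) (X.2 * A + p'.2)) := by
          refine mul_le_mul_of_nonneg_left ?_ hsg.le
          have : (g - θ) * (B : ℝ) ^ 2 ≤ av b B (X.1 * A + p'.1) (X.2 * A + p'.2) * (B : ℝ) ^ 2 :=
            mul_le_mul_of_nonneg_right (by linarith [f1.1]) (by positivity)
          linarith
        have g3 : s ^ 2 / g * (θ * (B : ℝ) ^ 2) ≤
            s ^ 2 / g * (θ * (B : ℝ) ^ 2 + κ * (g * ((A : ℝ) * B) ^ 2)) := by
          refine mul_le_mul_of_nonneg_left ?_ hsg.le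
          have : 0 ≤ κ * (g * ((A : ℝ) * B) ^ 2) := by positivity
          linarith
        rw [mul_sub] at g2
        linarith
      · have g2 : s ^ 2 / g * (av b B (X.1 * A + p'.1) (X.2 * A + p'.2) * (B : ℝ) ^ 2 +
            Sm e B (X.1 * A + p'.1) (X.2 * A + p'.2)) ≤
            s ^ 2 / g * (g * (B : ℝ) ^ 2 + (θ * (B : ℝ) ^ 2 + κ * (g * ((A : ℝ) * B) ^ 2))) := by
          refine mul_le_mul_of_nonneg_left ?_ hsg.le
          have : av b B (X.1 * A + p'.1) (X.2 * A + p'.2) * (B : ℝ) ^ 2 ≤ (g + θ) * (B : ℝ) ^ 2 :=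
            mul_le_mul_of_nonneg_right (by linarith [f1.2]) (by positivity)
          linarith
        rw [mul_add] at g2
        linarith

end Pool.Agent.K9h27.TP
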