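import Pool.Agent.K9h27.TP.Ae
import Pool.Agent.K9h27.TP.Uni
import Pool.Agent.K9h27.TP.Tang

/-!
Near-uniform distribution at most times in a slow piece.
-/

set_option autoImplicit false
set_option linter.unusedVariables false

namespace Pool.Agent.K9h27.TP

open Finset MeasureTheory Filter Topology H984N

/-- the occupation measure of the times in `S` -/
noncomputable def occ (f : C(unitInterval, ℂ)) (S : Set unitInterval) : Measure ℂ :=
  (volume.restrict S).map f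

instance (f : C(unitInterval, ℂ)) (S : Set unitInterval) : IsFiniteMeasure (occ f S) := by
  unfold occ
  infer_instance

theorem occ_real (f : C(unitInterval, ℂ)) {S : Set unitInterval} (hS : MeasurableSet S)
    {U : Set ℂ} (hU : MeasurableSet U) :
    (occ f S).real U = (volume {s : unitInterval | f s ∈ U ∧ s ∈ S}).toReal := by
  unfold occ Measure.real
  rw [Measure.map_apply f.continuous.measurable hU,
    Measure.restrict_apply (f.continuous.measurable hU)]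
  rfl

theorem Pj_tend : Tendsto (fun j : ℕ => Nat.log 4 ⌊Real.log j⌋₊) atTop atTop := by
  have h1 : Tendsto (fun j : ℕ => ⌊Real.log (j : ℝ)⌋₊) atTop atTop :=
    tendsto_nat_floor_atTop.comp (Real.tendsto_log_atTop.comp tendsto_natCast_atTop_atTop)
  have h2 : Tendsto (Nat.log 4) atTop atTop := by
    rw [tendsto_atTop]
    intro b
    filter_upwards [eventually_ge_atTop (4 ^ b)] with n hn
    exact (Nat.le_log_iff_pow_le (by norm_num) (by
      have : 1 ≤ 4 ^ b := Nat.one_le_pow _ _ (by norm_num)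
      omega)).2 hn
  exact h2.comp h1

/-- the constants -/
theorem params (Cu β ε : ℝ) (hCu : 0 < Cu) (hβ : 0 < β) (hε : 0 < ε) :
    ∃ (R L : ℕ) (κ η : ℝ), 1 ≤ L ∧ 1 ≤ ε * R ∧ 0 < κ ∧ 0 < η ∧
      κ * ((2 ^ L : ℕ) : ℝ) ^ 2 ≤ ε / 2 ∧ R ≤ 2 ^ L ∧ ∀ M : ℝ, 0 < M → ∃ κ1 θ : ℝ, 0 < κ1 ∧ 0 < θ ∧
      θ / κ1 ≤ ε / 2 ∧
      M * θ + κ1 + (η / 4) / κ + 4 * (R / ((2 ^ L : ℕ) : ℝ)) * (Cu / 4 + θ) + 2 * (η / 4) ≤
        β / 4 := by
  obtain ⟨b, hb⟩ : ∃ b : ℝ, b = β / 32 := ⟨_, rfl⟩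
  have hb0 : 0 < b := by rw [hb]; positivity
  obtain ⟨R, hR⟩ := exists_nat_gt (1 / ε)
  have hR1 : 1 ≤ ε * R := by
    rw [div_lt_iff₀ hε] at hR
    linarith
  obtain ⟨L, hL⟩ := exists_nat_gt (4 * R * (Cu / 4 + 1) / b + R + 1)
  have hL2 : (L : ℝ) ≤ ((2 ^ L : ℕ) : ℝ) := by exact_mod_cast (Nat.lt_two_pow_self (n := L)).le
  have hR0 : (0 : ℝ) ≤ R := Nat.cast_nonneg R
  have hq0 : 0 ≤ 4 * R * (Cu / 4 + 1) / b := by positivity
  have hA0 : (0 : ℝ) < ((2 ^ L : ℕ) : ℝ) := by positivity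
  have hA1 : 4 * (R / ((2 ^ L : ℕ) : ℝ)) * (Cu / 4 + 1) ≤ b := by
    have h1 : 4 * R * (Cu / 4 + 1) / b ≤ ((2 ^ L : ℕ) : ℝ) := by linarith
    rw [div_le_iff₀ hb0] at h1
    have e : 4 * (R / ((2 ^ L : ℕ) : ℝ)) * (Cu / 4 + 1) =
        4 * R * (Cu / 4 + 1) / ((2 ^ L : ℕ) : ℝ) := by ring
    rw [e, div_le_iff₀ hA0]
    linarith
  obtain ⟨κ, hκ⟩ : ∃ κ : ℝ, κ = ε / (2 * ((2 ^ L : ℕ) : ℝ) ^ 2) := ⟨_, rfl⟩
  have hκ0 : 0 < κ := by rw [hκ]; positivity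
  obtain ⟨η, hη⟩ : ∃ η : ℝ, η = min (κ * b) b := ⟨_, rfl⟩
  have hη0 : 0 < η := by rw [hη]; exact lt_min (by positivity) hb0
  refine ⟨R, L, κ, η, ?_, hR1, hκ0, hη0, ?_, ?_, fun M hM => ?_⟩
  · have : (1 : ℝ) < L := by linarith
    have h2 : 1 < L := by exact_mod_cast this
    omega
  · rw [hκ]
    refine le_of_eq ?_
    field_simp
  · have : (R : ℝ) ≤ ((2 ^ L : ℕ) : ℝ) := by linarith
    exact_mod_cast this
  · obtain ⟨θ, hθ⟩ : ∃ θ : ℝ, θ = min 1 (min (b / (M + 1)) (b * ε / 2)) := ⟨_, rfl⟩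
    have hθ0 : 0 < θ := by
      rw [hθ]
      exact lt_min one_pos (lt_min (by positivity) (by positivity))
    have hθ1 : θ ≤ 1 := by rw [hθ]; exact min_le_left _ _
    have hθ2 : θ ≤ b / (M + 1) := by
      rw [hθ]; exact (min_le_right _ _).trans (min_le_left _ _)
    have hθ3 : θ ≤ b * ε / 2 := by
      rw [hθ]; exact (min_le_right _ _).trans (min_le_right _ _)
    refine ⟨b, θ, hb0, hθ0, ?_, ?_⟩
    · rw [div_le_iff₀ hb0]
      linarith
    · have k1 : M * θ ≤ b := by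
        rw [le_div_iff₀ (by positivity)] at hθ2
        nlinarith
      have k2 : (η / 4) / κ ≤ b := by
        rw [div_le_iff₀ hκ0]
        have : η ≤ κ * b := by rw [hη]; exact min_le_left _ _
        linarith
      have k3 : 2 * (η / 4) ≤ b := by
        have : η ≤ b := by rw [hη]; exact min_le_right _ _
        linarith
      have k4 : 4 * (R / ((2 ^ L : ℕ) : ℝ)) * (Cu / 4 + θ) ≤
          4 * (R / ((2 ^ L : ℕ) : ℝ)) * (Cu / 4 + 1) :=
        mul_le_mul_of_nonneg_left (by linarith) (by positivity)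
      have k5 : β / 4 = 8 * b := by rw [hb]; ring
      rw [k5]
      linarith

theorem Sm_full (g : ℕ → ℕ → ℝ) (N : ℕ) :
    Sm g N 0 0 = ∑ p ∈ range N ×ˢ range N, g p.1 p.2 := by
  unfold Sm
  rw [sum_product]
  simp

theorem app (Cu β ε : ℝ) (hCu : 0 < Cu) (hβ : 0 < β) (hε : 0 < ε) : ∃ η : ℝ, 0 < η ∧
    ∀ M : ℝ, 0 < M → ∃ j1 : ℕ, ∀ (p : X) (S : Set unitInterval) (x0 : ℂ) (j : ℕ), 0 < p.2 →
      MeasurableSet S → j1 ≤ j →
      p.2 * (volume (HS p M j x0)).toReal ≤ η * ((Pj j : ℕ) : ℝ) ^ 2 * sj j ^ (7/4 : ℝ) →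
      p.2 * (volume {s : unitInterval | dist (p.1 s) x0 ≤ (1/2) ^ j}).toReal ≤
        Cu * ((Pj j : ℕ) : ℝ) ^ 2 * sj j ^ (7/4 : ℝ) →
      ∃ Bad : Set ℂ, MeasurableSet Bad ∧
        p.2 * (occ p.1 S).real Bad ≤ β * ((Pj j : ℕ) : ℝ) ^ 2 * sj j ^ (7/4 : ℝ) ∧
        ∀ z, dist z x0 < (1/2) ^ j / 2 → z ∉ Bad →
          ∃ r : ℝ, 0 < r ∧ r ≤ (1/2) ^ j ∧ Good ε (occ p.1 S) z r := by
  classical
  obtain ⟨R, L, κ, η, hL, hR, hκ, hη, hκA, hRA, hpar⟩ := params Cu β ε hCu hβ hε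
  refine ⟨η, hη, fun M hM => ?_⟩
  obtain ⟨κ1, θ, hκ1, hθ, hθκ, hsum⟩ := hpar M hM
  obtain ⟨m0, -, hen⟩ := energy M θ hM.le hθ (2 ^ L) Nat.one_le_two_pow
  have hev := Pj_tend.eventually (eventually_ge_atTop (m0 * L))
  rw [eventually_atTop] at hev
  obtain ⟨j1, hj1⟩ := hev
  refine ⟨j1, fun p S x0 j hp hS hj ha hb => ?_⟩
  have hl := hj1 j hj
  obtain ⟨l, hldef⟩ : ∃ l : ℕ, l = Nat.log 4 ⌊Real.log j⌋₊ := ⟨_, rfl⟩
  rw [← hldef] at hl
  have hPl : Pj j = 2 ^ l := by unfold Pj; rw [← hldef]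
  obtain ⟨w, hw⟩ : ∃ w : ℝ, w = (1/2) ^ j := ⟨_, rfl⟩
  have hw0 : 0 < w := by rw [hw]; positivity
  obtain ⟨P, hP⟩ : ∃ P : ℝ, P = ((Pj j : ℕ) : ℝ) := ⟨_, rfl⟩
  have hP0 : 0 < P := by rw [hP]; exact_mod_cast Pj_pos j
  obtain ⟨σ, hσ⟩ : ∃ σ : ℝ, σ = sj j := ⟨_, rfl⟩
  have hσ0 : 0 < σ := by rw [hσ]; exact sj_pos j
  have hPσ : P * σ = w := by rw [hP, hσ, hw]; exact Pj_sj j
  obtain ⟨σ7, hσ7⟩ : ∃ σ7 : ℝ, σ7 = σ ^ (7/4 : ℝ) := ⟨_, rfl⟩
  have hσ70 : 0 < σ7 := by rw [hσ7]; positivity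
  rw [← hP, ← hσ, ← hσ7] at ha hb ⊢
  rw [← hw] at hb ⊢
  obtain ⟨s, hs⟩ : ∃ s : ℝ, s = σ / 2 := ⟨_, rfl⟩
  have hs0 : 0 < s := by rw [hs]; positivity
  obtain ⟨q, hq⟩ : ∃ q : ℝ, q = p.2 / σ7 := ⟨_, rfl⟩
  have hq0 : 0 < q := by rw [hq]; positivity
  obtain ⟨ν, hν⟩ : ∃ ν : Measure ℂ, ν = occ p.1 S := ⟨_, rfl⟩
  have : IsFiniteMeasure ν := by rw [hν]; infer_instance
  obtain ⟨o, ho⟩ : ∃ o : ℂ, o = ⟨x0.re - w / 2, x0.im - w / 2⟩ := ⟨_, rfl⟩
  have hore : o.re = x0.re - w / 2 := by rw [ho]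
  have hoim : o.im = x0.im - w / 2 := by rw [ho]
  obtain ⟨a0, ha0⟩ : ∃ a0 : ℕ → ℕ → ℝ, a0 = fun x y => q * ν.real (Cl o s x y) := ⟨_, rfl⟩
  have ha0nn : ∀ x y, 0 ≤ a0 x y := fun x y => by
    rw [ha0]; exact mul_nonneg hq0.le measureReal_nonneg
  obtain ⟨b, hbdef⟩ : ∃ b : ℕ → ℕ → ℝ, b = fun x y => if a0 x y ≤ M then a0 x y else 0 :=
    ⟨_, rfl⟩
  obtain ⟨e, hedef⟩ : ∃ e : ℕ → ℕ → ℝ, e = fun x y => if a0 x y ≤ M then 0 else a0 x y :=
    ⟨_, rfl⟩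
  have hb1 : ∀ x y, 0 ≤ b x y ∧ b x y ≤ M := by
    intro x y
    rw [hbdef]
    simp only
    split_ifs with h
    · exact ⟨ha0nn x y, h⟩
    · exact ⟨le_rfl, hM.le⟩
  have he1 : ∀ x y, 0 ≤ e x y := by
    intro x y
    rw [hedef]
    simp only
    split_ifs with h
    · exact le_rfl
    · exact ha0nn x y
  have hbe : ∀ x y, q * ν.real (Cl o s x y) = b x y + e x y := by
    intro x y
    rw [hbdef, hedef]
    simp only
    have : q * ν.real (Cl o s x y) = a0 x y := by rw [ha0]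
    rw [this]
    split_ifs
    · rw [add_zero]
    · rw [zero_add]
  -- the scales
  obtain ⟨m, hm⟩ : ∃ m : ℕ, m = (l + 1) / L := ⟨_, rfl⟩
  have hmm : m0 ≤ m := by
    rw [hm, Nat.le_div_iff_mul_le (by omega)]
    omega
  obtain ⟨n, B, hn, hB, hnAB, hNU⟩ := hen m hmm (2 ^ ((l + 1) % L)) Nat.one_le_two_pow b hb1
  have hN : n * (2 ^ L * B) = 2 * Pj j := by
    rw [hnAB, ← pow_mul, ← pow_add, hm, Nat.div_add_mod, hPl, pow_succ, mul_comm]
  have hNr : (n : ℝ) * (((2 ^ L : ℕ) : ℝ) * B) = 2 * P := by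
    rw [hP]
    exact_mod_cast hN
  have hNs : (n : ℝ) * (((2 ^ L : ℕ) : ℝ) * B) * s = w := by
    rw [hNr, hs, ← hPσ]
    ring
  have hcellw : ∀ z ∈ Cl o w 0 0, dist z x0 ≤ w := by
    rintro z ⟨⟨c1, c2⟩, c3, c4⟩
    rw [hore] at c1 c2
    rw [hoim] at c3 c4
    simp only [Nat.cast_zero, zero_mul, add_zero, zero_add, one_mul] at c1 c2 c3 c4
    rw [dist_eq_norm]
    have h5 := Complex.norm_le_abs_re_add_abs_im (z - x0)
    rw [Complex.sub_re, Complex.sub_im] at h5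
    have h6 : |z.re - x0.re| ≤ w / 2 := by rw [abs_le]; constructor <;> linarith
    have h7 : |z.im - x0.im| ≤ w / 2 := by rw [abs_le]; constructor <;> linarith
    linarith
  have hNs' : (((n * (2 ^ L * B) : ℕ)) : ℝ) * s = w := by
    rw [← hNs]
    push_cast
    ring
  have hcells : Cl o w 0 0 = ⋃ c ∈ range (n * (2 ^ L * B)) ×ˢ range (n * (2 ^ L * B)),
      Cl o s c.1 c.2 := by
    rw [← hNs', Cl_split o hs0]
    simp only [zero_mul, zero_add, one_mul, Nat.Ico_zero_eq_range]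
  have hPP : ((n : ℝ) * (((2 ^ L : ℕ) : ℝ) * B)) ^ 2 = 4 * P ^ 2 := by rw [hNr]; ring
  have hqσ : q * σ7 = p.2 := by rw [hq]; field_simp
  -- heavy part
  have h1 : Sm e (n * (2 ^ L * B)) 0 0 ≤ η / 4 * ((n : ℝ) * (((2 ^ L : ℕ) : ℝ) * B)) ^ 2 := by
    obtain ⟨Hc, hHc⟩ : ∃ Hc : Finset (ℕ × ℕ), Hc = (range (n * (2 ^ L * B)) ×ˢ
      range (n * (2 ^ L * B))).filter (fun c => ¬ a0 c.1 c.2 ≤ M) := ⟨_, rfl⟩
    have h2 : Sm e (n * (2 ^ L * B)) 0 0 = q * ν.real (⋃ c ∈ Hc, Cl o s c.1 c.2) := by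
      rw [real_union ν o hs0, mul_sum, Sm_full, hHc, sum_filter]
      refine sum_congr rfl fun c _ => ?_
      rw [hedef]
      simp only
      have e0 : q * ν.real (Cl o s c.1 c.2) = a0 c.1 c.2 := by rw [ha0]
      rw [e0, ite_not]
    rw [h2, hPP]
    have h3 : ν.real (⋃ c ∈ Hc, Cl o s c.1 c.2) ≤ (volume (HS p M j x0)).toReal := by
      rw [hν, occ_real p.1 hS (Finset.measurableSet_biUnion _ fun _ _ => Cl_meas _ _ _ _)]
      refine ENNReal.toReal_mono (measure_ne_top _ _) (measure_mono ?_)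
      rintro u ⟨hu, -⟩
      rw [Set.mem_iUnion₂] at hu
      obtain ⟨c, hc, huc⟩ := hu
      rw [hHc, mem_filter] at hc
      obtain ⟨hc1, hc2⟩ := hc
      constructor
      · rw [← hw]
        refine hcellw _ ?_
        rw [hcells, Set.mem_iUnion₂]
        exact ⟨c, hc1, huc⟩
      · rw [← hσ, ← hσ7]
        rw [ha0] at hc2
        simp only [not_le] at hc2
        rw [hq, div_mul_eq_mul_div, lt_div_iff₀ hσ70] at hc2
        refine hc2.le.trans (mul_le_mul_of_nonneg_left ?_ hp.le)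
        rw [hν, occ_real p.1 hS (Cl_meas _ _ _ _)]
        refine ENNReal.toReal_mono (measure_ne_top _ _) (measure_mono ?_)
        rintro v ⟨hv, -⟩
        have := Cl_diam hv huc
        have e2 : 2 * s = σ := by rw [hs]; ring
        rw [e2] at this
        exact this
    have h4 : q * ν.real (⋃ c ∈ Hc, Cl o s c.1 c.2) ≤ q * (volume (HS p M j x0)).toReal :=
      mul_le_mul_of_nonneg_left h3 hq0.le
    refine h4.trans ?_
    rw [hq, div_mul_eq_mul_div, div_le_iff₀ hσ70]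
    refine ha.trans (le_of_eq ?_)
    ring
  have h2 : Sm b (n * (2 ^ L * B)) 0 0 ≤ Cu / 4 * ((n : ℝ) * (((2 ^ L : ℕ) : ℝ) * B)) ^ 2 := by
    have h3 : Sm b (n * (2 ^ L * B)) 0 0 ≤ Sm a0 (n * (2 ^ L * B)) 0 0 := by
      unfold Sm
      refine sum_le_sum fun x _ => sum_le_sum fun y _ => ?_
      have := hbe x y
      have e0 : q * ν.real (Cl o s x y) = a0 x y := by rw [ha0]
      rw [e0] at this
      have := he1 x y
      linarith
    have h4 : Sm a0 (n * (2 ^ L * B)) 0 0 = q * ν.real (Cl o w 0 0) := by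
      rw [← hNs', real_split ν o hs0, ← Sm_smul, ha0]
    refine h3.trans ?_
    rw [h4, hPP]
    have h5 : ν.real (Cl o w 0 0) ≤
        (volume {s : unitInterval | dist (p.1 s) x0 ≤ w}).toReal := by
      rw [hν, occ_real p.1 hS (Cl_meas _ _ _ _)]
      refine ENNReal.toReal_mono (measure_ne_top _ _) (measure_mono ?_)
      rintro u ⟨hu, -⟩
      exact hcellw _ hu
    have h6 : q * ν.real (Cl o w 0 0) ≤
        q * (volume {s : unitInterval | dist (p.1 s) x0 ≤ w}).toReal :=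
      mul_le_mul_of_nonneg_left h5 hq0.le
    refine h6.trans ?_
    rw [hq, div_mul_eq_mul_div, div_le_iff₀ hσ70]
    refine hb.trans (le_of_eq ?_)
    ring
  obtain ⟨Bad, hBm, hB1, hB2⟩ := uniform (ν := ν) (o := o) (s := s) (q := q) (M := M) (θ := θ)
    (κ1 := κ1) (κ := κ) (η := η / 4) (Cu := Cu / 4) (ε := ε) (n := n) (A := 2 ^ L) (B := B)
    (R := R) hs0 hq0 hM.le hθ hκ1 hκ hn Nat.one_le_two_pow hB (by linarith) hR hb1 he1 hbe h1 h2
    hNU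
  refine ⟨Bad, hBm, ?_, ?_⟩
  · rw [← hν]
    have h3 : q * ν.real Bad ≤ β / 4 * (4 * P ^ 2) := by
      refine hB1.trans ?_
      rw [hPP]
      exact mul_le_mul_of_nonneg_right hsum (by positivity)
    rw [hq, div_mul_eq_mul_div, div_le_iff₀ hσ70] at h3
    refine h3.trans (le_of_eq ?_)
    ring
  · intro z hz hzB
    rw [← hν]
    have hRpos : (0 : ℝ) < R := by
      by_contra hcon
      rw [not_lt] at hcon
      have := mul_nonpos_of_nonneg_of_nonpos hε.le hcon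
      linarith only [this, hR]
    have hB0 : (0 : ℝ) < B := by exact_mod_cast hB
    refine ⟨R * (B * s), by positivity, ?_, hB2 z ?_ hzB⟩
    · have e1 : (R : ℝ) ≤ ((2 ^ L : ℕ) : ℝ) := by exact_mod_cast hRA
      have e2 : (1 : ℝ) ≤ n := by exact_mod_cast hn
      have hA0 : (0 : ℝ) < ((2 ^ L : ℕ) : ℝ) := by positivity
      calc (R : ℝ) * (B * s) ≤ ((2 ^ L : ℕ) : ℝ) * (B * s) :=
            mul_le_mul_of_nonneg_right e1 (by positivity)
        _ = 1 * (((2 ^ L : ℕ) : ℝ) * (B * s)) := (one_mul _).symm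
        _ ≤ n * (((2 ^ L : ℕ) : ℝ) * (B * s)) := mul_le_mul_of_nonneg_right e2 (by positivity)
        _ = w := by rw [← hNs]; ring
    · rw [hNs]
      rw [dist_eq_norm] at hz
      have g1 := Complex.abs_re_le_norm (z - x0)
      have g2 := Complex.abs_im_le_norm (z - x0)
      rw [Complex.sub_re, abs_le] at g1
      rw [Complex.sub_im, abs_le] at g2
      unfold Cl
      simp only [Set.mem_ofPred_eq, Nat.cast_zero, zero_mul, add_zero, zero_add, one_mul]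
      rw [hore, hoim]
      refine ⟨⟨by linarith, by linarith⟩, by linarith, by linarith⟩

end Pool.Agent.K9h27.TP
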