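import Pool.Agent.K9h27.TP.En

/-!
Half-open squares and the masses of a measure on them.
-/

set_option autoImplicit false

namespace Pool.Agent.K9h27.TP

open Finset MeasureTheory

/-- half-open square of side `a` of the grid with the corner `o` -/
def Cl (o : ℂ) (a : ℝ) (X Y : ℕ) : Set ℂ :=
  {z | (o.re + X * a ≤ z.re ∧ z.re < o.re + (X + 1) * a) ∧
    o.im + Y * a ≤ z.im ∧ z.im < o.im + (Y + 1) * a}

theorem Cl_meas (o : ℂ) (a : ℝ) (X Y : ℕ) : MeasurableSet (Cl o a X Y) := by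
  have h1 := Complex.measurable_re
  have h2 := Complex.measurable_im
  exact ((measurableSet_le measurable_const h1).inter (measurableSet_lt h1 measurable_const)).inter
    ((measurableSet_le measurable_const h2).inter (measurableSet_lt h2 measurable_const))

theorem ivl_iff {o a t : ℝ} (ha : 0 < a) (X B : ℕ) :
    (o + X * ((B : ℝ) * a) ≤ t ∧ t < o + (X + 1) * ((B : ℝ) * a)) ↔
      (((X * B : ℕ) : ℝ) ≤ (t - o) / a ∧ (t - o) / a < (((X + 1) * B : ℕ) : ℝ)) := by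
  rw [le_div_iff₀ ha, div_lt_iff₀ ha]
  push_cast
  constructor
  · rintro ⟨h1, h2⟩
    constructor <;> linarith
  · rintro ⟨h1, h2⟩
    constructor <;> linarith

theorem ivl_iff1 {o a t : ℝ} (ha : 0 < a) (x : ℕ) :
    (o + x * a ≤ t ∧ t < o + (x + 1) * a) ↔ ((x : ℝ) ≤ (t - o) / a ∧ (t - o) / a < (x : ℝ) + 1) := by
  rw [le_div_iff₀ ha, div_lt_iff₀ ha]
  constructor
  · rintro ⟨h1, h2⟩
    constructor <;> linarith
  · rintro ⟨h1, h2⟩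
    constructor <;> linarith

theorem ivl_split {o a t : ℝ} (ha : 0 < a) (X B : ℕ) :
    (o + X * ((B : ℝ) * a) ≤ t ∧ t < o + (X + 1) * ((B : ℝ) * a)) ↔
      ∃ x ∈ Ico (X * B) ((X + 1) * B), o + x * a ≤ t ∧ t < o + (x + 1) * a := by
  rw [ivl_iff ha]
  constructor
  · rintro ⟨h1, h2⟩
    have h0 : 0 ≤ (t - o) / a := le_trans (Nat.cast_nonneg _) h1
    refine ⟨⌊(t - o) / a⌋₊, ?_, ?_⟩
    · rw [mem_Ico]
      exact ⟨Nat.le_floor h1, (Nat.floor_lt h0).2 h2⟩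
    · rw [ivl_iff1 ha]
      exact ⟨Nat.floor_le h0, Nat.lt_floor_add_one _⟩
  · rintro ⟨x, hx, hx2⟩
    rw [mem_Ico] at hx
    rw [ivl_iff1 ha] at hx2
    have h1 : ((X * B : ℕ) : ℝ) ≤ x := by exact_mod_cast hx.1
    have h2 : (x : ℝ) + 1 ≤ (((X + 1) * B : ℕ) : ℝ) := by exact_mod_cast hx.2
    exact ⟨h1.trans hx2.1, lt_of_lt_of_le hx2.2 h2⟩

theorem Cl_split (o : ℂ) {a : ℝ} (ha : 0 < a) (B X Y : ℕ) : Cl o ((B : ℝ) * a) X Y =
    ⋃ p ∈ Ico (X * B) ((X + 1) * B) ×ˢ Ico (Y * B) ((Y + 1) * B), Cl o a p.1 p.2 := by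
  ext z
  simp only [Set.mem_iUnion, mem_product, exists_prop]
  constructor
  · rintro ⟨h1, h2⟩
    obtain ⟨x, hx1, hx2⟩ := (ivl_split ha X B).1 h1
    obtain ⟨y, hy1, hy2⟩ := (ivl_split ha Y B).1 h2
    exact ⟨(x, y), ⟨hx1, hy1⟩, hx2, hy2⟩
  · rintro ⟨⟨x, y⟩, ⟨hx1, hy1⟩, hx2, hy2⟩
    exact ⟨(ivl_split ha X B).2 ⟨x, hx1, hx2⟩, (ivl_split ha Y B).2 ⟨y, hy1, hy2⟩⟩

theorem ivl_disj {o a t : ℝ} (ha : 0 < a) {x y : ℕ} (h1 : o + x * a ≤ t ∧ t < o + (x + 1) * a)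
    (h2 : o + y * a ≤ t ∧ t < o + (y + 1) * a) : x = y := by
  rw [ivl_iff1 ha] at h1 h2
  have h3 : (x : ℝ) < y + 1 := lt_of_le_of_lt h1.1 h2.2
  have h4 : (y : ℝ) < x + 1 := lt_of_le_of_lt h2.1 h1.2
  have h5 : x < y + 1 := by exact_mod_cast h3
  have h6 : y < x + 1 := by exact_mod_cast h4
  omega

theorem Cl_disj (o : ℂ) {a : ℝ} (ha : 0 < a) {p q : ℕ × ℕ} (h : p ≠ q) :
    Disjoint (Cl o a p.1 p.2) (Cl o a q.1 q.2) := by
  rw [Set.disjoint_left]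
  rintro z ⟨h1, h2⟩ ⟨h3, h4⟩
  exact h (Prod.ext (ivl_disj ha h1 h3) (ivl_disj ha h2 h4))

theorem real_union (ν : Measure ℂ) [IsFiniteMeasure ν] (o : ℂ) {a : ℝ} (ha : 0 < a)
    (I : Finset (ℕ × ℕ)) :
    ν.real (⋃ p ∈ I, Cl o a p.1 p.2) = ∑ p ∈ I, ν.real (Cl o a p.1 p.2) := by
  refine measureReal_biUnion_finset ?_ fun p _ => Cl_meas _ _ _ _
  intro p _ q _ hpq
  exact Cl_disj o ha hpq

theorem real_split (ν : Measure ℂ) [IsFiniteMeasure ν] (o : ℂ) {a : ℝ} (ha : 0 < a)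
    (B X Y : ℕ) : ν.real (Cl o ((B : ℝ) * a) X Y) = Sm (fun x y => ν.real (Cl o a x y)) B X Y := by
  rw [Cl_split o ha, real_union ν o ha, sum_product]
  rfl

/-- near-uniform distribution of `ν` near `z` at the scale `r` -/
def Good (ε : ℝ) (ν : Measure ℂ) (z : ℂ) (r : ℝ) : Prop :=
  ∃ (o : ℂ) (a c : ℝ) (n : ℕ), 0 < a ∧ a ≤ ε * r ∧ 0 < c ∧
    Metric.closedBall z r ⊆ (⋃ p ∈ range n ×ˢ range n, Cl o a p.1 p.2) ∧
    ∀ p ∈ range n ×ˢ range n, |c * ν.real (Cl o a p.1 p.2) - a ^ 2| ≤ ε * a ^ 2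

end Pool.Agent.K9h27.TP
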