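import Pool.Agent.K9h27.TP.Ex

/-!
The number of the times near which many points of the path lie in heavy cells.
-/

set_option autoImplicit false
set_option linter.unusedVariables false

namespace Pool.Agent.K9h27.TP

open H974 Finset H342P H984P H984N TH992.T Pool.Agent.Y985.ME Pool.Agent.Y995.HG

/-- the time spent in a box -/
theorem box_le {D : Dm} (hD : D.Ok) {F : Finset Edg} (hF : F ⊆ D.edges) {s : ℕ} {b c : ℤ}
    (S : Finset ℕ) (hS : ∀ t ∈ S, t ≤ D.len F ∧ (D.walk F t).1 ∈ Bq b c s) :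
    (S.card : ℝ) ≤ Nb (xs D) s b c F := by
  classical
  have e := Moments_sum hD hF (fun σ => ind (σ.1 ∈ Bq b c s))
  have e1 : (S.card : ℝ) ≤
      ∑ i ∈ Finset.range (D.len F + 1), ind ((D.walk F i).1 ∈ Bq b c s) := by
    have e2 : (S.card : ℝ) = ∑ i ∈ S, ind ((D.walk F i).1 ∈ Bq b c s) := by
      rw [sum_congr rfl (fun i hi => ind_of (hS i hi).2), sum_const, nsmul_eq_mul, mul_one]
    rw [e2]
    refine sum_le_sum_of_subset_of_nonneg ?_ fun _ _ _ => ind_nonneg _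
    intro i hi
    rw [mem_range]
    have := (hS i hi).1
    omega
  refine e1.trans ?_
  rw [e]
  unfold Dm.states Nb
  rw [sum_product]
  have hterm : ∀ w ∈ Finset.Icc D.l D.r ×ˢ Finset.Icc 0 D.h,
      ∑ q : Q4, ind (D.Vis F (w, q)) * ind ((w, q).1 ∈ Bq b c s) ≤
        if w ∈ Bq b c s then xs D s w F else 0 := by
    intro w hw
    rw [mem_product, mem_Icc, mem_Icc] at hw
    split_ifs with hwB
    · unfold xs
      refine sum_le_sum fun q _ => ?_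
      rw [if_pos (xs_mem' q hw)]
      refine (mul_le_of_le_one_right (ind_nonneg _) (ind_le_one _)).trans ?_
      refine ind_mono fun h => ?_
      rcases le_or_gt (min (s : ℤ) (D.bd w)) 0 with hm | hm
      · exact Or.inl hm
      · exact Or.inr (vis_two hD hF h hm (min_le_right _ _))
    · refine le_of_eq (sum_eq_zero fun q _ => ?_)
      rw [ind_not_of hwB, mul_zero]
  refine (sum_le_sum hterm).trans ?_
  rw [← sum_filter]
  refine sum_le_sum_of_subset_of_nonneg ?_ fun w _ _ => ?_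
  · intro w hw
    exact (mem_filter.1 hw).2
  · unfold xs
    refine sum_nonneg fun q _ => ?_
    split_ifs
    · exact ind_nonneg _
    · exact le_refl _

open Classical in
/-- number of times near which at least `K2` points have at least `K` points near them -/
noncomputable def HH (D : Dm) (F : Finset Edg) (m k : ℕ) (K K2 : ℝ) : ℕ :=
  ((Finset.range (D.len F + 1)).filter (fun t => K2 ≤
    (((Finset.range (D.len F + 1)).filter
      (fun s => ((sd (D.walk F s).1 (D.walk F t).1 : ℤ) : ℝ) ≤ m ∧ K ≤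
        (((Finset.range (D.len F + 1)).filter
          (fun i => ((sd (D.walk F i).1 (D.walk F s).1 : ℤ) : ℝ) ≤ k)).card : ℝ))).card :
            ℝ))).card

/-- the number of the points in the heavy boxes of the grid around the block `q` -/
noncomputable def GG (D : Dm) (P k : ℕ) (q : Vtx) (K : ℝ) (F : Finset Edg) : ℝ :=
  ∑ i ∈ range (8 * P) ×ˢ range (8 * P),
    Nb (xs D) k (q.1 * (4 * (P * k : ℕ) : ℤ) - 2 * (P * k : ℕ) + i.1 * (k : ℕ))
      (q.2 * (4 * (P * k : ℕ) : ℤ) - 2 * (P * k : ℕ) + i.2 * (k : ℕ)) F *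
    ind (K ≤ Nb (xs D) k (q.1 * (4 * (P * k : ℕ) : ℤ) - 2 * (P * k : ℕ) + i.1 * (k : ℕ))
      (q.2 * (4 * (P * k : ℕ) : ℤ) - 2 * (P * k : ℕ) + i.2 * (k : ℕ)) F)

theorem Nb_nn (D : Dm) (s : ℕ) (b c : ℤ) (F : Finset Edg) : 0 ≤ Nb (xs D) s b c F := by
  unfold Nb xs
  refine sum_nonneg fun v _ => sum_nonneg fun q _ => ?_
  split_ifs
  · exact ind_nonneg _
  · exact le_refl _

/-- arithmetic of the boxes: one coordinate -/
theorem idx1 {x b : ℤ} {k P : ℕ} (hk : 1 ≤ k) (h1 : b + (P * k : ℕ) ≤ x)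
    (h2 : x < b + 7 * (P * k : ℕ)) :
    P ≤ ((x - b) / k).toNat ∧ ((x - b) / k).toNat < 7 * P ∧
    b + (((x - b) / k).toNat : ℕ) * (k : ℕ) ≤ x ∧
    x < b + (((x - b) / k).toNat : ℕ) * (k : ℕ) + k := by
  have hk' : (0 : ℤ) < k := by exact_mod_cast hk
  have h0 : 0 ≤ (x - b) / k := Int.ediv_nonneg (by push_cast at h1; nlinarith) hk'.le
  have e1 : (((x - b) / k).toNat : ℤ) = (x - b) / k := Int.toNat_of_nonneg h0
  have e2 := Int.mul_ediv_add_emod (x - b) k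
  have e3 := Int.emod_nonneg (x - b) hk'.ne'
  have e4 := Int.emod_lt_of_pos (x - b) hk'
  refine ⟨?_, ?_, ?_, ?_⟩
  · have : (P : ℤ) ≤ (x - b) / k := by
      rw [Int.le_ediv_iff_mul_le hk']
      push_cast at h1
      linarith
    omega
  · have : (x - b) / k < 7 * P := by
      rw [Int.ediv_lt_iff_lt_mul hk']
      push_cast at h2
      linarith
    omega
  · rw [e1]
    nlinarith
  · rw [e1]
    nlinarith

theorem nbr_inj {i j d : ℕ × ℕ} (hi : 1 ≤ i.1 ∧ 1 ≤ i.2) (hj : 1 ≤ j.1 ∧ 1 ≤ j.2)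
    (h : (i.1 + d.1 - 1, i.2 + d.2 - 1) = (j.1 + d.1 - 1, j.2 + d.2 - 1)) : i = j := by
  rw [Prod.mk.injEq] at h
  obtain ⟨h1, h2⟩ := h
  ext
  · omega
  · omega

theorem grid_det {D : Dm} (hD : D.Ok) {F : Finset Edg} (hF : F ⊆ D.edges) {P k : ℕ} (hP : 1 ≤ P)
    (hk : 1 ≤ k) (K : ℝ) {q : Vtx} (S : Finset ℕ)
    (hS : ∀ s ∈ S, s ≤ D.len F ∧
      (q.1 * (4 * (P * k : ℕ) : ℤ) - (P * k : ℕ) ≤ (D.walk F s).1.1 ∧
        (D.walk F s).1.1 < q.1 * (4 * (P * k : ℕ) : ℤ) + 5 * (P * k : ℕ)) ∧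
      (q.2 * (4 * (P * k : ℕ) : ℤ) - (P * k : ℕ) ≤ (D.walk F s).1.2 ∧
        (D.walk F s).1.2 < q.2 * (4 * (P * k : ℕ) : ℤ) + 5 * (P * k : ℕ)) ∧
      ∃ U : Finset ℕ, K ≤ (U.card : ℝ) ∧ ∀ i ∈ U, i ≤ D.len F ∧
        (((D.walk F s).1.1 - k ≤ (D.walk F i).1.1 ∧ (D.walk F i).1.1 ≤ (D.walk F s).1.1 + k) ∧
          (D.walk F s).1.2 - k ≤ (D.walk F i).1.2 ∧ (D.walk F i).1.2 ≤ (D.walk F s).1.2 + k)) :
    (S.card : ℝ) ≤ 9 * GG D P k q (K / 9) F := by
  classical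
  obtain ⟨b, hb⟩ : ∃ b : ℤ, b = q.1 * (4 * (P * k : ℕ) : ℤ) - 2 * (P * k : ℕ) := ⟨_, rfl⟩
  obtain ⟨c, hc⟩ : ∃ c : ℤ, c = q.2 * (4 * (P * k : ℕ) : ℤ) - 2 * (P * k : ℕ) := ⟨_, rfl⟩
  obtain ⟨N, hN⟩ : ∃ N : ℕ × ℕ → ℝ, N = fun i => Nb (xs D) k (b + i.1 * (k : ℕ))
    (c + i.2 * (k : ℕ)) F := ⟨_, rfl⟩
  have hN0 : ∀ i, 0 ≤ N i := fun i => by rw [hN]; exact Nb_nn _ _ _ _ _
  obtain ⟨g, hg⟩ : ∃ g : ℕ × ℕ → ℝ, g = fun i => N i * ind (K / 9 ≤ N i) := ⟨_, rfl⟩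
  have hg0 : ∀ i, 0 ≤ g i := fun i => by rw [hg]; exact mul_nonneg (hN0 i) (ind_nonneg _)
  have hGG : GG D P k q (K / 9) F = ∑ i ∈ range (8 * P) ×ˢ range (8 * P), g i := by
    unfold GG
    rw [hg, hN, hb, hc]
  rw [hGG]
  obtain ⟨ix, hix⟩ : ∃ ix : ℕ → ℕ × ℕ, ix = fun s => ((((D.walk F s).1.1 - b) / k).toNat,
    (((D.walk F s).1.2 - c) / k).toNat) := ⟨_, rfl⟩
  have hx : ∀ s ∈ S, (P ≤ (ix s).1 ∧ (ix s).1 < 7 * P ∧ b + ((ix s).1 : ℕ) * (k : ℕ) ≤ (D.walk F s).1.1 ∧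
      (D.walk F s).1.1 < b + ((ix s).1 : ℕ) * (k : ℕ) + k) ∧
      (P ≤ (ix s).2 ∧ (ix s).2 < 7 * P ∧ c + ((ix s).2 : ℕ) * (k : ℕ) ≤ (D.walk F s).1.2 ∧
      (D.walk F s).1.2 < c + ((ix s).2 : ℕ) * (k : ℕ) + k) := by
    intro s hs
    obtain ⟨h1, ⟨h2, h3⟩, ⟨h4, h5⟩, -⟩ := hS s hs
    rw [hix]
    exact ⟨idx1 hk (by rw [hb]; linarith) (by rw [hb]; linarith),
      idx1 hk (by rw [hc]; linarith) (by rw [hc]; linarith)⟩
  -- count by boxes
  obtain ⟨I, hI⟩ : ∃ I : Finset (ℕ × ℕ), I = S.image ix := ⟨_, rfl⟩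
  have hc1 : (S.card : ℝ) = ∑ i ∈ I, (((S.filter (fun s => ix s = i)).card : ℕ) : ℝ) := by
    rw [← Nat.cast_sum]
    congr 1
    exact card_eq_sum_card_fiberwise fun s hs => by
      rw [hI]; exact mem_image_of_mem _ hs
  have hI1 : ∀ i ∈ I, ∃ s ∈ S, ix s = i := by
    intro i hi
    rw [hI, mem_image] at hi
    exact hi
  have hfib : ∀ i ∈ I, (((S.filter (fun s => ix s = i)).card : ℕ) : ℝ) ≤ N i := by
    intro i hi
    rw [hN]
    refine box_le hD hF _ fun s hs => ?_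
    rw [mem_filter] at hs
    obtain ⟨hs1, hs2⟩ := hs
    obtain ⟨⟨-, -, a1, a2⟩, -, -, a3, a4⟩ := hx s hs1
    rw [hs2] at a1 a2 a3 a4
    refine ⟨(hS s hs1).1, ?_⟩
    rw [mem_Bq]
    exact ⟨⟨a1, a2⟩, a3, a4⟩
  have hkey : ∀ i ∈ I, N i ≤ ∑ d ∈ range 3 ×ˢ range 3, g (i.1 + d.1 - 1, i.2 + d.2 - 1) := by
    intro i hi
    obtain ⟨s, hs, hsi⟩ := hI1 i hi
    obtain ⟨⟨a0, a0', a1, a2⟩, b0, b0', a3, a4⟩ := hx s hs
    rw [hsi] at a0 a0' a1 a2 b0 b0' a3 a4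
    obtain ⟨-, -, -, U, hU1, hU2⟩ := hS s hs
    -- the points near `s` are in the neighbouring boxes
    have hUc : (U.card : ℝ) ≤ ∑ d ∈ range 3 ×ˢ range 3, N (i.1 + d.1 - 1, i.2 + d.2 - 1) := by
      obtain ⟨e, he⟩ : ∃ e : ℕ → ℕ × ℕ, e = fun j =>
        ((((D.walk F j).1.1 - (b + ((i.1 : ℤ) - 1) * k)) / k).toNat,
          (((D.walk F j).1.2 - (c + ((i.2 : ℤ) - 1) * k)) / k).toNat) := ⟨_, rfl⟩
      have hb1 : ∀ {x B : ℤ} {n : ℕ}, B + (n : ℤ) * k ≤ x → x < B + (n : ℤ) * k + k →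
          ∀ y : ℤ, x - k ≤ y → y ≤ x + k →
          0 ≤ (y - (B + ((n : ℤ) - 1) * k)) / k ∧ (y - (B + ((n : ℤ) - 1) * k)) / k < 3 ∧
          B + ((n : ℤ) - 1) * k + ((y - (B + ((n : ℤ) - 1) * k)) / k) * k ≤ y ∧
          y < B + ((n : ℤ) - 1) * k + ((y - (B + ((n : ℤ) - 1) * k)) / k) * k + k := by
        intro x B n h1 h2 y h3 h4
        have hk' : (0 : ℤ) < k := by exact_mod_cast hk
        have e2 := Int.mul_ediv_add_emod (y - (B + ((n : ℤ) - 1) * k)) k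
        have e3 := Int.emod_nonneg (y - (B + ((n : ℤ) - 1) * k)) hk'.ne'
        have e4 := Int.emod_lt_of_pos (y - (B + ((n : ℤ) - 1) * k)) hk'
        refine ⟨?_, ?_, ?_, ?_⟩
        · refine Int.ediv_nonneg ?_ hk'.le
          nlinarith
        · rw [Int.ediv_lt_iff_lt_mul hk']
          nlinarith
        · nlinarith
        · nlinarith
      have hc2 : (U.card : ℝ) = ∑ d ∈ range 3 ×ˢ range 3,
          (((U.filter (fun j => e j = d)).card : ℕ) : ℝ) := by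
        rw [← Nat.cast_sum]
        congr 1
        refine card_eq_sum_card_fiberwise fun j hj => ?_
        obtain ⟨-, ⟨c1, c2⟩, c3, c4⟩ := hU2 j hj
        obtain ⟨d1, d2, -, -⟩ := hb1 a1 a2 _ c1 c2
        obtain ⟨d3, d4, -, -⟩ := hb1 a3 a4 _ c3 c4
        rw [he]
        simp only [coe_product, coe_range, Set.mem_prod, Set.mem_Iio]
        omega
      rw [hc2]
      refine sum_le_sum fun d hd => ?_
      rw [mem_product, mem_range, mem_range] at hd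
      rw [hN]
      refine box_le hD hF _ fun j hj => ?_
      rw [mem_filter] at hj
      obtain ⟨hj1, hj2⟩ := hj
      obtain ⟨c0, ⟨c1, c2⟩, c3, c4⟩ := hU2 j hj1
      obtain ⟨d1, d2, d3, d4⟩ := hb1 a1 a2 _ c1 c2
      obtain ⟨f1, f2, f3, f4⟩ := hb1 a3 a4 _ c3 c4
      refine ⟨c0, ?_⟩
      have g1 : (((D.walk F j).1.1 - (b + ((i.1 : ℤ) - 1) * k)) / k) = d.1 := by
        have : (e j).1 = d.1 := by rw [hj2]
        rw [he] at this
        simp only at this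
        omega
      have g2 : (((D.walk F j).1.2 - (c + ((i.2 : ℤ) - 1) * k)) / k) = d.2 := by
        have : (e j).2 = d.2 := by rw [hj2]
        rw [he] at this
        simp only at this
        omega
      rw [g1] at d3 d4
      rw [g2] at f3 f4
      have k1 : (((i.1 + d.1 - 1 : ℕ)) : ℤ) = i.1 + d.1 - 1 := by omega
      have k2 : (((i.2 + d.2 - 1 : ℕ)) : ℤ) = i.2 + d.2 - 1 := by omega
      rw [mem_Bq]
      simp only
      rw [k1, k2]
      refine ⟨⟨by linarith, by linarith⟩, by linarith, by linarith⟩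
    -- some neighbouring box is heavy
    have hex : ∃ d ∈ range 3 ×ˢ range 3, K / 9 ≤ N (i.1 + d.1 - 1, i.2 + d.2 - 1) := by
      by_contra hcon
      push Not at hcon
      have h3 : ∑ d ∈ range 3 ×ˢ range 3, N (i.1 + d.1 - 1, i.2 + d.2 - 1) <
          ∑ d ∈ range 3 ×ˢ range 3, K / 9 :=
        sum_lt_sum_of_nonempty ⟨(0, 0), by simp⟩ hcon
      rw [sum_const, card_product, card_range, nsmul_eq_mul] at h3
      push_cast at h3
      linarith
    obtain ⟨d, hd, hd2⟩ := hex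
    rcases le_or_gt (K / 9) (N i) with hNi | hNi
    · have h4 : g (i.1 + 1 - 1, i.2 + 1 - 1) ≤
          ∑ d ∈ range 3 ×ˢ range 3, g (i.1 + d.1 - 1, i.2 + d.2 - 1) :=
        single_le_sum (f := fun d : ℕ × ℕ => g (i.1 + d.1 - 1, i.2 + d.2 - 1))
          (fun d _ => hg0 _) (by simp : ((1, 1) : ℕ × ℕ) ∈ range 3 ×ˢ range 3)
      refine le_trans (le_of_eq ?_) h4
      have e1 : ((i.1 + 1 - 1, i.2 + 1 - 1) : ℕ × ℕ) = i := by
        rw [Nat.add_sub_cancel, Nat.add_sub_cancel]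
      rw [e1, hg]
      simp only
      rw [ind_of hNi, mul_one]
    · have h4 : g (i.1 + d.1 - 1, i.2 + d.2 - 1) ≤
          ∑ d ∈ range 3 ×ˢ range 3, g (i.1 + d.1 - 1, i.2 + d.2 - 1) :=
        single_le_sum (f := fun d : ℕ × ℕ => g (i.1 + d.1 - 1, i.2 + d.2 - 1))
          (fun d _ => hg0 _) hd
      refine le_trans ?_ h4
      rw [hg]
      simp only
      rw [ind_of hd2, mul_one]
      exact hNi.le.trans hd2
  have hS1 : (S.card : ℝ) ≤ ∑ i ∈ I, ∑ d ∈ range 3 ×ˢ range 3,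
      g (i.1 + d.1 - 1, i.2 + d.2 - 1) := by
    rw [hc1]
    exact sum_le_sum fun i hi => (hfib i hi).trans (hkey i hi)
  refine hS1.trans ?_
  rw [sum_comm]
  have hd9 : ∀ d ∈ range 3 ×ˢ range 3, ∑ i ∈ I, g (i.1 + d.1 - 1, i.2 + d.2 - 1) ≤
      ∑ i ∈ range (8 * P) ×ˢ range (8 * P), g i := by
    intro d hd
    rw [mem_product, mem_range, mem_range] at hd
    have hinj : ∀ i ∈ I, ∀ j ∈ I, (i.1 + d.1 - 1, i.2 + d.2 - 1) = (j.1 + d.1 - 1, j.2 + d.2 - 1) →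
        i = j := by
      intro i hi j hj h
      obtain ⟨s, hs, rfl⟩ := hI1 i hi
      obtain ⟨s', hs', rfl⟩ := hI1 j hj
      have q1 := hx s hs
      have q2 := hx s' hs'
      exact nbr_inj (by omega) (by omega) h
    have h5 : ∑ i ∈ I, g (i.1 + d.1 - 1, i.2 + d.2 - 1) =
        ∑ j ∈ I.image (fun i => (i.1 + d.1 - 1, i.2 + d.2 - 1)), g j := by
      rw [sum_image hinj]
    rw [h5]
    refine sum_le_sum_of_subset_of_nonneg ?_ fun _ _ _ => hg0 _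
    intro j hj
    rw [mem_image] at hj
    obtain ⟨i, hi, rfl⟩ := hj
    obtain ⟨s, hs, rfl⟩ := hI1 i hi
    have q1 := hx s hs
    rw [mem_product, mem_range, mem_range]
    simp only
    omega
  refine (sum_le_sum hd9).trans ?_
  rw [sum_const, card_product, card_range, nsmul_eq_mul]
  push_cast
  linarith

end Pool.Agent.K9h27.TP
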