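import Mathlib

/-!
Energy increments: a bounded function on a large grid is almost constant at some scale.
-/

set_option autoImplicit false

namespace Pool.Agent.K9h27.TP

open Finset

/-- sum over a block -/
noncomputable def Sm (b : ℕ → ℕ → ℝ) (B X Y : ℕ) : ℝ :=
  ∑ x ∈ Ico (X * B) ((X + 1) * B), ∑ y ∈ Ico (Y * B) ((Y + 1) * B), b x y

theorem sum_split (g : ℕ → ℝ) (A B X : ℕ) : ∑ x ∈ Ico (X * (A * B)) ((X + 1) * (A * B)), g x =
    ∑ i ∈ range A, ∑ x ∈ Ico ((X * A + i) * B) ((X * A + i + 1) * B), g x := by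
  have key : ∀ k : ℕ, ∑ x ∈ Ico (X * A * B) ((X * A + k) * B), g x =
      ∑ i ∈ range k, ∑ x ∈ Ico ((X * A + i) * B) ((X * A + i + 1) * B), g x := by
    intro k
    induction k with
    | zero => simp
    | succ k ih =>
      rw [sum_range_succ, ← ih]
      rw [sum_Ico_consecutive]
      · rw [add_assoc]
      · exact Nat.mul_le_mul_right _ (by omega)
      · exact Nat.mul_le_mul_right _ (by omega)
  have h := key A
  rw [← h]
  congr 2
  · ring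
  · ring

theorem Sm_split (b : ℕ → ℕ → ℝ) (A B X Y : ℕ) : Sm b (A * B) X Y =
    ∑ i ∈ range A, ∑ j ∈ range A, Sm b B (X * A + i) (Y * A + j) := by
  unfold Sm
  rw [sum_split (fun x => ∑ y ∈ Ico (Y * (A * B)) ((Y + 1) * (A * B)), b x y)]
  refine sum_congr rfl fun i _ => ?_
  rw [sum_comm (s := range A)]
  refine sum_congr rfl fun x _ => ?_
  rw [sum_split (fun y => b x y)]

theorem range_split (g : ℕ → ℝ) (n A : ℕ) : ∑ X ∈ range (n * A), g X =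
    ∑ X ∈ range n, ∑ i ∈ range A, g (X * A + i) := by
  induction n with
  | zero => simp
  | succ n ih =>
    rw [sum_range_succ, ← ih, Nat.succ_mul, sum_range_add]

/-- average over a block -/
noncomputable def av (b : ℕ → ℕ → ℝ) (B X Y : ℕ) : ℝ := Sm b B X Y / (B : ℝ) ^ 2

/-- energy of a grid of blocks -/
noncomputable def En (b : ℕ → ℕ → ℝ) (B n : ℕ) : ℝ :=
  (∑ X ∈ range n, ∑ Y ∈ range n, av b B X Y ^ 2) / (n : ℝ) ^ 2

theorem av_split (b : ℕ → ℕ → ℝ) {A B : ℕ} (hA : 1 ≤ A) (hB : 1 ≤ B) (X Y : ℕ) :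
    (A : ℝ) ^ 2 * av b (A * B) X Y =
      ∑ i ∈ range A, ∑ j ∈ range A, av b B (X * A + i) (Y * A + j) := by
  have hA0 : (0 : ℝ) < A := by exact_mod_cast hA
  have hB0 : (0 : ℝ) < B := by exact_mod_cast hB
  unfold av
  rw [Sm_split]
  push_cast
  simp_rw [← sum_div]
  field_simp

theorem sm_bd {b : ℕ → ℕ → ℝ} {M : ℝ} (hb : ∀ x y, 0 ≤ b x y ∧ b x y ≤ M) (B X Y : ℕ) :
    0 ≤ Sm b B X Y ∧ Sm b B X Y ≤ M * (B : ℝ) ^ 2 := by
  unfold Sm
  constructor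
  · exact sum_nonneg fun x _ => sum_nonneg fun y _ => (hb x y).1
  · have h1 : ∀ x ∈ Ico (X * B) ((X + 1) * B), ∑ y ∈ Ico (Y * B) ((Y + 1) * B), b x y ≤ B * M := by
      intro x _
      refine (sum_le_card_nsmul _ _ M fun y _ => (hb x y).2).trans (le_of_eq ?_)
      rw [Nat.card_Ico, nsmul_eq_mul]
      congr 2
      rw [Nat.succ_mul]; omega
    refine (sum_le_card_nsmul _ _ _ h1).trans (le_of_eq ?_)
    rw [Nat.card_Ico, nsmul_eq_mul]
    have : (X + 1) * B - X * B = B := by rw [Nat.succ_mul]; omega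
    rw [this]
    ring

theorem av_bd {b : ℕ → ℕ → ℝ} {M : ℝ} (hM : 0 ≤ M) (hb : ∀ x y, 0 ≤ b x y ∧ b x y ≤ M)
    (B X Y : ℕ) : 0 ≤ av b B X Y ∧ av b B X Y ≤ M := by
  obtain ⟨h1, h2⟩ := sm_bd hb B X Y
  unfold av
  refine ⟨by positivity, ?_⟩
  rcases Nat.eq_zero_or_pos B with h | h
  · rw [h]; simp [hM]
  · have : (0 : ℝ) < B := by exact_mod_cast h
    rw [div_le_iff₀ (by positivity)]
    exact h2

theorem En_bd {b : ℕ → ℕ → ℝ} {M : ℝ} (hM : 0 ≤ M) (hb : ∀ x y, 0 ≤ b x y ∧ b x y ≤ M)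
    (B n : ℕ) : 0 ≤ En b B n ∧ En b B n ≤ M ^ 2 := by
  unfold En
  have h0 : 0 ≤ ∑ X ∈ range n, ∑ Y ∈ range n, av b B X Y ^ 2 :=
    sum_nonneg fun _ _ => sum_nonneg fun _ _ => sq_nonneg _
  refine ⟨by positivity, ?_⟩
  rcases Nat.eq_zero_or_pos n with h | h
  · rw [h]; simp [sq_nonneg]
  · have hn : (0 : ℝ) < n := by exact_mod_cast h
    rw [div_le_iff₀ (by positivity)]
    have h1 : ∀ X ∈ range n, ∑ Y ∈ range n, av b B X Y ^ 2 ≤ n * M ^ 2 := by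
      intro X _
      refine (sum_le_card_nsmul _ _ (M ^ 2) fun Y _ => ?_).trans (le_of_eq ?_)
      · obtain ⟨h1, h2⟩ := av_bd hM hb B X Y
        exact pow_le_pow_left₀ h1 h2 2
      · rw [card_range, nsmul_eq_mul]
    refine (sum_le_card_nsmul _ _ _ h1).trans (le_of_eq ?_)
    rw [card_range, nsmul_eq_mul]
    ring

/-- the increment of the energy -/
theorem En_incr (b : ℕ → ℕ → ℝ) {A B n : ℕ} (hA : 1 ≤ A) (hB : 1 ≤ B) (hn : 1 ≤ n) :
    ∑ X ∈ range n, ∑ Y ∈ range n, ∑ i ∈ range A, ∑ j ∈ range A,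
      (av b B (X * A + i) (Y * A + j) - av b (A * B) X Y) ^ 2 =
    ((n : ℝ) * A) ^ 2 * (En b B (n * A) - En b (A * B) n) := by
  have hA0 : (0 : ℝ) < A := by exact_mod_cast hA
  have hn0 : (0 : ℝ) < n := by exact_mod_cast hn
  have h1 : ((n : ℝ) * A) ^ 2 * En b B (n * A) =
      ∑ X ∈ range n, ∑ Y ∈ range n, ∑ i ∈ range A, ∑ j ∈ range A,
        av b B (X * A + i) (Y * A + j) ^ 2 := by
    unfold En
    rw [range_split]
    have e1 : ∀ X : ℕ, ∑ i ∈ range A, ∑ Y ∈ range (n * A), av b B (X * A + i) Y ^ 2 =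
        ∑ Y ∈ range n, ∑ i ∈ range A, ∑ j ∈ range A, av b B (X * A + i) (Y * A + j) ^ 2 := by
      intro X
      rw [sum_comm (s := range n)]
      refine sum_congr rfl fun i _ => ?_
      rw [range_split]
    rw [sum_congr rfl fun X _ => e1 X]
    push_cast
    field_simp
  have h2 : ((n : ℝ) * A) ^ 2 * En b (A * B) n =
      ∑ X ∈ range n, ∑ Y ∈ range n, (A : ℝ) ^ 2 * av b (A * B) X Y ^ 2 := by
    unfold En
    simp_rw [← mul_sum]
    field_simp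
  rw [mul_sub, h1, h2, ← sum_sub_distrib]
  refine sum_congr rfl fun X _ => ?_
  rw [← sum_sub_distrib]
  refine sum_congr rfl fun Y _ => ?_
  have h3 := av_split b hA hB X Y
  obtain ⟨m, hm⟩ : ∃ m, m = av b (A * B) X Y := ⟨_, rfl⟩
  rw [← hm] at h3 ⊢
  have h4 : ∑ i ∈ range A, ∑ j ∈ range A, (av b B (X * A + i) (Y * A + j) - m) ^ 2 =
      ∑ i ∈ range A, ∑ j ∈ range A, av b B (X * A + i) (Y * A + j) ^ 2 -
      2 * m * (∑ i ∈ range A, ∑ j ∈ range A, av b B (X * A + i) (Y * A + j)) +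
      (A : ℝ) ^ 2 * m ^ 2 := by
    have e2 : (A : ℝ) ^ 2 * m ^ 2 = ∑ _i ∈ range A, ∑ _j ∈ range A, m ^ 2 := by
      simp only [sum_const, card_range, nsmul_eq_mul]
      ring
    rw [e2, mul_sum, ← sum_sub_distrib, ← sum_add_distrib]
    refine sum_congr rfl fun i _ => ?_
    rw [mul_sum, ← sum_sub_distrib, ← sum_add_distrib]
    refine sum_congr rfl fun j _ => ?_
    ring
  rw [h4, ← h3]
  ring

open Classical in
/-- the blocks which are not `θ`-uniform -/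
noncomputable def NU (b : ℕ → ℕ → ℝ) (θ : ℝ) (A B n : ℕ) : Finset (ℕ × ℕ) :=
  (range n ×ˢ range n).filter (fun X => ∃ i < A, ∃ j < A,
    θ < |av b B (X.1 * A + i) (X.2 * A + j) - av b (A * B) X.1 X.2|)

theorem NU_card {b : ℕ → ℕ → ℝ} {θ : ℝ} (hθ : 0 < θ) {A B n : ℕ} (hA : 1 ≤ A)
    (hB : 1 ≤ B) (hn : 1 ≤ n) : ((NU b θ A B n).card : ℝ) * θ ^ 2 ≤
      ((n : ℝ) * A) ^ 2 * (En b B (n * A) - En b (A * B) n) := by
  classical
  rw [← En_incr b hA hB hn]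
  have h1 : ∑ X ∈ range n, ∑ Y ∈ range n, ∑ i ∈ range A, ∑ j ∈ range A,
      (av b B (X * A + i) (Y * A + j) - av b (A * B) X Y) ^ 2 =
      ∑ X ∈ range n ×ˢ range n, ∑ i ∈ range A, ∑ j ∈ range A,
      (av b B (X.1 * A + i) (X.2 * A + j) - av b (A * B) X.1 X.2) ^ 2 := by
    rw [sum_product]
  rw [h1]
  have h2 : ((NU b θ A B n).card : ℝ) * θ ^ 2 ≤ ∑ X ∈ NU b θ A B n,
      ∑ i ∈ range A, ∑ j ∈ range A,
      (av b B (X.1 * A + i) (X.2 * A + j) - av b (A * B) X.1 X.2) ^ 2 := by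
    rw [← nsmul_eq_mul, ← sum_const]
    refine sum_le_sum fun X hX => ?_
    unfold NU at hX
    rw [mem_filter] at hX
    obtain ⟨-, i, hi, j, hj, hij⟩ := hX
    have h3 : θ ^ 2 ≤ (av b B (X.1 * A + i) (X.2 * A + j) - av b (A * B) X.1 X.2) ^ 2 := by
      rw [← sq_abs (av b B (X.1 * A + i) (X.2 * A + j) - av b (A * B) X.1 X.2)]
      exact pow_le_pow_left₀ hθ.le hij.le 2
    refine h3.trans ?_
    refine le_trans ?_ (single_le_sum (f := fun i => ∑ j ∈ range A,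
      (av b B (X.1 * A + i) (X.2 * A + j) - av b (A * B) X.1 X.2) ^ 2)
      (fun _ _ => sum_nonneg fun _ _ => sq_nonneg _) (mem_range.2 hi))
    exact single_le_sum (f := fun j =>
      (av b B (X.1 * A + i) (X.2 * A + j) - av b (A * B) X.1 X.2) ^ 2)
      (fun _ _ => sq_nonneg _) (mem_range.2 hj)
  refine h2.trans ?_
  refine sum_le_sum_of_subset_of_nonneg ?_ fun _ _ _ =>
    sum_nonneg fun _ _ => sum_nonneg fun _ _ => sq_nonneg _
  unfold NU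
  exact filter_subset _ _

/-- At some scale only a small proportion of the blocks is not uniform. -/
theorem energy (M θ : ℝ) (hM : 0 ≤ M) (hθ : 0 < θ) (A : ℕ) (hA : 1 ≤ A) : ∃ m0 : ℕ, 1 ≤ m0 ∧
    ∀ m : ℕ, m0 ≤ m → ∀ C : ℕ, 1 ≤ C → ∀ b : ℕ → ℕ → ℝ, (∀ x y, 0 ≤ b x y ∧ b x y ≤ M) →
      ∃ n B : ℕ, 1 ≤ n ∧ 1 ≤ B ∧ n * (A * B) = A ^ m * C ∧
        ((NU b θ A B n).card : ℝ) ≤ θ * (n : ℝ) ^ 2 := by
  obtain ⟨m0, hm0⟩ := exists_nat_gt ((A : ℝ) ^ 2 * M ^ 2 / θ ^ 3)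
  refine ⟨m0 + 1, by omega, fun m hm C hC b hb => ?_⟩
  have hA0 : (0 : ℝ) < A := by exact_mod_cast hA
  have hmpos : (0 : ℝ) < m := by exact_mod_cast (by omega : 0 < m)
  have hmr : (A : ℝ) ^ 2 * M ^ 2 / θ ^ 3 < m := by
    have : (m0 : ℝ) ≤ m := by exact_mod_cast (by omega : m0 ≤ m)
    linarith
  obtain ⟨e, he⟩ : ∃ e : ℕ → ℝ, e = fun k => En b (A ^ (m - k) * C) (A ^ k) := ⟨_, rfl⟩
  have htel : ∑ k ∈ range m, (e (k + 1) - e k) = e m - e 0 := sum_range_sub e m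
  have hbd : e m - e 0 ≤ M ^ 2 := by
    have h1 := (En_bd hM hb (A ^ (m - m) * C) (A ^ m)).2
    have h2 := (En_bd hM hb (A ^ (m - 0) * C) (A ^ 0)).1
    rw [he]
    simp only
    linarith
  have hex : ∃ k ∈ range m, e (k + 1) - e k ≤ M ^ 2 / m := by
    by_contra hcon
    push Not at hcon
    have h3 : ∑ k ∈ range m, M ^ 2 / (m : ℝ) < ∑ k ∈ range m, (e (k + 1) - e k) :=
      sum_lt_sum_of_nonempty ⟨0, mem_range.2 (by omega)⟩ hcon
    rw [htel, sum_const, card_range, nsmul_eq_mul] at h3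
    have e1 : (m : ℝ) * (M ^ 2 / m) = M ^ 2 := by field_simp
    linarith
  obtain ⟨k, hk, hk2⟩ := hex
  rw [mem_range] at hk
  refine ⟨A ^ k, A ^ (m - (k + 1)) * C, Nat.one_le_pow _ _ hA,
    Nat.mul_pos (Nat.one_le_pow _ _ hA) hC, ?_, ?_⟩
  · have h1 : A ^ m = A ^ k * A * A ^ (m - (k + 1)) := by
      rw [← pow_succ, ← pow_add]
      congr 1
      omega
    rw [h1]
    ring
  · have h1 := NU_card (b := b) hθ hA (B := A ^ (m - (k + 1)) * C)
      (Nat.mul_pos (Nat.one_le_pow _ _ hA) hC) (n := A ^ k) (Nat.one_le_pow _ _ hA)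
    have e1 : A ^ k * A = A ^ (k + 1) := by rw [pow_succ]
    have e2 : A * (A ^ (m - (k + 1)) * C) = A ^ (m - k) * C := by
      rw [← mul_assoc]
      congr 1
      rw [mul_comm, ← pow_succ]
      congr 1
      omega
    rw [e1, e2] at h1
    have h2 : En b (A ^ (m - (k + 1)) * C) (A ^ (k + 1)) - En b (A ^ (m - k) * C) (A ^ k) ≤
        M ^ 2 / m := by
      rw [he] at hk2
      exact hk2
    have hn0 : (0 : ℝ) < ((A ^ k : ℕ) : ℝ) := by positivity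
    have h3 : ((NU b θ A (A ^ (m - (k + 1)) * C) (A ^ k)).card : ℝ) * θ ^ 2 ≤
        (((A ^ k : ℕ) : ℝ) * A) ^ 2 * (M ^ 2 / m) :=
      h1.trans (mul_le_mul_of_nonneg_left h2 (by positivity))
    have h4 : (A : ℝ) ^ 2 * (M ^ 2 / m) ≤ θ ^ 3 := by
      rw [div_lt_iff₀ (by positivity)] at hmr
      rw [← mul_div_assoc, div_le_iff₀ hmpos]
      linarith
    have h5 : (((A ^ k : ℕ) : ℝ) * A) ^ 2 * (M ^ 2 / m) ≤ (θ * ((A ^ k : ℕ) : ℝ) ^ 2) * θ ^ 2 := by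
      calc (((A ^ k : ℕ) : ℝ) * A) ^ 2 * (M ^ 2 / m) =
            ((A ^ k : ℕ) : ℝ) ^ 2 * ((A : ℝ) ^ 2 * (M ^ 2 / m)) := by ring
        _ ≤ ((A ^ k : ℕ) : ℝ) ^ 2 * θ ^ 3 := mul_le_mul_of_nonneg_left h4 (by positivity)
        _ = _ := by ring
    exact le_of_mul_le_mul_right (h3.trans h5) (by positivity)

end Pool.Agent.K9h27.TP
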