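import Pool.Agent.Y995.HG.OccE

/-!
Exponential bound for the number of the points in heavy cells.
-/

set_option autoImplicit false
set_option linter.unusedVariables false

namespace Pool.Agent.K9h27.TP

open H974 Finset H342P H984P H984N TH992.T Pool.Agent.Y985.ME Pool.Agent.Y995.HG

/-- exponential moments of all orders -/
theorem exp_all {C0 : ℝ} (B : ℝ) (hC0 : 0 ≤ C0) (lam : ℝ) (hlam : 0 < lam) : ∃ M : ℝ, 1 ≤ M ∧
    ∀ (p : Edg → ℝ) (S : Finset Edg) (x : ℕ → Vtx → Finset Edg → ℝ), Fam (1/4) B C0 p S x →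
    ∀ (s : ℕ) (b c : ℤ), 1 ≤ s → Ex p S (fun F => Real.exp (lam * Yb (1/4) x s b c F)) ≤ M := by
  obtain ⟨l, hl, ht⟩ := tail1 (a := 1/4) (C0 := C0) (by norm_num) (by norm_num) B hC0
  obtain ⟨u1, hu1⟩ : ∃ u1 : ℝ, u1 = 2 * lam * l := ⟨_, rfl⟩
  have hu10 : 0 < u1 := by rw [hu1]; positivity
  -- `u/(2 lam) ≤ ...` gives the tail `exp (u0 - u)` of `2 lam Y`
  obtain ⟨u0, hu0⟩ : ∃ u0 : ℝ, u0 = 3 + u1 + u1 ^ 2 := ⟨_, rfl⟩
  refine ⟨max (Real.exp (u0 + 1 / 2) * (1 - Real.exp (-(1/2)))⁻¹) 1, le_max_right _ _,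
    fun p S x h s b c hs => ?_⟩
  have h1 := expmom h.ok (S := S) (fun F => 2 * lam * Yb (1/4) x s b c F)
    (fun F => mul_nonneg (by positivity) (Yb_nonneg h _ _ _ _)) (u0 := u0) (fun v hv => ?_)
    ⌈2 * lam * (B * (s : ℝ) ^ (1/4 : ℝ))⌉₊ (fun F _ => ?_)
  · refine le_trans (le_of_eq ?_) (h1.trans (le_max_left _ _))
    refine Ex_congr fun F _ => ?_
    congr 1
    ring
  · have h2 := ht p S x h s b c (v / (2 * lam)) hs (by positivity)
    have e1 : Pr p S (fun F => v ≤ 2 * lam * Yb (1/4) x s b c F) ≤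
        Pr p S (fun F => v / (2 * lam) ≤ Yb (1/4) x s b c F) := by
      unfold Pr
      refine Ex_mono h.ok fun F _ => ?_
      refine ind_mono fun hF => ?_
      show v / (2 * lam) ≤ Yb (1/4) x s b c F
      rw [div_le_iff₀ (by positivity), mul_comm]
      exact hF
    refine e1.trans (h2.trans ?_)
    have e2 : (2 / (1/4) : ℝ) = ((8 : ℕ) : ℝ) := by norm_num
    rw [e2, Real.rpow_natCast]
    have e3 : v / (2 * lam) / l = v / u1 := by rw [hu1, div_div]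
    rw [e3]
    have h9 : (9 : ℝ) ≤ Real.exp 3 := by
      have := Real.exp_one_gt_d9
      have h3 : Real.exp 3 = Real.exp 1 ^ 3 := by rw [← Real.exp_nat_mul]; norm_num
      rw [h3]
      calc (9 : ℝ) ≤ 2.5 ^ 3 := by norm_num
        _ ≤ _ := pow_le_pow_left₀ (by norm_num) (by linarith) 3
    have h4 : v ≤ u1 + u1 ^ 2 + (v / u1) ^ 8 := by
      rcases le_or_gt v (u1 + u1 ^ 2) with hv1 | hv1
      · have : 0 ≤ (v / u1) ^ 8 := by positivity
        linarith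
      · -- `y = v/u1 ≥ 1 + u1`, `y^8 ≥ y^2 ≥ y u1 = v`
        have hy : 1 + u1 < v / u1 := by
          rw [lt_div_iff₀ hu10]
          nlinarith
        have hy1 : 1 ≤ v / u1 := by linarith
        have h5 : (v / u1) ^ 2 ≤ (v / u1) ^ 8 := pow_le_pow_right₀ hy1 (by norm_num)
        have h6 : v = (v / u1) * u1 := by field_simp
        have h7 : v ≤ (v / u1) ^ 2 := by
          calc v = (v / u1) * u1 := h6
            _ ≤ (v / u1) * (v / u1) := mul_le_mul_of_nonneg_left (by linarith) (by linarith)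
            _ = _ := by ring
        have h8 : 0 ≤ u1 ^ 2 := by positivity
        linarith
    calc 9 * Real.exp (-(v / u1) ^ 8) ≤ Real.exp 3 * Real.exp (-(v / u1) ^ 8) :=
          mul_le_mul_of_nonneg_right h9 (Real.exp_pos _).le
      _ = Real.exp (3 - (v / u1) ^ 8) := by rw [← Real.exp_add]; congr 1
      _ ≤ _ := Real.exp_le_exp.mpr (by rw [hu0]; linarith)
  · refine le_trans ?_ (Nat.le_ceil _)
    exact mul_le_mul_of_nonneg_left (Yb_le h hs _ _ F) (by positivity)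

/-- truncated exponential moments are small -/
theorem exp_trunc {C0 : ℝ} (B : ℝ) (hC0 : 0 ≤ C0) (lam : ℝ) (hlam : 0 < lam) : ∃ u : ℝ, 0 < u ∧
    ∀ (p : Edg → ℝ) (S : Finset Edg) (x : ℕ → Vtx → Finset Edg → ℝ), Fam (1/4) B C0 p S x →
    ∀ (s : ℕ) (b c : ℤ), 1 ≤ s → Ex p S (fun F => Real.exp (lam * (Yb (1/4) x s b c F *
      ind (u ≤ Yb (1/4) x s b c F)))) ≤ 2 := by
  obtain ⟨M, hM1, hM⟩ := exp_all (C0 := C0) B hC0 (2 * lam) (by positivity)
  obtain ⟨u, hu⟩ : ∃ u : ℝ, u = M / lam + 1 := ⟨_, rfl⟩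
  have hu0 : 0 < u := by rw [hu]; positivity
  have hlu : M ≤ Real.exp (lam * u) := by
    have h1 : lam * u = M + lam := by rw [hu]; field_simp
    rw [h1]
    have := Real.add_one_le_exp (M + lam)
    linarith
  refine ⟨u, hu0, fun p S x h s b c hs => ?_⟩
  have h1 : Ex p S (fun F => Real.exp (lam * (Yb (1/4) x s b c F *
      ind (u ≤ Yb (1/4) x s b c F)))) ≤
      Ex p S (fun F => 1 + Real.exp (-(lam * u)) * Real.exp (2 * lam * Yb (1/4) x s b c F)) := by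
    refine Ex_mono h.ok fun F _ => ?_
    by_cases hF : u ≤ Yb (1/4) x s b c F
    · rw [ind_of hF, mul_one, ← Real.exp_add]
      have h2 : Real.exp (lam * Yb (1/4) x s b c F) ≤
          Real.exp (-(lam * u) + 2 * lam * Yb (1/4) x s b c F) := by
        refine Real.exp_le_exp.mpr ?_
        have := mul_le_mul_of_nonneg_left hF hlam.le
        linarith
      linarith
    · rw [ind_not_of hF, mul_zero, mul_zero, Real.exp_zero]
      have : 0 ≤ Real.exp (-(lam * u)) * Real.exp (2 * lam * Yb (1/4) x s b c F) := by positivity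
      linarith
  refine h1.trans ?_
  rw [Ex_add, Ex_const, Ex_mul_left]
  have h2 := hM p S x h s b c hs
  have h3 : Real.exp (-(lam * u)) * Ex p S (fun F => Real.exp (2 * lam * Yb (1/4) x s b c F)) ≤
      Real.exp (-(lam * u)) * M := mul_le_mul_of_nonneg_left h2 (Real.exp_pos _).le
  have h4 : Real.exp (-(lam * u)) * M ≤ 1 := by
    rw [Real.exp_neg, inv_mul_le_iff₀ (Real.exp_pos _), mul_one]
    exact hlu
  linarith

/-- the normalised number of the points in the heavy boxes of a grid -/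
noncomputable def YY (x : ℕ → Vtx → Finset Edg → ℝ) (k n : ℕ) (b c : ℤ) (u : ℝ)
    (F : Finset Edg) : ℝ :=
  ∑ i ∈ range n ×ˢ range n, Yb (1/4) x k (b + i.1 * (k : ℕ)) (c + i.2 * (k : ℕ)) F *
    ind (u ≤ Yb (1/4) x k (b + i.1 * (k : ℕ)) (c + i.2 * (k : ℕ)) F)

theorem YY_pr {C0 : ℝ} (B : ℝ) (hC0 : 0 ≤ C0) (A η : ℝ) (hA : 0 < A) (hη : 0 < η) :
    ∃ u : ℝ, 0 < u ∧
    ∀ (p : Edg → ℝ) (S : Finset Edg) (x : ℕ → Vtx → Finset Edg → ℝ), Fam (1/4) B C0 p S x →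
    ∀ (k P : ℕ) (b c : ℤ), 1 ≤ k →
      Pr p S (fun F => η * (P : ℝ) ^ 2 ≤ YY x k (8 * P) b c u F) ≤
        9 * Real.exp (-(A * (P : ℝ) ^ 2)) := by
  obtain ⟨lam, hlam⟩ : ∃ lam : ℝ, lam = 9 * (A + 64) / η := ⟨_, rfl⟩
  have hl0 : 0 < lam := by rw [hlam]; positivity
  obtain ⟨u, hu0, hu⟩ := exp_trunc (C0 := C0) B hC0 lam hl0
  refine ⟨u, hu0, fun p S x h k P b c hk => ?_⟩
  have h1 := chern9 h.ok (S := S) (8 * P)
    (fun q => Tb S k (b + q.1 * (k : ℕ)) (c + q.2 * (k : ℕ)))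
    (fun q => inter_subset_right) (fun q q' hqq h1 h2 => Tb_disj hk hqq h1 h2)
    (fun q F => lam * (Yb (1/4) x k (b + q.1 * (k : ℕ)) (c + q.2 * (k : ℕ)) F *
      ind (u ≤ Yb (1/4) x k (b + q.1 * (k : ℕ)) (c + q.2 * (k : ℕ)) F)))
    (fun q F hF => by
      have e : Yb (1/4) x k (b + q.1 * (k : ℕ)) (c + q.2 * (k : ℕ)) F =
          Yb (1/4) x k (b + q.1 * (k : ℕ)) (c + q.2 * (k : ℕ))
            (F ∩ Tb S k (b + q.1 * (k : ℕ)) (c + q.2 * (k : ℕ))) := by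
        unfold Yb
        rw [← Nb_local h k _ _ F hF]
      show lam * _ = lam * _
      rw [← e])
    (M := 2) (by norm_num) (fun q => hu p S x h k _ _ hk) ((A + 64) * (P : ℝ) ^ 2)
  have h2 : Pr p S (fun F => η * (P : ℝ) ^ 2 ≤ YY x k (8 * P) b c u F) ≤
      Pr p S (fun F => 9 * ((A + 64) * (P : ℝ) ^ 2) ≤ ∑ q ∈ range (8 * P) ×ˢ range (8 * P),
        lam * (Yb (1/4) x k (b + q.1 * (k : ℕ)) (c + q.2 * (k : ℕ)) F *
      ind (u ≤ Yb (1/4) x k (b + q.1 * (k : ℕ)) (c + q.2 * (k : ℕ)) F))) := by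
    unfold Pr
    refine Ex_mono h.ok fun F _ => ind_mono fun hF => ?_
    show 9 * ((A + 64) * (P : ℝ) ^ 2) ≤ ∑ q ∈ range (8 * P) ×ˢ range (8 * P),
        lam * (Yb (1/4) x k (b + q.1 * (k : ℕ)) (c + q.2 * (k : ℕ)) F *
      ind (u ≤ Yb (1/4) x k (b + q.1 * (k : ℕ)) (c + q.2 * (k : ℕ)) F))
    rw [← mul_sum]
    have h3 : lam * (η * (P : ℝ) ^ 2) ≤ lam * YY x k (8 * P) b c u F :=
      mul_le_mul_of_nonneg_left hF hl0.le
    refine le_trans (le_of_eq ?_) h3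
    rw [hlam]
    field_simp
  refine h2.trans (h1.trans ?_)
  refine mul_le_mul_of_nonneg_left ?_ (by norm_num)
  have e1 : (2 : ℝ) ^ (8 * P * (8 * P)) = Real.exp (((8 * P * (8 * P) : ℕ) : ℝ) * Real.log 2) := by
    rw [Real.exp_nat_mul, Real.exp_log (by norm_num)]
  rw [e1, ← Real.exp_add]
  refine Real.exp_le_exp.mpr ?_
  have h3 := Real.log_two_lt_d9
  have h4 : (((8 * P * (8 * P) : ℕ) : ℝ)) = 64 * (P : ℝ) ^ 2 := by push_cast; ring
  rw [h4]
  have h5 : 0 ≤ (P : ℝ) ^ 2 := by positivity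
  nlinarith

end Pool.Agent.K9h27.TP
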