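import Pool.Agent.K9h27.TP.Tang

/-!
Near-uniform distribution at small scales implies that Lebesgue measure is a tangent measure:
conclusion.
-/

set_option autoImplicit false

namespace Pool.Agent.K9h27.TP

open Finset MeasureTheory Filter Topology

theorem tang {ν : Measure ℂ} [IsFiniteMeasure ν] {z : ℂ}
    (h : ∀ ε : ℝ, 0 < ε → ∀ r0 : ℝ, 0 < r0 → ∃ r : ℝ, 0 < r ∧ r < r0 ∧ Good ε ν z r) :
    ∃ ρ c : ℕ → ℝ, (∀ k, 0 < ρ k) ∧ Tendsto ρ atTop (𝓝 0) ∧ (∀ k, 0 < c k) ∧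
      ∀ φ : ℂ → ℝ, Continuous φ → HasCompactSupport φ →
        Tendsto (fun k => c k * ∫ x, φ ((x - z) / ρ k) ∂ν) atTop (𝓝 (∫ x, φ x)) := by
  have hk : ∀ k : ℕ, ∃ r : ℝ, 0 < r ∧ r < 1 / ((k : ℝ) + 1) ∧ Good (1 / ((k : ℝ) + 2) ^ 2) ν z r :=
    fun k => h _ (by positivity) _ (by positivity)
  choose r hr hr1 o a c' n ha har hc' hcov hcell using hk
  obtain ⟨ρ, hρ⟩ : ∃ ρ : ℕ → ℝ, ρ = fun k => r k / ((k : ℝ) + 2) := ⟨_, rfl⟩
  have hρ0 : ∀ k, 0 < ρ k := fun k => by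
    rw [hρ]
    have := hr k
    positivity
  have hρle : ∀ k, ρ k ≤ 1 / ((k : ℝ) + 1) := fun k => by
    rw [hρ]
    refine le_trans ?_ (hr1 k).le
    refine div_le_self (hr k).le ?_
    have : (0 : ℝ) ≤ k := Nat.cast_nonneg k
    linarith
  refine ⟨ρ, fun k => c' k / ρ k ^ 2, hρ0, ?_, fun k => by
    have := hρ0 k
    have := hc' k
    positivity, ?_⟩
  · exact squeeze_zero (fun k => (hρ0 k).le) hρle tendsto_one_div_add_atTop_nhds_zero_nat
  intro φ hφ hφc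
  -- bounds for `φ`
  obtain ⟨Bd, hBd⟩ := hφc.exists_bound_of_continuous hφ
  have hB0 : 0 ≤ Bd := (norm_nonneg _).trans (hBd 0)
  obtain ⟨D, hD0, hD⟩ : ∃ D : ℝ, 0 ≤ D ∧ ∀ x, x ∉ Metric.closedBall (0 : ℂ) D → φ x = 0 := by
    obtain ⟨D, hD⟩ := (hφc.isCompact.isBounded).subset_closedBall (0 : ℂ)
    refine ⟨max D 0, le_max_right _ _, fun x hx => ?_⟩
    by_contra hne
    refine hx (Metric.closedBall_subset_closedBall (le_max_left _ _) (hD ?_))
    exact subset_tsupport _ hne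
  have huc : UniformContinuous φ := hφc.uniformContinuous_of_continuous hφ
  rw [Metric.tendsto_atTop]
  intro e he
  obtain ⟨Q, hQ⟩ : ∃ Q : ℝ, Q = Real.pi * (D + 1) ^ 2 := ⟨_, rfl⟩
  have hQ0 : 0 < Q := by rw [hQ]; positivity
  obtain ⟨ω, hω⟩ : ∃ ω : ℝ, ω = e / (12 * Q) := ⟨_, rfl⟩
  have hω0 : 0 < ω := by rw [hω]; positivity
  obtain ⟨δ, hδ, hδ'⟩ := Metric.uniformContinuous_iff.1 huc ω hω0
  obtain ⟨k0, hk0⟩ := exists_nat_gt (max D (max (2 / δ) (2 * Bd * Q / e)))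
  refine ⟨k0, fun k hk => ?_⟩
  have hkr : max D (max (2 / δ) (2 * Bd * Q / e)) < k := by
    have : (k0 : ℝ) ≤ k := by exact_mod_cast hk
    linarith
  rw [max_lt_iff, max_lt_iff] at hkr
  obtain ⟨k1, k2, k3⟩ := hkr
  have hkpos : (0 : ℝ) ≤ k := Nat.cast_nonneg k
  have hk20 : (0 : ℝ) < (k : ℝ) + 2 := by linarith
  have hrρ : r k = ρ k * ((k : ℝ) + 2) := by
    rw [hρ]
    field_simp
  have haρ : a k ≤ ρ k / ((k : ℝ) + 2) := by
    refine (har k).trans (le_of_eq ?_)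
    rw [hrρ]
    field_simp
  have h2a : 2 * a k ≤ ρ k * (2 / ((k : ℝ) + 2)) := by
    have e1 : ρ k * (2 / ((k : ℝ) + 2)) = 2 * (ρ k / ((k : ℝ) + 2)) := by ring
    rw [e1]
    linarith
  have h2k : 2 / ((k : ℝ) + 2) ≤ 1 := by
    rw [div_le_one hk20]
    linarith
  obtain ⟨ψ, hψ⟩ : ∃ ψ : ℂ → ℝ, ψ = fun x => φ ((x - z) / ρ k) := ⟨_, rfl⟩
  have hρk := hρ0 k
  have hρc : (ρ k : ℂ) ≠ 0 := by exact_mod_cast hρk.ne'
  have hψcont : Continuous ψ := by
    rw [hψ]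
    exact hφ.comp ((continuous_id.sub continuous_const).div_const _)
  have hψz : ∀ x, x ∉ Metric.closedBall z (D * ρ k) → ψ x = 0 := by
    intro x hx
    rw [hψ]
    refine hD _ fun hcon => hx ?_
    rw [Metric.mem_closedBall, dist_zero_right, norm_div, Complex.norm_real, Real.norm_eq_abs,
      abs_of_pos hρk, div_le_iff₀ hρk] at hcon
    rw [Metric.mem_closedBall, dist_eq_norm]
    exact hcon
  have hψc : HasCompactSupport ψ :=
    HasCompactSupport.intro (isCompact_closedBall z (D * ρ k)) hψz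
  have hcmp := compare (ν := ν) (o := o k) (z := z) (a := a k) (c := c' k)
    (ε := 1 / ((k : ℝ) + 2) ^ 2) (ω := ω) (Bd := Bd) (r := r k) (ρ := ρ k) (D := D) (n := n k)
    (ha k) (hc' k) (by positivity) (by
      rw [div_le_one (by positivity)]
      nlinarith) hω0.le hρk hD0 (by
      rw [hrρ, mul_comm]
      exact mul_le_mul_of_nonneg_left (by linarith) hρk.le) (by
      refine h2a.trans ?_
      have := mul_le_mul_of_nonneg_left h2k hρk.le
      linarith) (hcov k) (hcell k) hψcont hψc (fun x => by rw [hψ]; exact hBd _) hψz (by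
      intro x y hxy
      rw [hψ]
      have h5 : dist ((x - z) / (ρ k : ℂ)) ((y - z) / (ρ k : ℂ)) < δ := by
        rw [dist_eq_norm, ← sub_div, norm_div, Complex.norm_real, Real.norm_eq_abs,
          abs_of_pos hρk, div_lt_iff₀ hρk]
        have e1 : x - z - (y - z) = x - y := by ring
        rw [e1, ← dist_eq_norm]
        refine lt_of_le_of_lt (hxy.trans h2a) ?_
        rw [mul_comm]
        refine mul_lt_mul_of_pos_right ?_ hρk
        rw [div_lt_iff₀ hk20]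
        rw [div_lt_iff₀ hδ] at k2
        nlinarith
      have := hδ' h5
      rw [Real.dist_eq] at this
      exact this.le)
  have hscale : ∫ x, ψ x = ρ k ^ 2 * ∫ x, φ x := by
    have e1 : ∀ x, ψ x = (fun y => φ ((ρ k)⁻¹ • y)) (x - z) := by
      intro x
      rw [hψ]
      simp only
      congr 1
      rw [Complex.real_smul]
      push_cast
      field_simp
    rw [integral_congr_ae (Eventually.of_forall e1),
      integral_sub_right_eq_self (fun y => φ ((ρ k)⁻¹ • y)) z, Measure.integral_comp_inv_smul,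
      Complex.finrank_real_complex, abs_of_pos (by positivity), smul_eq_mul]
  rw [hscale] at hcmp
  have hρ2 : 0 < ρ k ^ 2 := by positivity
  rw [Real.dist_eq]
  have e2 : c' k / ρ k ^ 2 * ∫ x, φ ((x - z) / ρ k) ∂ν - ∫ x, φ x =
      (c' k * ∫ x, ψ x ∂ν - ρ k ^ 2 * ∫ x, φ x) / ρ k ^ 2 := by
    rw [hψ]
    field_simp
  rw [e2, abs_div, abs_of_pos hρ2, div_lt_iff₀ hρ2]
  refine lt_of_le_of_lt hcmp ?_
  have e3 : (3 * ω + Bd * (1 / ((k : ℝ) + 2) ^ 2)) * (Real.pi * ((D + 1) * ρ k) ^ 2) =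
      ((3 * ω + Bd * (1 / ((k : ℝ) + 2) ^ 2)) * Q) * ρ k ^ 2 := by rw [hQ]; ring
  rw [e3]
  refine mul_lt_mul_of_pos_right ?_ hρ2
  have h6 : 3 * ω * Q = e / 4 := by rw [hω]; field_simp; norm_num
  have h7 : Bd * (1 / ((k : ℝ) + 2) ^ 2) * Q ≤ e / 2 := by
    rw [div_lt_iff₀ he] at k3
    have h8 : Bd * (1 / ((k : ℝ) + 2) ^ 2) * Q = (Bd * Q) / ((k : ℝ) + 2) ^ 2 := by ring
    rw [h8, div_le_iff₀ (by positivity)]
    nlinarith [mul_nonneg hkpos hkpos, mul_nonneg he.le hkpos, mul_nonneg he.le (mul_nonneg hkpos hkpos)]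
  rw [add_mul]
  linarith

end Pool.Agent.K9h27.TP
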