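import Pool.Agent.K9h27.TP.Scale
import Pool.Agent.K9h27.TP.Tang2

/-!
Near-uniform distribution at almost every time.
-/

set_option autoImplicit false
set_option linter.unusedVariables false

namespace Pool.Agent.K9h27.TP

open Finset MeasureTheory Filter Topology H984N Pool.Agent.R965.CS Pool.Agent.Y41.EV
  Pool.Agent.Y995.HG
open scoped ENNReal

/-- a set of times of positive outer measure has a density point in every conull set -/
theorem density (G : Set unitInterval) (hG : volume G ≠ 0) :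
    ∃ t ∈ G, ∃ ρ0 : ℝ, 0 < ρ0 ∧ ∀ ρ : ℝ, 0 < ρ → ρ < ρ0 →
      ENNReal.ofReal ρ ≤ volume {s : unitInterval | s ∈ G ∧ |(s : ℝ) - t| ≤ ρ} := by
  obtain ⟨G', hG'⟩ : ∃ G' : Set ℝ, G' = Subtype.val '' G := ⟨_, rfl⟩
  have hv : volume G' = volume G := by
    rw [hG']
    exact volume_image_subtype_coe measurableSet_Icc G
  have h1 := Besicovitch.ae_tendsto_measure_inter_div (volume : Measure ℝ) G'
  obtain ⟨x, hxG, hx⟩ : ∃ x ∈ G', Tendsto (fun r => volume (G' ∩ Metric.closedBall x r) /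
      volume (Metric.closedBall x r)) (𝓝[>] 0) (𝓝 1) := by
    by_contra hcon
    push Not at hcon
    rw [ae_iff] at h1
    have h2 : (volume.restrict G') G' ≤ 0 := by
      rw [← h1]
      exact measure_mono fun y hy => hcon y hy
    rw [Measure.restrict_apply_self, hv] at h2
    exact hG (le_antisymm h2 bot_le)
  rw [hG'] at hxG
  obtain ⟨t, ht, rfl⟩ := hxG
  refine ⟨t, ht, ?_⟩
  have h2 : ∀ᶠ r : ℝ in 𝓝[>] 0, 1 / 2 < volume (G' ∩ Metric.closedBall (t : ℝ) r) /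
      volume (Metric.closedBall (t : ℝ) r) :=
    hx.eventually (lt_mem_nhds (by rw [one_div]; exact ENNReal.one_half_lt_one))
  rw [eventually_nhdsWithin_iff, Metric.eventually_nhds_iff] at h2
  obtain ⟨ρ0, hρ0, h3⟩ := h2
  refine ⟨ρ0, hρ0, fun ρ hρ hρ1 => ?_⟩
  have h4 := h3 (y := ρ) (by rw [Real.dist_eq, sub_zero, abs_of_pos hρ]; exact hρ1) hρ
  rw [Real.volume_closedBall] at h4
  have h5 : volume (G' ∩ Metric.closedBall (t : ℝ) ρ) =
      volume {s : unitInterval | s ∈ G ∧ |(s : ℝ) - t| ≤ ρ} := by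
    rw [← volume_image_subtype_coe measurableSet_Icc, hG']
    congr 1
    ext y
    constructor
    · rintro ⟨⟨s, hs, rfl⟩, h6⟩
      exact ⟨s, ⟨hs, by rw [Metric.mem_closedBall, Real.dist_eq] at h6; exact h6⟩, rfl⟩
    · rintro ⟨s, ⟨hs, h6⟩, rfl⟩
      exact ⟨⟨s, hs, rfl⟩, by rw [Metric.mem_closedBall, Real.dist_eq]; exact h6⟩
  rw [← h5]
  have h6 : ENNReal.ofReal ρ = 1 / 2 * ENNReal.ofReal (2 * ρ) := by
    rw [ENNReal.ofReal_mul (by norm_num), ← mul_assoc]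
    have : (1 / 2 : ℝ≥0∞) * ENNReal.ofReal 2 = 1 := by
      rw [ENNReal.ofReal_ofNat, one_div]
      exact ENNReal.inv_mul_cancel (by norm_num) (by norm_num)
    rw [this, one_mul]
  rw [h6]
  refine ENNReal.mul_le_of_le_div ?_
  exact h4.le

theorem good_mono {ε ε' : ℝ} (h : ε ≤ ε') {ν : Measure ℂ} {z : ℂ} {r : ℝ} (hr : 0 < r)
    (hg : Good ε ν z r) : Good ε' ν z r := by
  obtain ⟨o, a, c, n, ha, har, hc, hcov, hcell⟩ := hg
  exact ⟨o, a, c, n, ha, har.trans (mul_le_mul_of_nonneg_right h hr.le), hc, hcov,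
    fun p hp => (hcell p hp).trans (mul_le_mul_of_nonneg_right h (by positivity))⟩

/-- the conditions on the limit curve -/
structure Typical (C l : ℝ) (M : ℝ → ℝ) (p : X) : Prop where
  pos : 0 < p.2
  heavy : ∀ k : ℕ, ∀ᵐ t : unitInterval, ∀ᶠ j : ℕ in atTop,
    p.2 * (volume (HS p (M (1 / ((k : ℝ) + 1))) j (p.1 t))).toReal <
      1 / ((k : ℝ) + 1) * ((Pj j : ℕ) : ℝ) ^ 2 * sj j ^ (7/4 : ℝ)
  occu : ∀ᵐ t : unitInterval, ∀ᶠ j : ℕ in atTop, p.2 *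
      (volume {u : unitInterval | dist (p.1 u) (p.1 t) ≤ ((1:ℝ)/2) ^ j}).toReal <
        2 * Pool.Agent.Y995.HG.av l j
  slow : ∀ᵐ t : unitInterval, ∃ᶠ h : ℝ in 𝓝[>] 0, ∀ s : unitInterval, p.2 * |(s : ℝ) - t| ≤ h →
          dist (p.1 s) (p.1 t) ≤ C * chi h

theorem good_one {C l : ℝ} (hC : 1 ≤ C) (hl : 0 < l) {M : ℝ → ℝ} (hM : ∀ η : ℝ, 0 < η → 0 < M η)
    {p : X} (hp : Typical C l M p) {S : Set unitInterval} (hS : MeasurableSet S) {ε r0 : ℝ}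
    (hε : 0 < ε) (hr0 : 0 < r0) :
    volume {t : unitInterval | t ∈ S ∧ ¬ ∃ r : ℝ, 0 < r ∧ r < r0 ∧ Good ε (occ p.1 S) (p.1 t) r} =
      0 := by
  have hC0 : 0 < C := by linarith
  obtain ⟨Q, hQ⟩ : ∃ Q : ℝ, Q = 2 * (8 * C) ^ (7/4 : ℝ) := ⟨_, rfl⟩
  have hQ0 : 0 < Q := by rw [hQ]; positivity
  obtain ⟨η, hη, happ⟩ := app (8 * l) (1 / (2 * Q)) ε (by positivity) (by positivity) hε
  obtain ⟨k, hk⟩ := exists_nat_one_div_lt hη
  obtain ⟨j1, hj1⟩ := happ (M (1 / ((k : ℝ) + 1))) (hM _ (by positivity))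
  have hall := (hp.heavy k).and (hp.occu.and hp.slow)
  obtain ⟨Ok, hOk⟩ : ∃ Ok : Set unitInterval, Ok = {t | (∀ᶠ j : ℕ in atTop,
    p.2 * (volume (HS p (M (1 / ((k : ℝ) + 1))) j (p.1 t))).toReal <
      1 / ((k : ℝ) + 1) * ((Pj j : ℕ) : ℝ) ^ 2 * sj j ^ (7/4 : ℝ)) ∧ (∀ᶠ j : ℕ in atTop, p.2 *
      (volume {u : unitInterval | dist (p.1 u) (p.1 t) ≤ ((1:ℝ)/2) ^ j}).toReal <
        2 * Pool.Agent.Y995.HG.av l j) ∧ ∃ᶠ h : ℝ in 𝓝[>] 0, ∀ s : unitInterval,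
          p.2 * |(s : ℝ) - t| ≤ h → dist (p.1 s) (p.1 t) ≤ C * chi h} := ⟨_, rfl⟩
  have hOk0 : volume Okᶜ = 0 := by
    rw [hOk]
    exact hall
  obtain ⟨B, hB⟩ : ∃ B : Set unitInterval, B = {t : unitInterval | t ∈ S ∧
    ¬ ∃ r : ℝ, 0 < r ∧ r < r0 ∧ Good ε (occ p.1 S) (p.1 t) r} := ⟨_, rfl⟩
  rw [← hB]
  by_contra hne
  have hG : volume (B ∩ Ok) ≠ 0 := by
    intro h0
    apply hne
    refine le_antisymm ?_ bot_le
    calc volume B ≤ volume ((B ∩ Ok) ∪ Okᶜ) := measure_mono fun t ht => by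
          by_cases h : t ∈ Ok
          · exact Or.inl ⟨ht, h⟩
          · exact Or.inr h
      _ ≤ volume (B ∩ Ok) + volume Okᶜ := measure_union_le _ _
      _ = 0 := by rw [h0, hOk0, add_zero]
  obtain ⟨t, ⟨htB, htO⟩, ρ0, hρ0, hden⟩ := density _ hG
  rw [hOk] at htO
  obtain ⟨h1, h2, h3⟩ := htO
  have h0 : Tendsto (fun i : ℕ => ((1:ℝ)/2) ^ i) atTop (𝓝 0) :=
    tendsto_pow_atTop_nhds_zero_of_lt_one (by norm_num) (by norm_num)
  have hev := h1.and (h2.and ((h0.eventually (gt_mem_nhds hr0)).and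
    ((eventually_ge_atTop 3).and (eventually_ge_atTop j1))))
  rw [eventually_atTop] at hev
  obtain ⟨j2, hj2⟩ := hev
  obtain ⟨j, hj, h, hh, hhρ, hdist, hvol⟩ := slow_pieces hC h3 j2 (p.2 * ρ0)
    (mul_pos hp.pos hρ0)
  obtain ⟨g1, g2, g3, g4, g5⟩ := hj2 j hj
  rw [← hQ] at hvol
  have hV0 : 0 < ((Pj j : ℕ) : ℝ) ^ 2 * sj j ^ (7/4 : ℝ) := by
    have : (0 : ℝ) < ((Pj j : ℕ) : ℝ) := by exact_mod_cast Pj_pos j
    have := sj_pos j
    positivity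
  obtain ⟨Bad, hBm, hB1, hB2⟩ := hj1 p S (p.1 t) j hp.pos hS g5 (by
    refine g1.le.trans ?_
    rw [mul_assoc, mul_assoc]
    exact mul_le_mul_of_nonneg_right hk.le hV0.le) (g2.le.trans (av_scale hl g4))
  -- the bad times
  have h5 : ENNReal.ofReal (h / p.2) ≤ volume {s : unitInterval | p.1 s ∈ Bad ∧ s ∈ S} := by
    refine (hden (h / p.2) (div_pos hh hp.pos) (by
      rw [div_lt_iff₀ hp.pos, mul_comm]; exact hhρ)).trans (measure_mono ?_)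
    rintro s ⟨⟨hsB, -⟩, hs2⟩
    rw [hB] at hsB
    obtain ⟨hsS, hsn⟩ := hsB
    refine ⟨?_, hsS⟩
    by_contra hnb
    have h6 : p.2 * |(s : ℝ) - t| ≤ h := by
      rw [le_div_iff₀ hp.pos] at hs2
      linarith
    obtain ⟨r, hr1, hr2, hr3⟩ := hB2 (p.1 s) (hdist s h6) hnb
    exact hsn ⟨r, hr1, lt_of_le_of_lt hr2 g3, hr3⟩
  have h6 : h / p.2 ≤ (occ p.1 S).real Bad := by
    rw [occ_real p.1 hS hBm]
    rwa [ENNReal.ofReal_le_iff_le_toReal (measure_ne_top _ _)] at h5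
  have h7 : h ≤ p.2 * (occ p.1 S).real Bad := by
    rw [div_le_iff₀ hp.pos] at h6
    linarith
  have h8 : 1 / (2 * Q) * ((Pj j : ℕ) : ℝ) ^ 2 * sj j ^ (7/4 : ℝ) ≤ h / 2 := by
    rw [mul_assoc]
    calc 1 / (2 * Q) * (((Pj j : ℕ) : ℝ) ^ 2 * sj j ^ (7/4 : ℝ)) ≤ 1 / (2 * Q) * (Q * h) :=
          mul_le_mul_of_nonneg_left hvol (by positivity)
      _ = h / 2 := by field_simp
  linarith

/-- Lebesgue measure is a tangent measure at almost every time -/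
theorem good_all {C l : ℝ} (hC : 1 ≤ C) (hl : 0 < l) {M : ℝ → ℝ} (hM : ∀ η : ℝ, 0 < η → 0 < M η)
    {p : X} (hp : Typical C l M p) {S : Set unitInterval} (hS : MeasurableSet S) :
    ∀ᵐ t : unitInterval, t ∈ S → ∀ ε : ℝ, 0 < ε → ∀ r0 : ℝ, 0 < r0 →
      ∃ r : ℝ, 0 < r ∧ r < r0 ∧ Good ε (occ p.1 S) (p.1 t) r := by
  have h1 : ∀ᵐ t : unitInterval, ∀ k : ℕ, t ∈ S → ∃ r : ℝ, 0 < r ∧ r < 1 / ((k : ℝ) + 1) ∧
      Good (1 / ((k : ℝ) + 1)) (occ p.1 S) (p.1 t) r := by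
    rw [ae_all_iff]
    intro k
    have h2 := good_one hC hl hM hp hS (ε := 1 / ((k : ℝ) + 1)) (r0 := 1 / ((k : ℝ) + 1))
      (by positivity) (by positivity)
    rw [ae_iff]
    refine le_antisymm (le_trans (measure_mono ?_) h2.le) bot_le
    intro t ht
    simp only [Set.mem_ofPred_eq] at ht ⊢
    by_contra hcon
    apply ht
    intro htS
    by_contra hn
    exact hcon ⟨htS, hn⟩
  filter_upwards [h1] with t ht htS ε hε r0 hr0
  obtain ⟨k, hk⟩ := exists_nat_one_div_lt (lt_min hε hr0)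
  obtain ⟨r, hr1, hr2, hr3⟩ := ht k htS
  exact ⟨r, hr1, hr2.trans (hk.trans_le (min_le_right _ _)),
    good_mono (hk.le.trans (min_le_left _ _)) hr1 hr3⟩

end Pool.Agent.K9h27.TP
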