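import Pool.Agent.K9h27.TP.Det

/-!
First moment of the number of the times near which many points lie in heavy cells.
-/

set_option autoImplicit false
set_option linter.unusedVariables false

namespace Pool.Agent.K9h27.TP

open H974 Finset H342P H984P H984N TH992.T Pool.Agent.Y985.ME Pool.Agent.Y995.HG

theorem trunc2 {p : Edg → ℝ} (hp : Ok p) {S : Finset Edg} {Z : Finset Edg → ℝ} (hZ : ∀ F, 0 ≤ Z F)
    {M b : ℝ} (hM : Ex p S (fun F => Real.exp (Z F / 2)) ≤ M) (hb : 0 < b)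
    {A : Finset Edg → Prop} (hPr : Pr p S A ≤ 9 * b ^ 2) :
    Ex p S (fun F => Z F * ind (A F)) ≤ (8 * M + 9) / 2 * b := by
  have h1 : Ex p S (fun F => Z F * ind (A F)) ≤
      Ex p S (fun F => (4 * b) * Real.exp (Z F / 2) + (b⁻¹ / 2) * ind (A F)) := by
    refine Ex_mono hp fun F _ => ?_
    have h2 : (Z F) ^ 2 ≤ 8 * Real.exp (Z F / 2) := by
      have := Real.quadratic_le_exp_of_nonneg (x := Z F / 2) (by have := hZ F; positivity)
      have h0 := hZ F
      nlinarith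
    by_cases hu : A F
    · rw [ind_of hu]
      have h3 : 2 * Z F ≤ b * (Z F) ^ 2 + b⁻¹ := by
        have h4 : 0 ≤ (b * Z F - 1) ^ 2 := sq_nonneg _
        have h5 : b * (2 * Z F) ≤ b * (b * (Z F) ^ 2 + b⁻¹) := by
          rw [mul_add, mul_inv_cancel₀ hb.ne']
          nlinarith
        exact le_of_mul_le_mul_left h5 hb
      nlinarith
    · rw [ind_not_of hu]
      have := Real.exp_pos (Z F / 2)
      simp only [mul_zero, add_zero]
      positivity
  refine h1.trans ?_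
  rw [Ex_add, Ex_mul_left, Ex_mul_left]
  have h2 : (4 * b) * Ex p S (fun F => Real.exp (Z F / 2)) ≤ (4 * b) * M :=
    mul_le_mul_of_nonneg_left hM (by positivity)
  have h3 : (b⁻¹ / 2) * Ex p S (fun F => ind (A F)) ≤ (b⁻¹ / 2) * (9 * b ^ 2) :=
    mul_le_mul_of_nonneg_left hPr (by positivity)
  have h4 : (b⁻¹ / 2) * (9 * b ^ 2) = 9 / 2 * b := by
    field_simp
  rw [h4] at h3
  linarith

theorem GG_local {C : ℝ} (hC : 0 < C) (hU : TwoUp C (1/4)) {D : Dm} {P k : ℕ} (hP : 1 ≤ P)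
    (hk : 1 ≤ k) {q : Vtx} {K : ℝ} {F : Finset Edg} (hF : F ⊆ D.edges) :
    GG D P k q K F = GG D P k q K (F ∩ Lam D (4 * (P * k : ℕ)) q) := by
  unfold GG
  refine sum_congr rfl fun i hi => ?_
  rw [mem_product, mem_range, mem_range] at hi
  obtain ⟨hi1, hi2⟩ := hi
  have key : Nb (xs D) k (q.1 * (4 * (P * k : ℕ) : ℤ) - 2 * (P * k : ℕ) + i.1 * (k : ℕ))
      (q.2 * (4 * (P * k : ℕ) : ℤ) - 2 * (P * k : ℕ) + i.2 * (k : ℕ)) F =
      Nb (xs D) k (q.1 * (4 * (P * k : ℕ) : ℤ) - 2 * (P * k : ℕ) + i.1 * (k : ℕ))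
      (q.2 * (4 * (P * k : ℕ) : ℤ) - 2 * (P * k : ℕ) + i.2 * (k : ℕ))
        (F ∩ Lam D (4 * (P * k : ℕ)) q) := by
    rw [Nb_local (xs_fam hC hU D) _ _ _ F hF,
      Nb_local (xs_fam hC hU D) _ _ _ (F ∩ Lam D (4 * (P * k : ℕ)) q) (inter_subset_left.trans hF)]
    congr 1
    rw [inter_assoc]
    congr 1
    symm
    rw [inter_eq_right]
    intro e he
    unfold Tb at he
    rw [mem_inter] at he
    obtain ⟨h1, h2⟩ := he
    have hk' : (1 : ℤ) ≤ k := by exact_mod_cast hk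
    have hP' : (1 : ℤ) ≤ P := by exact_mod_cast hP
    have hPk : (k : ℤ) ≤ P * k := by nlinarith
    have a1 : (i.1 : ℤ) * k + k ≤ 8 * (P * k) := by
      have : (i.1 : ℤ) + 1 ≤ 8 * P := by exact_mod_cast hi1
      nlinarith
    have a2 : (i.2 : ℤ) * k + k ≤ 8 * (P * k) := by
      have : (i.2 : ℤ) + 1 ≤ 8 * P := by exact_mod_cast hi2
      nlinarith
    have a3 : (0 : ℤ) ≤ (i.1 : ℤ) * k := by positivity
    have a4 : (0 : ℤ) ≤ (i.2 : ℤ) * k := by positivity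
    obtain ⟨x, y, _ | _⟩ := e
    · unfold Dm.edges at h2
      unfold Pool.Agent.Y985.ME.Lam
      rw [mem_RE_false] at h1 h2 ⊢
      push_cast at h1 ⊢
      refine ⟨max_le h2.1 (by linarith [h1.1]), le_min h2.2.1 (by linarith [h1.2.1]),
        max_le h2.2.2.1 (by linarith [h1.2.2.1]), lt_min h2.2.2.2 (by linarith [h1.2.2.2])⟩
    · unfold Dm.edges at h2
      unfold Pool.Agent.Y985.ME.Lam
      rw [mem_RE_true] at h1 h2 ⊢
      push_cast at h1 ⊢
      refine ⟨max_le h2.1 (by linarith [h1.1]), lt_min h2.2.1 (by linarith [h1.2.1]),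
        max_le h2.2.2.1 (by linarith [h1.2.2.1]), le_min h2.2.2.2 (by linarith [h1.2.2.2])⟩
  rw [← key]

theorem HH_det {D : Dm} (hD : D.Ok) {F : Finset Edg} (hF : F ⊆ D.edges) {P k : ℕ} (hP : 1 ≤ P)
    (hk : 1 ≤ k) (K K2 : ℝ) :
    (HH D F (P * k) k K K2 : ℝ) ≤ ∑ q ∈ Bks D (4 * (P * k : ℕ)), ind (Tch D (4 * (P * k : ℕ)) q F) *
      (Zq D (P * k) q F * ind (K2 ≤ 9 * GG D P k q (K / 9) F)) := by
  classical
  obtain ⟨m, hm⟩ : ∃ m : ℕ, m = P * k := ⟨_, rfl⟩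
  have hm1 : 1 ≤ m := by rw [hm]; exact Nat.mul_pos hP hk
  have hm' : (1 : ℤ) ≤ m := by exact_mod_cast hm1
  unfold HH
  obtain ⟨T, hT⟩ : ∃ T : Finset ℕ, T = (Finset.range (D.len F + 1)).filter (fun t => K2 ≤
    (((Finset.range (D.len F + 1)).filter
      (fun s => ((sd (D.walk F s).1 (D.walk F t).1 : ℤ) : ℝ) ≤ (P * k : ℕ) ∧ K ≤
        (((Finset.range (D.len F + 1)).filter
          (fun i => ((sd (D.walk F i).1 (D.walk F s).1 : ℤ) : ℝ) ≤ k)).card : ℝ))).card : ℝ)) :=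
    ⟨_, rfl⟩
  have hgoal : (T.card : ℝ) ≤ ∑ q ∈ Bks D (4 * (P * k : ℕ)), ind (Tch D (4 * (P * k : ℕ)) q F) *
      (Zq D (P * k) q F * ind (K2 ≤ 9 * GG D P k q (K / 9) F)) := by
    have hTm : ∀ t ∈ T, t ≤ D.len F ∧ K2 ≤ (((Finset.range (D.len F + 1)).filter
      (fun s => ((sd (D.walk F s).1 (D.walk F t).1 : ℤ) : ℝ) ≤ (P * k : ℕ) ∧ K ≤
        (((Finset.range (D.len F + 1)).filter
          (fun i => ((sd (D.walk F i).1 (D.walk F s).1 : ℤ) : ℝ) ≤ k)).card : ℝ))).card : ℝ) := by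
      intro t ht
      rw [hT, mem_filter, mem_range] at ht
      exact ⟨by omega, ht.2⟩
    rw [← hm] at hTm ⊢
    have hc : (T.card : ℝ) = ∑ q ∈ Bks D (4 * m),
        (((T.filter (fun t => blk (4 * m) (D.walk F t).1 = q)).card : ℕ) : ℝ) := by
      rw [← Nat.cast_sum]
      congr 1
      exact card_eq_sum_card_fiberwise fun t _ => blk_mem hD hF (by omega) t
    rw [hc]
    refine sum_le_sum fun q _ => ?_
    have hZ0 : 0 ≤ Zq D m q F := Nb_nn _ _ _ _ _
    rcases (T.filter (fun t => blk (4 * m) (D.walk F t).1 = q)).eq_empty_or_nonempty with h0 | h0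
    · rw [h0, card_empty, Nat.cast_zero]
      exact mul_nonneg (ind_nonneg _) (mul_nonneg hZ0 (ind_nonneg _))
    · obtain ⟨t, ht⟩ := h0
      rw [mem_filter] at ht
      obtain ⟨ht1, ht2⟩ := ht
      obtain ⟨ht3, ht4⟩ := hTm t ht1
      have hb := blk_ball hm1 ht2
      have hK1 : K2 ≤ 9 * GG D P k q (K / 9) F := by
        refine ht4.trans (grid_det hD hF hP hk K _ fun s hs => ?_)
        rw [mem_filter, mem_range] at hs
        obtain ⟨hs1, hs2, hs3⟩ := hs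
        obtain ⟨⟨c1, c2⟩, c3, c4⟩ := Pool.Agent.Y337.ME.sd_le_iff (m := m) le_rfl hs2
        rw [← hm]
        refine ⟨by omega, ⟨by linarith [hb.1.1], by linarith [hb.1.2]⟩,
          ⟨by linarith [hb.2.1], by linarith [hb.2.2]⟩, _, hs3, fun i hi => ?_⟩
        rw [mem_filter, mem_range] at hi
        obtain ⟨hi1, hi2⟩ := hi
        exact ⟨by omega, Pool.Agent.Y337.ME.sd_le_iff (m := k) le_rfl hi2⟩
      have hTch : Tch D (4 * m) q F := by
        refine ⟨t, ht3, ?_⟩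
        rw [ht2, det_sd_eq]
        simp
      rw [ind_of hK1, ind_of hTch, one_mul, mul_one]
      refine box_le hD hF _ fun s hs => ?_
      rw [mem_filter] at hs
      have hb' := blk_ball hm1 hs.2
      refine ⟨(hTm s hs.1).1, ?_⟩
      rw [mem_Bq]
      push_cast
      refine ⟨⟨?_, ?_⟩, ?_, ?_⟩
      · linarith [hb'.1.1]
      · linarith [hb'.1.2]
      · linarith [hb'.2.1]
      · linarith [hb'.2.2]
  rw [hT] at hgoal
  exact hgoal

end Pool.Agent.K9h27.TP
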