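import Pool.Agent.R965.CS.Top
import Pool.Agent.K9h27.TP.App

/-!
The scales of the slow pieces.
-/

set_option autoImplicit false
set_option linter.unusedVariables false

namespace Pool.Agent.K9h27.TP

open Finset MeasureTheory Filter Topology H984N Pool.Agent.R965.CS Pool.Agent.Y41.EV
  Pool.Agent.Y995.HG

/-- natural volume scale -/
theorem vol_scale {j : ℕ} (hj : 3 ≤ j) :
    ((Pj j : ℕ) : ℝ) ^ 2 * sj j ^ (7/4 : ℝ) =
      ((Pj j : ℕ) : ℝ) ^ (1/4 : ℝ) * (((1:ℝ)/2) ^ j) ^ (7/4 : ℝ) := by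
  have hP : (0 : ℝ) < ((Pj j : ℕ) : ℝ) := by exact_mod_cast Pj_pos j
  rw [← Pj_sj j, Real.mul_rpow hP.le (sj_pos j).le, ← mul_assoc, ← Real.rpow_add hP]
  congr 1
  rw [show (1/4 + 7/4 : ℝ) = ((2 : ℕ) : ℝ) by norm_num, Real.rpow_natCast]

theorem Pj_quarter {j : ℕ} (hj : 3 ≤ j) :
    ((Pj j : ℕ) : ℝ) ^ (1/4 : ℝ) ≤ Real.log j ^ (1/8 : ℝ) ∧
    Real.log j ^ (1/8 : ℝ) ≤ 2 * ((Pj j : ℕ) : ℝ) ^ (1/4 : ℝ) := by
  have hP : (0 : ℝ) < ((Pj j : ℕ) : ℝ) := by exact_mod_cast Pj_pos j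
  obtain ⟨h1, h2⟩ := Pj_sq hj
  have e : ((Pj j : ℕ) : ℝ) ^ (1/4 : ℝ) = (((Pj j : ℕ) : ℝ) ^ 2) ^ (1/8 : ℝ) := by
    rw [← Real.rpow_natCast (((Pj j : ℕ) : ℝ)) 2, ← Real.rpow_mul hP.le]
    norm_num
  have hlog : 0 ≤ Real.log j := le_trans (by positivity) h1
  rw [e]
  refine ⟨Real.rpow_le_rpow (by positivity) h1 (by norm_num), ?_⟩
  refine (Real.rpow_le_rpow hlog h2 (by norm_num)).trans ?_
  rw [Real.mul_rpow (by norm_num) (by positivity)]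
  refine mul_le_mul_of_nonneg_right ?_ (by positivity)
  calc (4 : ℝ) ^ (1/8 : ℝ) ≤ 4 ^ (1/2 : ℝ) :=
        Real.rpow_le_rpow_of_exponent_le (by norm_num) (by norm_num)
    _ = 2 := by
        rw [show (4 : ℝ) = 2 ^ (2 : ℝ) by norm_num, ← Real.rpow_mul (by norm_num)]
        norm_num

/-- the occupation time of the balls around typical points -/
theorem av_scale {l : ℝ} (hl : 0 < l) {j : ℕ} (hj : 3 ≤ j) :
    2 * Pool.Agent.Y995.HG.av l j ≤ 8 * l * ((Pj j : ℕ) : ℝ) ^ 2 * sj j ^ (7/4 : ℝ) := by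
  unfold Pool.Agent.Y995.HG.av
  rw [mul_assoc (8 * l), vol_scale hj]
  have h1 := (Pj_quarter hj).2
  have h2 : (0 : ℝ) ≤ (((1:ℝ)/2) ^ j) ^ (7/4 : ℝ) := by positivity
  have h3 := mul_le_mul_of_nonneg_left h1 h2
  have h4 := mul_le_mul_of_nonneg_left h3 (by positivity : (0:ℝ) ≤ 4 * l)
  calc _ = 4 * l * ((((1:ℝ)/2) ^ j) ^ (7/4 : ℝ) * Real.log j ^ (1/8 : ℝ)) := by ring
    _ ≤ _ := h4
    _ = _ := by ring

/-- the dyadic scale of a slow piece -/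
theorem slow_scale {C : ℝ} (hC : 1 ≤ C) {h : ℝ} (hh : 0 < h) (h1 : h ≤ chi h) {j0 : ℕ}
    (hj0 : 3 ≤ j0) (hs : 8 * C * h ^ (4/7 : ℝ) ≤ (1/2) ^ j0) (hh1 : h ≤ Real.exp (-1)) :
    ∃ j ≥ j0, C * chi h < (1/2) ^ j / 2 ∧
      ((Pj j : ℕ) : ℝ) ^ 2 * sj j ^ (7/4 : ℝ) ≤ 2 * (8 * C) ^ (7/4 : ℝ) * h := by
  have hC0 : 0 < C := by linarith
  have hχ := chi_pos hh
  have hχ2 := chi_le hh
  have hy0 : 0 < 4 * C * chi h := by positivity
  have hj01 : ((1:ℝ)/2) ^ j0 ≤ 1 := pow_le_one₀ (by norm_num) (by norm_num)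
  have hχ3 : C * chi h ≤ C * h ^ (4/7 : ℝ) := mul_le_mul_of_nonneg_left hχ2 hC0.le
  have hy1 : 4 * C * chi h ≤ 1 := by linarith
  obtain ⟨j, hj1, hj2⟩ := exists_nat_pow_near_of_lt_one hy0 hy1 (by norm_num : (0:ℝ) < 1/2)
    (by norm_num)
  rw [pow_succ] at hj1
  have hjj : j0 ≤ j := by
    by_contra hcon
    rw [not_le] at hcon
    have h2 : ((1:ℝ)/2) ^ j0 ≤ (1/2) ^ (j + 1) :=
      pow_le_pow_of_le_one (by norm_num) (by norm_num) (by omega)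
    rw [pow_succ] at h2
    linarith
  refine ⟨j, hjj, ?_, ?_⟩
  · have : 0 < C * chi h := by positivity
    linarith
  · have hj3 : 3 ≤ j := hj0.trans hjj
    rw [vol_scale hj3]
    have hjr : (3 : ℝ) ≤ j := by exact_mod_cast hj3
    -- `log j ≤ 2 ll h`
    have hL1 : 1 ≤ Real.log (1 / h) := by
      rw [one_div, Real.log_inv]
      have := Real.log_le_log hh hh1
      rw [Real.log_exp] at this
      linarith
    have hjL : (j : ℝ) ≤ 2 * Real.log (1 / h) := by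
      have h2 : h ≤ (1/2) ^ j := by
        have : chi h ≤ 4 * C * chi h := by nlinarith
        linarith
      have h3 := Real.log_le_log hh h2
      rw [Real.log_pow, one_div, Real.log_inv] at h3
      have h4 := Real.log_two_gt_d9
      rw [one_div, Real.log_inv]
      nlinarith
    have hll : Real.log j ≤ 2 * ll h := by
      have h2 : Real.log j ≤ Real.log (2 * Real.log (1 / h)) :=
        Real.log_le_log (by linarith) hjL
      rw [Real.log_mul (by norm_num) (by linarith)] at h2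
      have h3 : 1 ≤ ll h := ll_ge h
      have h4 : Real.log (Real.log (1 / h)) ≤ ll h := by unfold ll; exact le_max_right _ _
      have h5 := Real.log_two_lt_d9
      linarith
    have hlog0 : 0 ≤ Real.log j := Real.log_nonneg (by linarith)
    have hlp := ll_pos h
    have h6 : ((Pj j : ℕ) : ℝ) ^ (1/4 : ℝ) ≤ 2 * ll h ^ (1/8 : ℝ) := by
      refine (Pj_quarter hj3).1.trans ((Real.rpow_le_rpow hlog0 hll (by norm_num)).trans ?_)
      rw [Real.mul_rpow (by norm_num) hlp.le]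
      refine mul_le_mul_of_nonneg_right ?_ (by positivity)
      calc (2 : ℝ) ^ (1/8 : ℝ) ≤ 2 ^ (1 : ℝ) :=
            Real.rpow_le_rpow_of_exponent_le (by norm_num) (by norm_num)
        _ = 2 := Real.rpow_one _
    have h7 : (((1:ℝ)/2) ^ j) ^ (7/4 : ℝ) ≤ (8 * C * chi h) ^ (7/4 : ℝ) :=
      Real.rpow_le_rpow (by positivity) (by linarith) (by norm_num)
    have h8 : (8 * C * chi h) ^ (7/4 : ℝ) = (8 * C) ^ (7/4 : ℝ) * (h / ll h ^ (1/8 : ℝ)) := by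
      rw [Real.mul_rpow (by positivity) hχ.le]
      congr 1
      unfold chi
      rw [Real.div_rpow (by positivity) (by positivity), ← Real.rpow_mul hh.le,
        ← Real.rpow_mul hlp.le]
      norm_num
    calc ((Pj j : ℕ) : ℝ) ^ (1/4 : ℝ) * (((1:ℝ)/2) ^ j) ^ (7/4 : ℝ) ≤
          (2 * ll h ^ (1/8 : ℝ)) * ((8 * C) ^ (7/4 : ℝ) * (h / ll h ^ (1/8 : ℝ))) := by
            rw [← h8]
            exact mul_le_mul h6 h7 (by positivity) (by positivity)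
      _ = _ := by field_simp

/-- the slow pieces around a typical time -/
theorem slow_pieces {C : ℝ} (hC : 1 ≤ C) {p : X} {t : unitInterval}
    (hch : ∃ᶠ h : ℝ in 𝓝[>] 0, ∀ s : unitInterval, p.2 * |(s : ℝ) - t| ≤ h →
          dist (p.1 s) (p.1 t) ≤ C * chi h) (j0 : ℕ) (h0 : ℝ) (hh0 : 0 < h0) :
    ∃ j ≥ j0, ∃ h : ℝ, 0 < h ∧ h < h0 ∧
      (∀ s : unitInterval, p.2 * |(s : ℝ) - t| ≤ h → dist (p.1 s) (p.1 t) < (1/2) ^ j / 2) ∧
      ((Pj j : ℕ) : ℝ) ^ 2 * sj j ^ (7/4 : ℝ) ≤ 2 * (8 * C) ^ (7/4 : ℝ) * h := by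
  have hC0 : 0 < C := by linarith
  have e1 : ∀ᶠ h : ℝ in 𝓝[>] 0, h ≤ 1 * chi h := le_chi one_pos
  have e2 : ∀ᶠ h : ℝ in 𝓝[>] 0, 8 * C * h ^ (4/7 : ℝ) ≤ (1/2) ^ (max j0 3) := by
    have h2 : Tendsto (fun h : ℝ => 8 * C * h ^ (4/7 : ℝ)) (𝓝 0)
        (𝓝 (8 * C * 0 ^ (4/7 : ℝ))) :=
      ((Real.continuous_rpow_const (by norm_num)).tendsto 0).const_mul _
    rw [Real.zero_rpow (by norm_num), mul_zero] at h2
    exact (h2.mono_left nhdsWithin_le_nhds).eventually (ge_mem_nhds (by positivity))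
  have e3 : ∀ᶠ h : ℝ in 𝓝[>] 0, h ≤ Real.exp (-1) :=
    (eventually_le_nhds (Real.exp_pos _)).filter_mono nhdsWithin_le_nhds
  have e4 : ∀ᶠ h : ℝ in 𝓝[>] 0, h < h0 := (eventually_lt_nhds hh0).filter_mono nhdsWithin_le_nhds
  have e5 : ∀ᶠ h : ℝ in 𝓝[>] 0, 0 < h := self_mem_nhdsWithin
  obtain ⟨h, hch1, h1, h2, h3, h4, h5⟩ :=
    (hch.and_eventually (e1.and (e2.and (e3.and (e4.and e5))))).exists
  rw [one_mul] at h1
  obtain ⟨j, hj, hj1, hj2⟩ := slow_scale hC h5 h1 (le_max_right j0 3) h2 h3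
  exact ⟨j, (le_max_left _ _).trans hj, h, h5, h4, fun s hs => lt_of_le_of_lt (hch1 s hs) hj1, hj2⟩

end Pool.Agent.K9h27.TP
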