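import Pool.Agent.K9h27.TP.Fin

/-!
Lebesgue measure is a tangent measure of the occupation measure at almost every time.
-/

set_option autoImplicit false
set_option linter.unusedVariables false

namespace Pool.Agent.K9h27.TP

open H974 Finset H984P H984N Pool.Agent.Y985.ME Pool.Agent.Y995.FS Pool.Agent.Y995.HG
open Pool.Agent.R965.CS MeasureTheory Filter Topology

theorem typical_top : ∃ (C l : ℝ) (M : ℝ → ℝ), 1 ≤ C ∧ 0 < l ∧ (∀ η : ℝ, 0 < η → 0 < M η) ∧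
    ∀ R : Rect,
    (∀ δ : ℕ → ℝ, (∀ i, 0 < δ i) → Tendsto δ atTop (𝓝 0) →
      ∃ φ : ℕ → ℕ, StrictMono φ ∧ ∃ μ : ProbabilityMeasure X,
        Tendsto (fun i => R.law (δ (φ i))) atTop (𝓝 μ)) ∧
    ∀ δ : ℕ → ℝ, (∀ i, 0 < δ i) → Tendsto δ atTop (𝓝 0) → ∀ μ : ProbabilityMeasure X,
      Tendsto (fun i => R.law (δ i)) atTop (𝓝 μ) →
      ∀ᵐ p ∂(μ : Measure X), Typical C l M p := by
  obtain ⟨⟨c, hc, hL⟩, ⟨C0, hC0, hU⟩, C2, hC2, hA⟩ := Pool.Agent.Y985.ME.inputs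
  obtain ⟨l, hl, hlow⟩ := occ_lat hC0 hU
  obtain ⟨_, C, _, hC, hch⟩ := chung_top
  have hM : ∀ η : ℝ, 0 < η → _ := fun η hη => heavy_ae hC0 hU η hη
  choose M hM0 hM1 using hM
  refine ⟨max C 1, l, fun η => if h : 0 < η then M η h else 1, le_max_right _ _, hl,
    fun η hη => ?_, fun R => ⟨(hch R).1, fun δ hδ hlim μ hμ => ?_⟩⟩
  · simp only [hη, dif_pos]
    exact hM0 η hη
  · obtain ⟨A, w0, hA1, hw0, hlat⟩ := hlow R
    have h1 : ∀ᵐ p ∂(μ : Measure X), ∀ k : ℕ, 0 < p.2 → ∀ᵐ t : unitInterval, ∀ᶠ j : ℕ in atTop,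
        p.2 * (volume (HS p (M (1 / ((k : ℝ) + 1)) (by positivity)) j (p.1 t))).toReal <
          1 / ((k : ℝ) + 1) * ((Pj j : ℕ) : ℝ) ^ 2 * sj j ^ (7/4 : ℝ) := by
      rw [ae_all_iff]
      intro k
      exact hM1 (1 / ((k : ℝ) + 1)) (by positivity) R δ hδ hlim μ hμ
    filter_upwards [h1, (hch R).2 δ hδ hlim μ hμ, go_ae hl hA1 hw0 hlat hδ hlim hμ]
      with p g1 g2 g3
    refine ⟨g2.1, fun k => ?_, times_ae hl g2.1 g3, ?_⟩
    · have h0 : (0 : ℝ) < 1 / ((k : ℝ) + 1) := by positivity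
      simp only [h0, dif_pos]
      exact g1 k g2.1
    · filter_upwards [g2.2] with t ht
      refine (ht.2.and_eventually self_mem_nhdsWithin).mono ?_
      rintro h ⟨hh, h0⟩ s hs
      exact (hh s hs).trans (mul_le_mul_of_nonneg_right (le_max_left _ _) (chi_pos h0).le)

theorem tangent_top : ∀ R : Rect,
    (∀ δ : ℕ → ℝ, (∀ i, 0 < δ i) → Tendsto δ atTop (𝓝 0) →
      ∃ φ : ℕ → ℕ, StrictMono φ ∧ ∃ μ : ProbabilityMeasure X,
        Tendsto (fun i => R.law (δ (φ i))) atTop (𝓝 μ)) ∧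
    ∀ δ : ℕ → ℝ, (∀ i, 0 < δ i) → Tendsto δ atTop (𝓝 0) → ∀ μ : ProbabilityMeasure X,
      Tendsto (fun i => R.law (δ i)) atTop (𝓝 μ) →
      ∀ᵐ p ∂(μ : Measure X), 0 < p.2 ∧ ∀ S : Set unitInterval, MeasurableSet S →
        ∀ᵐ t : unitInterval, t ∈ S →
          ∃ ρ c : ℕ → ℝ, (∀ k, 0 < ρ k) ∧ Tendsto ρ atTop (𝓝 0) ∧ (∀ k, 0 < c k) ∧
            ∀ φ : ℂ → ℝ, Continuous φ → HasCompactSupport φ →
              Tendsto (fun k => c k * ∫ s in S, φ ((p.1 s - p.1 t) / ρ k)) atTop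
                (𝓝 (∫ z, φ z)) := by
  obtain ⟨C, l, M, hC, hl, hM, h⟩ := typical_top
  intro R
  refine ⟨(h R).1, fun δ hδ hlim μ hμ => ?_⟩
  filter_upwards [(h R).2 δ hδ hlim μ hμ] with p hp
  refine ⟨hp.pos, fun S hS => ?_⟩
  filter_upwards [good_all hC hl hM hp hS] with t ht htS
  obtain ⟨ρ, c, h1, h2, h3, h4⟩ := tang (ht htS)
  refine ⟨ρ, c, h1, h2, h3, fun φ hφ hφc => ?_⟩
  have h5 := h4 φ hφ hφc
  refine h5.congr fun k => ?_
  congr 1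
  unfold occ
  rw [integral_map p.1.continuous.measurable.aemeasurable]
  exact (hφ.comp ((continuous_id.sub continuous_const).div_const _)).aestronglyMeasurable

theorem good_dense {f : C(unitInterval, ℂ)} {S : Set unitInterval} (hS : MeasurableSet S)
    {ε r : ℝ} (hε : ε < 1) {z : ℂ} (h : Good ε (occ f S) z r) {x : ℂ}
    (hx : x ∈ Metric.closedBall z r) : ∃ s ∈ S, dist (f s) x ≤ 2 * (ε * r) := by
  obtain ⟨o, a, c, n, ha, har, hc, hcov, hcell⟩ := h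
  have h1 := hcov hx
  rw [Set.mem_iUnion₂] at h1
  obtain ⟨p, hp, hxp⟩ := h1
  have h2 := (abs_le.1 (hcell p hp)).1
  have h3 : 0 < a ^ 2 := by positivity
  have h4 : 0 < (occ f S).real (Cl o a p.1 p.2) := by
    by_contra hcon
    rw [not_lt] at hcon
    have h5 := mul_nonpos_of_nonneg_of_nonpos hc.le hcon
    nlinarith
  rw [occ_real f hS (Cl_meas _ _ _ _)] at h4
  have h6 : volume {s : unitInterval | f s ∈ Cl o a p.1 p.2 ∧ s ∈ S} ≠ 0 := by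
    intro h0
    rw [h0, ENNReal.toReal_zero] at h4
    exact lt_irrefl _ h4
  obtain ⟨s, hs1, hs2⟩ := nonempty_of_measure_ne_zero h6
  exact ⟨s, hs2, (Cl_diam hs1 hxp).trans (by linarith)⟩

/-- the plane is a tangent set at almost every time -/
theorem plane {C l : ℝ} (hC : 1 ≤ C) (hl : 0 < l) {M : ℝ → ℝ} (hM : ∀ η : ℝ, 0 < η → 0 < M η)
    {p : X} (hp : Typical C l M p) : ∀ᵐ t : unitInterval, ∀ U ∈ 𝓝 t, ∀ ε L : ℝ, 0 < ε → 0 < L →
      ∃ᶠ r : ℝ in 𝓝[>] 0, ∀ z ∈ Metric.closedBall (p.1 t) (L * r), ∃ s ∈ U,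
        dist (p.1 s) z ≤ ε * r := by
  have h1 : ∀ᵐ t : unitInterval, ∀ q : ℚ × ℚ, t ∈ {s : unitInterval | (q.1 : ℝ) ≤ s ∧ (s : ℝ) ≤ q.2}
      → ∀ ε : ℝ, 0 < ε → ∀ r0 : ℝ, 0 < r0 →
      ∃ r : ℝ, 0 < r ∧ r < r0 ∧ Good ε (occ p.1 {s : unitInterval | (q.1 : ℝ) ≤ s ∧ (s : ℝ) ≤ q.2})
        (p.1 t) r := by
    rw [ae_all_iff]
    intro q
    refine good_all hC hl hM hp ?_
    exact ((isClosed_le continuous_const continuous_subtype_val).inter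
      (isClosed_le continuous_subtype_val continuous_const)).measurableSet
  filter_upwards [h1] with t ht U hU ε L hε hL
  obtain ⟨ρ, hρ, hρU⟩ := Metric.mem_nhds_iff.1 hU
  obtain ⟨q1, hq1, hq1'⟩ := exists_rat_btwn (show (t : ℝ) - ρ < t by linarith)
  obtain ⟨q2, hq2, hq2'⟩ := exists_rat_btwn (show (t : ℝ) < t + ρ by linarith)
  rw [frequently_iff]
  intro V hV
  obtain ⟨v, hv, hvV⟩ := mem_nhdsGT_iff_exists_Ioo_subset.1 hV
  have hv : (0 : ℝ) < v := hv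
  obtain ⟨ε', hε'⟩ : ∃ ε' : ℝ, ε' = min (1/2) (ε / (2 * L)) := ⟨_, rfl⟩
  have hε'0 : 0 < ε' := by rw [hε']; exact lt_min (by norm_num) (by positivity)
  have hε'1 : ε' < 1 := by
    rw [hε']; exact lt_of_le_of_lt (min_le_left _ _) (by norm_num)
  have hε'2 : ε' ≤ ε / (2 * L) := by rw [hε']; exact min_le_right _ _
  obtain ⟨r, hr1, hr2, hr3⟩ := ht (q1, q2) ⟨hq1'.le, hq2.le⟩ ε' hε'0 (L * v) (by positivity)
  refine ⟨r / L, hvV ⟨by positivity, by rw [div_lt_iff₀ hL, mul_comm]; exact hr2⟩, fun z hz => ?_⟩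
  have e1 : L * (r / L) = r := by field_simp
  rw [e1] at hz
  obtain ⟨s, hs1, hs2⟩ := good_dense (((isClosed_le continuous_const continuous_subtype_val).inter
      (isClosed_le continuous_subtype_val continuous_const)).measurableSet) hε'1 hr3 hz
  refine ⟨s, hρU ?_, hs2.trans ?_⟩
  · rw [Metric.mem_ball, Subtype.dist_eq, Real.dist_eq, abs_lt]
    obtain ⟨g1, g2⟩ := hs1
    have g1' : (q1 : ℝ) ≤ s := g1
    have g2' : (s : ℝ) ≤ q2 := g2
    constructor <;> linarith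
  · rw [le_div_iff₀ (by positivity)] at hε'2
    rw [← mul_div_assoc, le_div_iff₀ hL]
    nlinarith

end Pool.Agent.K9h27.TP
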